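import Pool.Agent.Work.MP_8f87b2_h71.H1Node
import Pool.Agent.Work.MP_8f87b2_h35.Links
import Pool.Agent.Work.MP_8f87b2_base.Gad20

/-!
MP_8f87b2_co: the 20-word absorber `R[q + 3]` with its real words, `(S, B) = sq R`: sizes, contents, the rank of the old
words (height, number of 1-parts, sum of squares), the links, `Abs`.
-/

namespace Pool.OddHC

namespace H1

open BinaryTree Multiset Equiv

variable {k : ℕ}

/-! ### `[q]` -/

theorem ch_eq (n : ℕ) : ch n = pc n := by
  induction n with
  | zero => rfl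
  | succ n ih => rw [ch, pc, ih]

theorem ch_num (n : ℕ) : (ch n).numNodes = n := by rw [ch_eq, pc_num]

theorem ch_ht (n : ℕ) : ht (ch n) = n := by rw [ch_eq, ht_pc]

theorem ch_cont (n : ℕ) : cont (ch (n + 1)) = {n + 1} := by rw [ch_eq, cont_pc]

/-! ### The data -/

/-- `R[q + 3]` is the last word of the absorber: `(S, B) = sq R`, no part of `B` is smaller than `q + 3` -/
structure Dat (q : ℕ) (R B S : BinaryTree Unit) : Prop where
  sq : Tsq.sq R = (S, B)
  big : q + 3 ≤ ht R
  bare : ∀ x ∈ cont B, q + 3 ≤ x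

variable {q : ℕ} {R B S : BinaryTree Unit}

theorem Dat.ne (h : Dat q R B S) : R ≠ .nil := by
  rintro rfl
  have := h.big
  rw [ht] at this
  omega

theorem Dat.num (h : Dat q R B S) : S.numNodes + B.numNodes = R.numNodes := by
  have := Tsq.sq_num h.ne
  rwa [h.sq] at this

theorem Dat.htS (h : Dat q R B S) : ht S = ht R := by
  have := (Tsq.ht_sq h.ne).1
  rwa [h.sq, ht_eq, ht_eq] at this

theorem Dat.htB (h : Dat q R B S) : ht B ≤ ht R := by
  have := (Tsq.ht_sq h.ne).2
  rwa [h.sq, ht_eq, ht_eq] at this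

/-- `T` keeps the content -/
theorem Dat.cont (h : Dat q R B S) : cont B + cont S = cont R := by
  let x : X R.numNodes := ⟨R, mem_treesOfNumNodesEq.2 rfl⟩
  have e1 : (TT (TT x)).1 = app (Tsq.sq R).2 (Tsq.sq R).1 := Tsq.TT_sq x h.ne
  have e2 : OddHC.cont (TT (TT x)).1 = OddHC.cont R := by
    rw [TT_apply, cont_TF, TT_apply, cont_TF]
  rw [e1, cont_app, h.sq] at e2
  exact e2

/-- the twenty words have `|R| + |Q| + 2` nodes -/
theorem num_W (h : Dat q R B S) (Q : BinaryTree Unit) : ∀ i < 20,
    (W R Q B S i).numNodes = R.numNodes + Q.numNodes + 2 := by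
  have e := h.num
  intro i hi
  have hn : ∀ A C : BinaryTree Unit, (A △ C).numNodes = A.numNodes + C.numNodes + 1 := fun _ _ => rfl
  have h0 : (BinaryTree.nil : BinaryTree Unit).numNodes = 0 := rfl
  interval_cases i <;> simp only [W, num_app, hn, h0] <;> omega

/-! ### The words in `X k` -/

/-- the words in `X k` -/
noncomputable def wX (R B S : BinaryTree Unit) (q : ℕ) (w0 : X k) (i : ℕ) : X k := by
  classical
  exact if h : (W R (ch (q + 1)) B S i).numNodes = k then ⟨_, mem_treesOfNumNodesEq.2 h⟩ else w0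

theorem wX_eq (h : Dat q R B S) (hk : R.numNodes + q + 3 = k) (w0 : X k) {i : ℕ} (hi : i < 20) :
    (wX R B S q w0 i).1 = W R (ch (q + 1)) B S i := by
  unfold wX
  rw [dif_pos (by rw [num_W h _ i hi, ch_num]; omega)]

theorem W_w20 (R Q B S : BinaryTree Unit) : ∀ i < 20, W R Q B S i = w20 R Q B S i := by
  intro i hi
  interval_cases i <;> rfl

/-! ### Contents -/

theorem raise_one {M : Multiset ℕ} (h : 2 ≤ M.sup) : (raise M).count 1 = M.count 1 :=
  count_raise 1 (by omega) (by omega)

/-- a second part keeps one `1` -/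
theorem raise_one_pos {M : Multiset ℕ} (h1 : 1 ∈ M) (h2 : M ≠ {1}) (h3 : ∀ x ∈ M, 1 ≤ x) :
    1 ≤ (raise M).count 1 := by
  have h0 : M ≠ 0 := by
    rintro rfl
    exact absurd h1 (Multiset.notMem_zero 1)
  have h4 : 1 ≤ M.sup := Multiset.le_sup h1
  rcases Nat.lt_or_ge M.sup 2 with h5 | h5
  · have h6 : M.sup = 1 := by omega
    have h7 := count_raise_sup h0
    rw [h6] at h7
    have h8 : M.count 1 ≠ 1 := by
      intro h8
      apply h2
      have h9 : ∀ x ∈ M, x = 1 := fun x hx => by
        have := Multiset.le_sup hx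
        have := h3 x hx
        omega
      have h10 := Multiset.eq_replicate_card.2 h9
      rw [h10, Multiset.count_replicate_self] at h8
      rw [h10, h8]
      rfl
    have h9 : 1 ≤ M.count 1 := Multiset.one_le_count_iff_mem.2 h1
    omega
  · rw [raise_one h5]
    exact Multiset.one_le_count_iff_mem.2 h1

/-- sum of the squares -/
def sqs (M : Multiset ℕ) : ℕ := (M.map (fun x => x ^ 2)).sum

theorem sqs_add (M N : Multiset ℕ) : sqs (M + N) = sqs M + sqs N := by
  unfold sqs
  rw [Multiset.map_add, Multiset.sum_add]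

theorem sqs_single (a : ℕ) : sqs {a} = a ^ 2 := by
  unfold sqs
  rw [Multiset.map_singleton, Multiset.sum_singleton]

theorem sqs_raise {M : Multiset ℕ} (h : M ≠ 0) : sqs (raise M) = sqs M + 2 * M.sup + 1 := by
  have h1 : sqs M = M.sup ^ 2 + sqs (M.erase M.sup) := by
    conv_lhs => rw [← Multiset.cons_erase (sup_mem h)]
    unfold sqs
    rw [Multiset.map_cons, Multiset.sum_cons]
  have h2 : sqs (raise M) = (M.sup + 1) ^ 2 + sqs (M.erase M.sup) := by
    unfold raise sqs
    rw [Multiset.map_cons, Multiset.sum_cons]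
  rw [h1, h2]
  ring

/-- the rank order: height, number of 1-parts, sum of squares -/
def Lower (M N : Multiset ℕ) : Prop :=
  N.sup < M.sup ∨ (M.sup = N.sup ∧ (N.count 1 < M.count 1 ∨ (M.count 1 = N.count 1 ∧ sqs N < sqs M)))

theorem Lower.ne {M N : Multiset ℕ} (h : Lower M N) : M ≠ N := by
  rintro rfl
  rcases h with h | ⟨_, h | ⟨_, h⟩⟩ <;> omega

/-- the content of the new T-cycle -/
theorem cont_W0 : cont (W R (ch (q + 1)) B S 0) = cont R + {q + 3} := by
  have e : W R (ch (q + 1)) B S 0 = app R (pc (q + 2 + 1)) := by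
    rw [← ch_eq]; rfl
  rw [e, cont_app, cont_pc]

/-- THE OLD WORDS ARE OLDER -/
theorem rank_W (h : Dat q R B S) : ∀ i < 20, i ≠ 0 → i ≠ 10 →
    Lower (cont (W R (ch (q + 1)) B S i)) (cont R + {q + 3}) := by
  intro i hi h0 h10
  have hz : (cont R + {q + 3}).sup = ht R := by
    rw [sup_add', ← OddHC.ht_eq, Multiset.sup_singleton]
    have := h.big
    omega
  have hz1 : (cont R + {q + 3}).count 1 = (cont R).count 1 := by
    rw [Multiset.count_add, Multiset.count_singleton, if_neg (by omega), add_zero]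
  have hS := h.htS
  have hB := h.htB
  have hb := h.big
  have hc := h.cont
  have hQ := ch_ht (q + 1)
  have h00 : ht (BinaryTree.nil : BinaryTree Unit) = 0 := rfl
  have cQ := ch_cont q
  have hB1 : (cont B).count 1 = 0 := by
    rw [Multiset.count_eq_zero]
    intro h1
    have := h.bare 1 h1
    omega
  have hS1 : (cont S).count 1 = (cont R).count 1 := by
    rw [← hc, Multiset.count_add, hB1, zero_add]
  -- more height
  have up : ∀ w : BinaryTree Unit, ht R < ht w → Lower (cont w) (cont R + {q + 3}) := by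
    intro w hw
    left
    rw [hz, ← OddHC.ht_eq]
    exact hw
  have one : ∀ w : BinaryTree Unit, ht w = ht R → (cont R).count 1 < (cont w).count 1 →
      Lower (cont w) (cont R + {q + 3}) := by
    intro w hw h1
    right
    rw [hz, ← OddHC.ht_eq]
    refine ⟨hw, Or.inl ?_⟩
    rw [hz1]
    exact h1
  have hcc : ∀ (A : Multiset ℕ), (raise A).count 1 + 0 = (raise A).count 1 := fun _ => rfl
  have cn : ∀ A C : BinaryTree Unit, (cont (A △ C)).count 1 = (raise (cont A)).count 1 + (cont C).count 1 := by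
    intro A C
    rw [cont_node, Multiset.count_add]
  have ca : ∀ A C : BinaryTree Unit, (cont (app A C)).count 1 = (cont A).count 1 + (cont C).count 1 := by
    intro A C
    rw [cont_app, Multiset.count_add]
  have c0 : (cont (BinaryTree.nil : BinaryTree Unit)).count 1 = 0 := rfl
  have r0 : (raise (cont (BinaryTree.nil : BinaryTree Unit))).count 1 = 1 := by
    rw [cont_nil, raise_zero]; rfl
  interval_cases i
  · exact absurd rfl h0
  · apply one
    · simp only [W, ht_app, ht_node, hQ, h00]; omega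
    · simp only [W, ca, cn, c0, r0]; omega
  · apply one
    · simp only [W, ht_app, ht_node, hQ, h00]; omega
    · simp only [W, ca, cn, r0, cQ, Multiset.count_singleton]
      have h5 : 1 ≤ 1 + (cont (BinaryTree.nil △ ch (q + 1))).count 1 := by omega
      omega
  · apply up
    simp only [W, ht_app, ht_node, hQ, h00]; omega
  · apply one
    · simp only [W, ht_app, ht_node, hQ, h00]; omega
    · simp only [W, cn]
      have h5 : 1 ≤ (raise (cont (app (ch (q + 1)) (BinaryTree.nil △ .nil)))).count 1 := by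
        apply raise_one_pos
        · rw [cont_app, cont_node, cont_nil, raise_zero]
          simp
        · rw [cont_app, cont_node, cont_nil, raise_zero, cQ]
          intro h6
          have := congrArg Multiset.card h6
          simp at this
        · exact cont_pos _
      omega
  · apply one
    · simp only [W, ht_app, ht_node, hQ, h00]; omega
    · simp only [W, cn, r0]; omega
  · apply up
    simp only [W, ht_app, ht_node, hQ, h00]; omega
  · apply up
    simp only [W, ht_app, ht_node, hQ, h00]; omega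
  · apply up
    simp only [W, ht_app, ht_node, hQ, h00]; omega
  · apply up
    simp only [W, ht_app, ht_node, hQ, h00]; omega
  · exact absurd rfl h10
  · apply one
    · simp only [W, ht_app, ht_node, hQ, h00]; omega
    · simp only [W, ca, cn, r0]; omega
  · apply up
    simp only [W, ht_app, ht_node, hQ, h00]; omega
  · rcases Nat.lt_or_ge (ht B) (ht R) with h5 | h5
    · apply one
      · simp only [W, ht_app, ht_node, hQ, h00]; omega
      · simp only [W, ca, cn, c0]
        have h6 : 1 ≤ (raise (cont (app B (BinaryTree.nil △ ch (q + 1))))).count 1 := by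
          apply raise_one_pos
          · rw [cont_app, cont_node, cont_nil, raise_zero]
            simp
          · rw [cont_app, cont_node, cont_nil, raise_zero, cQ]
            intro h6
            have := congrArg Multiset.card h6
            simp at this
          · exact cont_pos _
        omega
    · apply up
      simp only [W, ht_app, ht_node, hQ, h00]; omega
  · apply up
    simp only [W, ht_app, ht_node, hQ, h00]; omega
  · apply up
    simp only [W, ht_app, ht_node, hQ, h00]; omega
  · rcases Nat.lt_or_ge (ht B) (ht R) with h5 | h5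
    · have e1 : ht (W R (ch (q + 1)) B S 16) = ht R := by
        simp only [W, ht_app, ht_node, hQ, h00]; omega
      have e2 : cont (W R (ch (q + 1)) B S 16) = cont S + (raise (cont B) + {q + 2}) := by
        have e3 : cont (ch (q + 1) △ BinaryTree.nil) = {q + 2} := ch_cont (q + 1)
        simp only [W, cont_app]
        rw [cont_node, e3]
      by_cases hBn : B = .nil
      · apply one _ e1
        rw [e2, hBn, Multiset.count_add, Multiset.count_add, r0]
        omega
      · have hB0 : cont B ≠ 0 := fun h => hBn (cont_eq_zero.1 h)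
        have hBs := h.bare _ (sup_mem hB0)
        right
        rw [hz, ← OddHC.ht_eq]
        refine ⟨e1, Or.inr ⟨?_, ?_⟩⟩
        · rw [hz1, e2, Multiset.count_add, Multiset.count_add, raise_one (by omega), hB1,
            Multiset.count_singleton, if_neg (by omega)]
          omega
        · rw [e2, ← hc, sqs_add, sqs_add, sqs_add, sqs_add, sqs_raise hB0, sqs_single, sqs_single]
          nlinarith
    · apply up
      simp only [W, ht_app, ht_node, hQ, h00]; omega
  · apply up
    simp only [W, ht_app, ht_node, hQ, h00]; omega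
  · rcases Nat.lt_or_ge (ht B) (ht R) with h5 | h5
    · apply one
      · simp only [W, ht_app, ht_node, hQ, h00]; omega
      · simp only [W, ca, cn, r0, c0]; omega
    · apply up
      simp only [W, ht_app, ht_node, hQ, h00]; omega
  · apply up
    simp only [W, ht_app, ht_node, hQ, h00]; omega

/-! ### `Abs` and the links -/

theorem wX_cont0 (h : Dat q R B S) (hk : R.numNodes + q + 3 = k) (w0 : X k) :
    cont (wX R B S q w0 0).1 = cont R + {q + 3} := by
  rw [wX_eq h hk w0 (by norm_num), cont_W0]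

/-- the other words are on other T-cycles -/
theorem wX_hold (h : Dat q R B S) (hk : R.numNodes + q + 3 = k) (w0 : X k) : ∀ i < 20, i ≠ 0 →
    i ≠ 10 → ¬ TT.SameCycle (wX R B S q w0 0) (wX R B S q w0 i) := by
  intro i hi h0 h10 hs
  have h1 := cont_same hs
  rw [wX_cont0 h hk, wX_eq h hk w0 hi] at h1
  exact (rank_W h i hi h0 h10).ne h1.symm

/-- the links -/
theorem wX_link (h : Dat q R B S) (hk : R.numNodes + q + 3 = k) (w0 : X k) {i j : ℕ}
    (hij : (i, j) ∈ [(0, 10), (1, 11), (3, 12), (6, 15), (8, 14), (9, 17)]) :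
    TT (TT (wX R B S q w0 i)) = wX R B S q w0 j := by
  have hb := h.big
  have hQ : Tsq.ht (ch (q + 1)) = q + 1 := by rw [ht_eq, ch_ht]
  have hR : Tsq.ht R = ht R := ht_eq R
  have e1 : ∀ n < 20, (wX R B S q w0 n).1 = w20 R (ch (q + 1)) B S n := by
    intro n hn
    rw [wX_eq h hk w0 hn, W_w20 _ _ _ _ n hn]
  have hs1 : (Tsq.sq R).1 = S := by rw [h.sq]
  have hs2 : (Tsq.sq R).2 = B := by rw [h.sq]
  simp only [List.mem_cons, Prod.mk.injEq, List.not_mem_nil, or_false] at hij
  rcases hij with ⟨rfl, rfl⟩ | ⟨rfl, rfl⟩ | ⟨rfl, rfl⟩ | ⟨rfl, rfl⟩ | ⟨rfl, rfl⟩ | ⟨rfl, rfl⟩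
  · exact Tsq.link0 (R := R) (Q := ch (q + 1)) (by omega) (by rw [e1 0 (by norm_num)]; rfl)
      (by rw [e1 10 (by norm_num), hs1, hs2]; rfl)
  · exact Tsq.link h.ne (Q := ch (q + 1)) (i := 1) (j := 1) (by omega) (by simp)
      (by rw [e1 1 (by norm_num)]; rfl) (by rw [e1 11 (by norm_num), hs1, hs2]; rfl)
  · exact Tsq.link h.ne (Q := ch (q + 1)) (i := 3) (j := 2) (by omega) (by simp)
      (by rw [e1 3 (by norm_num)]; rfl) (by rw [e1 12 (by norm_num), hs1, hs2]; rfl)
  · exact Tsq.link h.ne (Q := ch (q + 1)) (i := 6) (j := 5) (by omega) (by simp)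
      (by rw [e1 6 (by norm_num)]; rfl) (by rw [e1 15 (by norm_num), hs1, hs2]; rfl)
  · exact Tsq.link h.ne (Q := ch (q + 1)) (i := 8) (j := 4) (by omega) (by simp)
      (by rw [e1 8 (by norm_num)]; rfl) (by rw [e1 14 (by norm_num), hs1, hs2]; rfl)
  · exact Tsq.link h.ne (Q := ch (q + 1)) (i := 9) (j := 7) (by omega) (by simp)
      (by rw [e1 9 (by norm_num)]; rfl) (by rw [e1 17 (by norm_num), hs1, hs2]; rfl)

/-- **the absorber** -/
theorem wX_abs (h : Dat q R B S) (hk : R.numNodes + q + 3 = k) (w0 : X k)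
    (hinj : ∀ i < 20, ∀ j < 20, W R (ch (q + 1)) B S i = W R (ch (q + 1)) B S j → i = j) :
    (gad20 (wX R B S q w0)).Abs := by
  have e := h.num
  apply gad20_abs (R := R) (Q := ch (q + 1)) (B := B) (S := S) (by rw [ch_num]; omega)
    (by rw [ch_num]; omega) (fun i hi => by rw [wX_eq h hk w0 hi, W_w20 _ _ _ _ i hi])
  · intro i hi j hj h1
    have h2 := congrArg Subtype.val h1
    rw [wX_eq h hk w0 hi, wX_eq h hk w0 hj] at h2
    exact hinj i hi j hj h2
  · have h1 := wX_link h hk w0 (i := 0) (j := 10) (by simp)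
    refine ⟨2, ?_⟩
    rw [show (2 : ℤ) = ((2 : ℕ) : ℤ) from rfl, zpow_natCast, pow_two, Perm.mul_apply, h1]
  · exact wX_hold h hk w0

/-! ### Nodes -/

/-- the data of a node of type A, `k` nodes -/
structure NodeA (k q a m : ℕ) (R0 B1 s B : BinaryTree Unit) : Prop where
  tall : Tall R0 B1 s B
  part : ∀ x ∈ cont R0, q + 3 ≤ x
  four : 4 ≤ ht R0
  pos : 0 < a + m
  size : (nR B1 s B a m).numNodes + q + 3 = k

theorem ht_H (a m : ℕ) (t : BinaryTree Unit) (h : 2 ≤ ht t) : ht (lv m (lv2 a t)) = ht t := by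
  have h1 : ht (lv m (lv2 a .nil)) ≤ 2 := by rw [← ht_eq]; exact bl_ht (bl_H a m)
  rw [lv_app' m (lv2 a t), lv2_app a t, ← app_assoc, ← lv_app', ht_app]
  omega

variable {a m : ℕ} {R0 B1 s : BinaryTree Unit}

theorem NodeA.ne0 (h : NodeA k q a m R0 B1 s B) : R0 ≠ .nil := by
  rintro rfl
  have := h.four
  rw [ht] at this
  omega

theorem NodeA.part3 (h : NodeA k q a m R0 B1 s B) : ∀ x ∈ cont R0, 3 ≤ x := fun x hx => by
  have := h.part x hx
  omega

theorem NodeA.ht (h : NodeA k q a m R0 B1 s B) : OddHC.ht (nR B1 s B a m) = OddHC.ht R0 := by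
  have h1 := h.tall.top
  have h2 := h.tall.low
  have h4 := h.four
  have h3 : OddHC.ht R0 = max (OddHC.ht B1) (max (OddHC.ht s + 1) (OddHC.ht B)) := by
    rw [h.tall.eq, ht_app, ht_node]
  unfold nR
  rw [ht_app, ht_node, ht_H a m s (by omega)]
  omega

/-- the data of the absorber -/
theorem NodeA.dat (h : NodeA k q a m R0 B1 s B) :
    Dat q (nR B1 s B a m) B (Tsq.sq (nR B1 s B a m)).1 := by
  obtain ⟨k1, k2⟩ := node_adm (q := q) h.tall h.part3 h.four h.pos
  refine ⟨Prod.ext rfl k1, ?_, ?_⟩
  · rw [h.ht, OddHC.ht_eq]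
    have h0 : cont R0 ≠ 0 := fun e => h.ne0 (cont_eq_zero.1 e)
    exact h.part _ (sup_mem h0)
  · intro x hx
    apply h.part
    rw [h.tall.eq, cont_app, cont_node]
    exact Multiset.mem_add.2 (Or.inr (Multiset.mem_add.2 (Or.inr hx)))

/-- the words of the node -/
noncomputable def nX (q a m : ℕ) (B1 s B : BinaryTree Unit) (w0 : X k) (i : ℕ) : X k :=
  wX (nR B1 s B a m) B (Tsq.sq (nR B1 s B a m)).1 q w0 i

theorem NodeA.word (h : NodeA k q a m R0 B1 s B) (w0 : X k) {i : ℕ} (hi : i < 20) :
    (nX q a m B1 s B w0 i).1 =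
      W (nR B1 s B a m) (ch (q + 1)) B (Tsq.sq (nR B1 s B a m)).1 i :=
  wX_eq h.dat h.size w0 hi

/-- **the words of different nodes are different** -/
theorem NodeA.disj (h : NodeA k q a m R0 B1 s B) {q' a' m' : ℕ} {R0' B1' s' B' : BinaryTree Unit}
    (h' : NodeA k q' a' m' R0' B1' s' B') (w0 : X k) {i j : ℕ} (hi : i < 20) (hj : j < 20)
    (e : nX q a m B1 s B w0 i = nX q' a' m' B1' s' B' w0 j) :
    i = j ∧ q = q' ∧ nR B1 s B a m = nR B1' s' B' a' m' := by
  have e1 := congrArg Subtype.val e
  rw [h.word w0 hi, h'.word w0 hj] at e1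
  apply node_disj h.tall h.part3 h.four h.pos h'.tall h'.part3 h'.four h'.pos hi hj
  obtain ⟨k1, _⟩ := node_adm (q := q) h.tall h.part3 h.four h.pos
  obtain ⟨k1', _⟩ := node_adm (q := q') h'.tall h'.part3 h'.four h'.pos
  rw [k1, k1']
  exact e1

/-- **the absorber of a node** -/
theorem NodeA.abs (h : NodeA k q a m R0 B1 s B) (w0 : X k) : (gad20 (nX q a m B1 s B w0)).Abs := by
  apply wX_abs h.dat h.size w0
  intro i hi j hj e
  have e1 : nX q a m B1 s B w0 i = nX q a m B1 s B w0 j := by
    apply Subtype.ext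
    rw [h.word w0 hi, h.word w0 hj]
    exact e
  exact (h.disj h w0 hi hj e1).1

/-- the old words are older: height, then 1-parts, then squares -/
theorem NodeA.rank (h : NodeA k q a m R0 B1 s B) (w0 : X k) : ∀ i < 20, i ≠ 0 → i ≠ 10 →
    Lower (cont (nX q a m B1 s B w0 i).1) (cont (nX q a m B1 s B w0 0).1) := by
  intro i hi h0 h10
  have e : cont (nX q a m B1 s B w0 0).1 = cont (nR B1 s B a m) + {q + 3} := wX_cont0 h.dat h.size w0
  rw [e, h.word w0 hi]
  exact rank_W h.dat i hi h0 h10

/-- the links of a node -/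
theorem NodeA.link (h : NodeA k q a m R0 B1 s B) (w0 : X k) {i j : ℕ}
    (hij : (i, j) ∈ [(0, 10), (1, 11), (3, 12), (6, 15), (8, 14), (9, 17)]) :
    TT (TT (nX q a m B1 s B w0 i)) = nX q a m B1 s B w0 j := wX_link h.dat h.size w0 hij

end H1

end Pool.OddHC
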