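import Pool.Agent.Work.MP_8f87b2_h71.H1Gen

/-!
MP_8f87b2_co, rule H1, windows of height 4: the explicit form of `T` (`aa`, `cc`: `w = a 1 c 0 B`), and the inner words
against the words 13, 16, 18, 19 of windows of height 4.
-/

namespace Pool.OddHC

namespace H1

open BinaryTree Equiv

variable {k : ℕ}

/-! ### `T` -/

/-- the word before the first maximum -/
def aa : BinaryTree Unit → List Bool
  | .nil => []
  | .node _ A C =>
    if Tsq.ht A + 1 < Tsq.ht C then true :: (wd A ++ false :: aa C)
    else (match A with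
      | .nil => []
      | .node u A1 A2 => true :: aa (.node u A1 A2))

/-- the word between the first maximum and the next zero -/
def cc : BinaryTree Unit → List Bool
  | .nil => []
  | .node _ A C =>
    if Tsq.ht A + 1 < Tsq.ht C then cc C
    else (match A with
      | .nil => []
      | .node u A1 A2 => cc (.node u A1 A2) ++ false :: wd (Tsq.sq (.node u A1 A2)).2)

theorem aa_lt {A C : BinaryTree Unit} (h : Tsq.ht A + 1 < Tsq.ht C) :
    aa (A △ C) = true :: (wd A ++ false :: aa C) := by
  cases A <;> (rw [aa, if_pos h])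

theorem cc_lt {A C : BinaryTree Unit} (h : Tsq.ht A + 1 < Tsq.ht C) : cc (A △ C) = cc C := by
  cases A <;> (rw [cc, if_pos h])

theorem aa_ge {A C : BinaryTree Unit} (hA : A ≠ .nil) (h : Tsq.ht C ≤ Tsq.ht A + 1) :
    aa (A △ C) = true :: aa A := by
  cases A with
  | nil => exact absurd rfl hA
  | node u A1 A2 => rw [aa, if_neg (by omega)]

theorem cc_ge {A C : BinaryTree Unit} (hA : A ≠ .nil) (h : Tsq.ht C ≤ Tsq.ht A + 1) :
    cc (A △ C) = cc A ++ false :: wd (Tsq.sq A).2 := by
  cases A with
  | nil => exact absurd rfl hA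
  | node u A1 A2 => rw [cc, if_neg (by omega)]

theorem aa_nil {C : BinaryTree Unit} (h : Tsq.ht C ≤ 1) : aa (.nil △ C) = [] := by
  rw [aa, if_neg (by rw [Tsq.ht]; omega)]

theorem cc_nil {C : BinaryTree Unit} (h : Tsq.ht C ≤ 1) : cc (.nil △ C) = [] := by
  rw [cc, if_neg (by rw [Tsq.ht]; omega)]

/-- the decomposition -/
theorem ac_spec : ∀ t : BinaryTree Unit, t ≠ .nil →
    wd t = aa t ++ true :: (cc t ++ false :: wd (Tsq.sq t).2) ∧
    (∀ m, ((aa t).take m).count true + 1 ≤ ((aa t).take m).count false + Tsq.ht t) ∧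
    (aa t).count true + 1 = (aa t).count false + Tsq.ht t ∧
    (∀ m, ((cc t).take m).count true ≤ ((cc t).take m).count false) ∧
    (cc t).count false + 1 = (cc t).count true + Tsq.ht t ∧ Tsq.ht (Tsq.sq t).2 ≤ Tsq.ht t := by
  intro t
  induction t with
  | nil => intro h; exact absurd rfl h
  | node u A C ihA ihC =>
    intro _
    change wd (A △ C) = aa (A △ C) ++ true :: (cc (A △ C) ++ false :: wd (Tsq.sq (A △ C)).2) ∧
      (∀ m, ((aa (A △ C)).take m).count true + 1 ≤ ((aa (A △ C)).take m).count false + Tsq.ht (A △ C)) ∧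
      (aa (A △ C)).count true + 1 = (aa (A △ C)).count false + Tsq.ht (A △ C) ∧
      (∀ m, ((cc (A △ C)).take m).count true ≤ ((cc (A △ C)).take m).count false) ∧
      (cc (A △ C)).count false + 1 = (cc (A △ C)).count true + Tsq.ht (A △ C) ∧
      Tsq.ht (Tsq.sq (A △ C)).2 ≤ Tsq.ht (A △ C)
    by_cases h : Tsq.ht A + 1 < Tsq.ht C
    · have hC : C ≠ .nil := by
        rintro rfl
        simp [Tsq.ht] at h
      obtain ⟨h1, h3, h4, h5, h6, h7⟩ := ihC hC
      have hhh : Tsq.ht (A △ C) = Tsq.ht C := by rw [Tsq.ht_node]; omega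
      obtain ⟨a, c, _, h2, _⟩ := Tsq.sq_spec C hC
      obtain ⟨Xx, Y, hX⟩ : ∃ Xx Y, (Tsq.sq C).1 = Xx △ Y := by
        cases hS : (Tsq.sq C).1 with
        | nil => rw [hS] at h2; simp [wd] at h2
        | node _ Xx Y => exact ⟨Xx, Y, rfl⟩
      rw [Tsq.sq_lt h hX, aa_lt h, cc_lt h, hhh]
      refine ⟨?_, ?_, ?_, h5, h6, h7⟩
      · rw [wd_node, h1]; simp
      · intro m
        rcases m with _ | m
        · simp; omega
        · rw [List.take_succ_cons, List.take_append, List.count_cons, List.count_append,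
            List.count_cons, List.count_append]
          have g1 := Tsq.ht_take A m
          have cA := wd_counts A
          rcases le_or_gt m (wd A).length with hm | hm
          · have e : m - (wd A).length = 0 := by omega
            rw [e]
            simp only [List.take_zero, List.count_nil]
            simp
            omega
          · obtain ⟨q, hq⟩ : ∃ q, m - (wd A).length = q + 1 := ⟨m - (wd A).length - 1, by omega⟩
            rw [hq, List.take_succ_cons, List.take_of_length_le hm.le, cA.1, cA.2, List.count_cons,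
              List.count_cons]
            have g2 := h3 q
            simp
            omega
      · have cA := wd_counts A
        simp only [List.count_cons, List.count_append, cA.1, cA.2]
        simp
        omega
    · push Not at h
      have hhh : Tsq.ht (A △ C) = Tsq.ht A + 1 := by rw [Tsq.ht_node]; omega
      by_cases hA : A = .nil
      · subst hA
        have h0 : Tsq.ht C ≤ 1 := by simpa [Tsq.ht] using h
        rw [Tsq.sq_nil h0, aa_nil h0, cc_nil h0, hhh]
        refine ⟨?_, ?_, ?_, ?_, ?_, ?_⟩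
        · rw [wd_node]; simp [wd]
        · intro m; simp [Tsq.ht]
        · simp [Tsq.ht]
        · intro m; simp
        · simp [Tsq.ht]
        · exact h
      · obtain ⟨h1, h3, h4, h5, h6, h7⟩ := ihA hA
        rw [Tsq.sq_ge hA h, aa_ge hA h, cc_ge hA h, hhh]
        refine ⟨?_, ?_, ?_, ?_, ?_, ?_⟩
        · rw [wd_node]
          conv_lhs => rw [h1]
          simp
        · intro m
          rcases m with _ | m
          · simp
          · rw [List.take_succ_cons, List.count_cons, List.count_cons]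
            have := h3 m
            simp
            omega
        · rw [List.count_cons, List.count_cons]
          simp
          omega
        · intro m
          rw [List.take_append, List.count_append, List.count_append]
          have g1 := h5 m
          rcases le_or_gt m (cc A).length with hm | hm
          · have e : m - (cc A).length = 0 := by omega
            rw [e]
            simp only [List.take_zero, List.count_nil]
            omega
          · obtain ⟨q, hq⟩ : ∃ q, m - (cc A).length = q + 1 := ⟨m - (cc A).length - 1, by omega⟩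
            rw [hq, List.take_succ_cons, List.take_of_length_le hm.le, List.count_cons, List.count_cons]
            have g2 := Tsq.ht_take (Tsq.sq A).2 q
            have g3 := Tsq.ht_pos hA
            simp
            omega
        · have cB := wd_counts (Tsq.sq A).2
          simp only [List.count_append, List.count_cons, cB.1, cB.2]
          simp
          omega
        · exact h

/-- `T` -/
theorem TT_ac (x : X k) (hx : x.1 ≠ .nil) : wd (TT x).1 =
    (cc x.1).map not ++ true :: ((wd (Tsq.sq x.1).2).map not ++ false :: (aa x.1).map not) := by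
  obtain ⟨h1, h3, h4, h5, h6, h7⟩ := ac_spec x.1 hx
  obtain ⟨t, ht⟩ := Tsq.T_tree h3 h4 h5 h6 h7
  have e1 : (TF x).1 = t := Tsq.TF_of h1 (by rw [ht]; simp)
  rw [TT_apply, e1, ht]

theorem ac_app : ∀ (R Z : BinaryTree Unit), R ≠ .nil → Tsq.ht Z ≤ Tsq.ht R →
    aa (app R Z) = aa R ∧ cc (app R Z) = cc R := by
  intro R
  induction R with
  | nil => intro Z h; exact absurd rfl h
  | node u A C ihA ihC =>
    intro Z _ hZ
    change aa (A △ (app C Z)) = aa (A △ C) ∧ cc (A △ (app C Z)) = cc (A △ C)
    have hZ' : Tsq.ht Z ≤ max (Tsq.ht A + 1) (Tsq.ht C) := hZ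
    by_cases h : Tsq.ht A + 1 < Tsq.ht C
    · have hC : C ≠ .nil := by
        rintro rfl
        simp [Tsq.ht] at h
      obtain ⟨e1, e2⟩ := ihC Z hC (by omega)
      have h' : Tsq.ht A + 1 < Tsq.ht (app C Z) := by rw [Tsq.ht_app]; omega
      rw [aa_lt h, aa_lt h', cc_lt h, cc_lt h', e1, e2]
      exact ⟨rfl, rfl⟩
    · push Not at h
      have h' : Tsq.ht (app C Z) ≤ Tsq.ht A + 1 := by rw [Tsq.ht_app]; omega
      by_cases hA : A = .nil
      · subst hA
        rw [aa_nil (by simpa [Tsq.ht] using h'), aa_nil (by simpa [Tsq.ht] using h),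
          cc_nil (by simpa [Tsq.ht] using h'), cc_nil (by simpa [Tsq.ht] using h)]
        exact ⟨rfl, rfl⟩
      · rw [aa_ge hA h, aa_ge hA h', cc_ge hA h, cc_ge hA h']
        exact ⟨rfl, rfl⟩

theorem ac_pre : ∀ (Q R : BinaryTree Unit), Tsq.ht Q < Tsq.ht R →
    aa (app Q R) = wd Q ++ aa R ∧ cc (app Q R) = cc R := by
  intro Q
  induction Q with
  | nil => intro R _; exact ⟨rfl, rfl⟩
  | node u A C ihA ihC =>
    intro R hR
    change aa (A △ (app C R)) = wd (A △ C) ++ aa R ∧ cc (A △ (app C R)) = cc R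
    have hR' : max (Tsq.ht A + 1) (Tsq.ht C) < Tsq.ht R := hR
    obtain ⟨e1, e2⟩ := ihC R (by omega)
    have h' : Tsq.ht A + 1 < Tsq.ht (app C R) := by rw [Tsq.ht_app]; omega
    rw [aa_lt h', cc_lt h', e1, e2, wd_node]
    simp

/-! ### Height 4 -/

/-- `(())` -/
abbrev two : BinaryTree Unit := (.nil △ .nil) △ .nil

/-- complement -/
def co (l : List Bool) : List Bool := l.map not

theorem co_app (l l' : List Bool) : co (l ++ l') = co l ++ co l' := List.map_append

theorem co_cons (b : Bool) (l : List Bool) : co (b :: l) = (!b) :: co l := rfl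

theorem co_nil : co [] = [] := rfl

theorem wd_nil : wd .nil = [] := rfl

theorem wd_two : wd two = [true, true, false, false] := by simp [wd]

theorem hv_three {s : BinaryTree Unit} (h : hv s) (h3 : Tsq.ht s ≤ 3) : ∃ p, s = lv3' p .nil := by
  induction s with
  | nil => exact ⟨0, rfl⟩
  | node u A C _ ihC =>
    have e : Tsq.ht (BinaryTree.node u A C) = max (Tsq.ht A + 1) (Tsq.ht C) := rfl
    rw [e] at h3
    obtain ⟨p, hp⟩ := ihC h.2 (by omega)
    rcases h.1 with rfl | ⟨h1, h2⟩
    · exact ⟨p + 1, by rw [hp]; rfl⟩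
    · have := hv_ht h2 h1
      omega

theorem ht_three (p : ℕ) : Tsq.ht (lv3' p .nil) ≤ 3 := by
  induction p with
  | zero => rw [lv3', Tsq.ht]; omega
  | succ p ih =>
    rw [lv3', Tsq.ht_node]
    have : Tsq.ht (((.nil : BinaryTree Unit) △ .nil) △ .nil) = 2 := rfl
    omega

theorem wd_three (p : ℕ) : wd (lv3' (p + 1) .nil) =
    true :: true :: true :: false :: false :: false :: wd (lv3' p .nil) := by
  rw [lv3', wd_node]
  simp [wd]

theorem ht_two : Tsq.ht (((.nil : BinaryTree Unit) △ .nil) △ .nil) = 2 := rfl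

theorem sq_three (p : ℕ) : Tsq.sq (lv3' (p + 1) .nil) = (two △ .nil, lv3' p .nil) := by
  have h := ht_three p
  rw [lv3', Tsq.sq_ge (by simp) (by rw [ht_two]; omega), sq_two]

theorem ac_two : aa two = [true] ∧ cc two = [false] := by
  have h0 : Tsq.ht (BinaryTree.nil : BinaryTree Unit) = 0 := rfl
  have h1 : aa ((.nil : BinaryTree Unit) △ .nil) = [] := aa_nil (by omega)
  have h2 : cc ((.nil : BinaryTree Unit) △ .nil) = [] := cc_nil (by omega)
  have h3 : Tsq.sq ((.nil : BinaryTree Unit) △ .nil) = (.nil △ .nil, .nil) :=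
    Tsq.sq_nil (by omega)
  constructor
  · rw [aa_ge (by simp) (by omega), h1]
  · rw [cc_ge (by simp) (by omega), h2, h3]
    rfl

theorem ac_three (p : ℕ) : aa (lv3' (p + 1) .nil) = [true, true] ∧
    cc (lv3' (p + 1) .nil) = [false, false] := by
  have h := ht_three p
  constructor
  · rw [lv3', aa_ge (by simp) (by rw [ht_two]; omega), ac_two.1]
  · rw [lv3', cc_ge (by simp) (by rw [ht_two]; omega), ac_two.2, sq_two]
    rfl

/-- `S` of a window of height 4 -/
def S4 (b : ℕ) (H : BinaryTree Unit) (p : ℕ) : BinaryTree Unit :=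
  app (lv3' b .nil) (app H two △ .nil) △ lv3' p .nil

/-- the data of a window of height 4 -/
theorem NodeG.four {q : ℕ} {B1 H s B : BinaryTree Unit} (h : NodeG k q B1 H s B)
    (h3 : OddHC.ht s ≤ 3) : ∃ b p, B1 = lv3' b .nil ∧ s = lv3' (p + 1) .nil ∧
      (Tsq.sq (gR B1 H s B)).1 = S4 b H p := by
  have eB1 : Tsq.ht B1 = OddHC.ht B1 := ht_eq B1
  have es : Tsq.ht s = OddHC.ht s := ht_eq s
  have eB : Tsq.ht B = OddHC.ht B := ht_eq B
  have h1 := h.low
  have h2 := h.top
  have hs := h.hs3
  obtain ⟨b, rfl⟩ := hv_three h.h1 (by omega)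
  obtain ⟨p, rfl⟩ := hv_three h.hs (by omega)
  rcases p with _ | p
  · exact absurd rfl h.s0
  refine ⟨b, p, rfl, rfl, ?_⟩
  have hH2 := bl_ht h.light
  have e1 : Tsq.ht (app H (lv3' (p + 1) .nil)) = Tsq.ht (lv3' (p + 1) .nil) := by
    rw [Tsq.ht_app]; omega
  have e2 : Tsq.sq (app H (lv3' (p + 1) .nil)) = (app H two △ .nil, lv3' p .nil) := by
    rw [Tsq.sq_pre H _ (by omega), sq_three]
    rfl
  have e3 : Tsq.sq (app H (lv3' (p + 1) .nil) △ B) = ((app H two △ .nil) △ lv3' p .nil, B) := by
    rw [Tsq.sq_ge (app_ne h.s0) (by omega), e2]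
  unfold gR
  rw [Tsq.sq_pre _ _ (by rw [Tsq.ht_node]; omega), e3]
  rfl

/-- first maximum of `R` -/
theorem NodeG.ac {q b p : ℕ} {H B : BinaryTree Unit}
    (h : NodeG k q (lv3' b .nil) H (lv3' (p + 1) .nil) B) :
    aa (gR (lv3' b .nil) H (lv3' (p + 1) .nil) B) =
      wd (lv3' b .nil) ++ true :: (wd H ++ [true, true]) ∧
    cc (gR (lv3' b .nil) H (lv3' (p + 1) .nil) B) =
      false :: false :: false :: wd (lv3' p .nil) ∧
    (Tsq.sq (gR (lv3' b .nil) H (lv3' (p + 1) .nil) B)).2 = B ∧
    Tsq.ht (gR (lv3' b .nil) H (lv3' (p + 1) .nil) B) = 4 := by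
  have eB : Tsq.ht B = OddHC.ht B := ht_eq B
  have hb := ht_three b
  have hp := ht_three (p + 1)
  have h2 := h.top
  have hs := h.hs3
  have es : Tsq.ht (lv3' (p + 1) .nil) = OddHC.ht (lv3' (p + 1) .nil) := ht_eq _
  have hH2 := bl_ht h.light
  have e1 : Tsq.ht (app H (lv3' (p + 1) .nil)) = 3 := by
    rw [Tsq.ht_app]; omega
  have e2 : Tsq.sq (app H (lv3' (p + 1) .nil)) = (app H two △ .nil, lv3' p .nil) := by
    rw [Tsq.sq_pre H _ (by omega), sq_three]
    rfl
  have hne := app_ne (P := H) h.s0
  have e4 : Tsq.ht (app H (lv3' (p + 1) .nil) △ B) = 4 := by rw [Tsq.ht_node]; omega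
  obtain ⟨a1, a2⟩ := ac_pre (lv3' b .nil) (app H (lv3' (p + 1) .nil) △ B) (by omega)
  obtain ⟨a3, a4⟩ := ac_pre H (lv3' (p + 1) .nil) (by omega)
  unfold gR
  refine ⟨?_, ?_, ?_, ?_⟩
  · rw [a1, aa_ge hne (by omega), a3, (ac_three p).1]
  · rw [a2, cc_ge hne (by omega), a4, (ac_three p).2, e2]
    rfl
  · exact h.sq.1
  · rw [Tsq.ht_app]; omega

/-- the end of `T (w i)` -/
def Yl (q b : ℕ) (H : BinaryTree Unit) : ℕ → List Bool
  | 0 => false :: false :: (co (wd (ch (q + 1))) ++ true :: true :: false ::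
      (co (wd (lv3' b .nil)) ++ false :: (co (wd H) ++ [false, false])))
  | 1 => false :: true :: (co (wd (ch (q + 1))) ++ false :: true :: false ::
      (co (wd (lv3' b .nil)) ++ false :: (co (wd H) ++ [false, false])))
  | 3 => false :: true :: (co (wd (ch (q + 1))) ++ true :: false :: false ::
      (co (wd (lv3' b .nil)) ++ false :: (co (wd H) ++ [false, false])))
  | 6 => true :: false :: (co (wd (ch (q + 1))) ++ true :: false :: false ::
      (co (wd (lv3' b .nil)) ++ false :: (co (wd H) ++ [false, false])))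
  | 8 => true :: false :: (co (wd (ch (q + 1))) ++ false :: true :: false ::
      (co (wd (lv3' b .nil)) ++ false :: (co (wd H) ++ [false, false])))
  | _ => true :: true :: (co (wd (ch (q + 1))) ++ false :: false :: false ::
      (co (wd (lv3' b .nil)) ++ false :: (co (wd H) ++ [false, false])))

/-- `T (w i)` for windows of height 4 -/
theorem NodeG.TW {q b p : ℕ} {H B : BinaryTree Unit}
    (h : NodeG k q (lv3' b .nil) H (lv3' (p + 1) .nil) B) (w0 : X k) {i : ℕ}
    (hi : i ∈ [0, 1, 3, 6, 8, 9]) :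
    wd (TT (gX q (lv3' b .nil) H (lv3' (p + 1) .nil) B w0 i)).1 =
      true :: true :: true :: (co (wd (lv3' p .nil)) ++ true :: (co (wd B) ++ Yl q b H i)) := by
  obtain ⟨a1, a2, a3, a4⟩ := h.ac
  have hi' : i < 20 := by
    simp only [List.mem_cons, List.not_mem_nil, or_false] at hi
    omega
  have hw := h.word w0 hi'
  have hR : gR (lv3' b .nil) H (lv3' (p + 1) .nil) B ≠ .nil := by unfold gR; exact app_ne (by simp)
  have hbig := h.big
  have hp := ht_three (p + 1)
  have es : Tsq.ht (lv3' (p + 1) .nil) = OddHC.ht (lv3' (p + 1) .nil) := ht_eq _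
  have hQ : Tsq.ht (ch (q + 1)) = q + 1 := by rw [ht_eq, ch_ht]
  have h0 : Tsq.ht (BinaryTree.nil : BinaryTree Unit) = 0 := rfl
  generalize gR (lv3' b .nil) H (lv3' (p + 1) .nil) B = R at *
  have hsq := fun (Z : BinaryTree Unit) (hZ : Tsq.ht Z ≤ 4) => Tsq.sq_app R Z hR (by omega)
  have hac := fun (Z : BinaryTree Unit) (hZ : Tsq.ht Z ≤ 4) => ac_app R Z hR (by omega)
  simp only [List.mem_cons, List.not_mem_nil, or_false] at hi
  have fin : ∀ (x : X k), x.1 ≠ .nil → ∀ l1 l2 l3 : List Bool, cc x.1 = l1 → wd (Tsq.sq x.1).2 = l2 →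
      aa x.1 = l3 → wd (TT x).1 = co l1 ++ true :: (co l2 ++ false :: co l3) := by
    intro x hx l1 l2 l3 e1 e2 e3
    rw [TT_ac x hx, e1, e2, e3]
    rfl
  rcases hi with rfl | rfl | rfl | rfl | rfl | rfl
  · -- 0
    have e : (gX q (lv3' b .nil) H (lv3' (p + 1) .nil) B w0 0).1 = app R ((ch (q + 1) △ .nil) △ .nil) := hw
    have hZ : Tsq.ht ((ch (q + 1) △ .nil) △ .nil) ≤ 4 := by
      rw [Tsq.ht_node, Tsq.ht_node]; omega
    rw [fin _ (by rw [e]; exact app_ne (by simp)) _ _ _ (by rw [e, (hac _ hZ).2, a2])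
      (by rw [e, hsq _ hZ, a3]) (by rw [e, (hac _ hZ).1, a1])]
    simp [co, Yl, wd_app, wd_node, wd_nil]
  · -- 1
    have e : (gX q (lv3' b .nil) H (lv3' (p + 1) .nil) B w0 1).1 =
      app R (.nil △ app (ch (q + 1)) (.nil △ .nil)) := hw
    have hZ : Tsq.ht (.nil △ app (ch (q + 1)) (.nil △ .nil)) ≤ 4 := by
      rw [Tsq.ht_node, Tsq.ht_app, Tsq.ht_node]; omega
    rw [fin _ (by rw [e]; exact app_ne (by simp)) _ _ _ (by rw [e, (hac _ hZ).2, a2])
      (by rw [e, hsq _ hZ, a3]) (by rw [e, (hac _ hZ).1, a1])]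
    simp [co, Yl, wd_app, wd_node, wd_nil]
  · -- 3
    have e : (gX q (lv3' b .nil) H (lv3' (p + 1) .nil) B w0 3).1 =
      app R (.nil △ ch (q + 1)) △ .nil := hw
    have hZ : Tsq.ht (.nil △ ch (q + 1)) ≤ 4 := by
      rw [Tsq.ht_node]; omega
    have hne : app R (.nil △ ch (q + 1)) ≠ .nil := app_ne (by simp)
    rw [fin _ (by rw [e]; simp) _ _ _ (by rw [e, cc_ge hne (by omega), (hac _ hZ).2, a2, hsq _ hZ, a3])
      (by rw [e, Tsq.sq_ge hne (by omega)]) (by rw [e, aa_ge hne (by omega), (hac _ hZ).1, a1])]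
    simp [co, Yl, wd_app, wd_node, wd_nil]
  · -- 6
    have e : (gX q (lv3' b .nil) H (lv3' (p + 1) .nil) B w0 6).1 = R △ (ch (q + 1) △ .nil) := hw
    have hZ : Tsq.ht (ch (q + 1) △ .nil) ≤ Tsq.ht R + 1 := by
      rw [Tsq.ht_node]; omega
    rw [fin _ (by rw [e]; simp) _ _ _ (by rw [e, cc_ge hR hZ, a2, a3])
      (by rw [e, Tsq.sq_ge hR hZ]) (by rw [e, aa_ge hR hZ, a1])]
    simp [co, Yl, wd_app, wd_node, wd_nil]
  · -- 8
    have e : (gX q (lv3' b .nil) H (lv3' (p + 1) .nil) B w0 8).1 =
        app (app (ch (q + 1)) (.nil △ .nil)) (R △ .nil) := by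
      rw [app_assoc]; exact hw
    have hZ : Tsq.ht (app (ch (q + 1)) (.nil △ .nil)) < Tsq.ht (R △ .nil) := by
      rw [Tsq.ht_node, Tsq.ht_app, Tsq.ht_node]; omega
    have h1 : Tsq.ht (BinaryTree.nil : BinaryTree Unit) ≤ Tsq.ht R + 1 := by omega
    obtain ⟨b1, b2⟩ := ac_pre _ _ hZ
    rw [fin _ (by rw [e]; exact app_ne (by simp)) _ _ _ (by rw [e, b2, cc_ge hR h1, a2, a3])
      (by rw [e, Tsq.sq_pre _ _ hZ, Tsq.sq_ge hR h1]) (by rw [e, b1, aa_ge hR h1, a1])]
    simp [co, Yl, wd_app, wd_node, wd_nil]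
  · -- 9
    have e : (gX q (lv3' b .nil) H (lv3' (p + 1) .nil) B w0 9).1 = (R △ .nil) △ ch (q + 1) := hw
    have h1 : Tsq.ht (BinaryTree.nil : BinaryTree Unit) ≤ Tsq.ht R + 1 := by omega
    have hne : R △ .nil ≠ .nil := by simp
    have h2 : Tsq.ht (ch (q + 1)) ≤ Tsq.ht (R △ .nil) + 1 := by rw [Tsq.ht_node]; omega
    rw [fin _ (by rw [e]; simp) _ _ _ (by rw [e, cc_ge hne h2, cc_ge hR h1, a2, Tsq.sq_ge hR h1, a3])
      (by rw [e, Tsq.sq_ge hne h2]) (by rw [e, aa_ge hne h2, aa_ge hR h1, a1])]
    simp [co, Yl, wd_app, wd_node, wd_nil]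

/-! ### Comparison from the left -/

theorem wd_t {t : BinaryTree Unit} (h : t ≠ .nil) : ∃ v, wd t = true :: v := by
  cases t with
  | nil => exact absurd rfl h
  | node u A B => exact ⟨_, rfl⟩

theorem G_t (H : BinaryTree Unit) : ∃ v, wd (app H two) = true :: v := wd_t (app_ne (by simp))

theorem co_hv {B : BinaryTree Unit} (h : hv B) : B = .nil ∨ (∃ B2, hv B2 ∧
    B = two △ B2 ∧ co (wd B) = false :: false :: false :: true :: true :: true :: co (wd B2)) ∨
    ∃ v, co (wd B) = false :: false :: false :: false :: v := by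
  cases B with
  | nil => exact Or.inl rfl
  | node u A C =>
    right
    rcases h.1 with rfl | ⟨h1, h2⟩
    · left
      exact ⟨C, h.2, rfl, by simp [co, wd]⟩
    · right
      obtain ⟨v, hv⟩ := hv_ttt h2 h1
      exact ⟨_, by
        change co (wd (A △ C)) = _
        rw [wd_node, hv]; rfl⟩

/-- the two forms of the marker -/
theorem G_form {H : BinaryTree Unit} (h : bl H = true) (h0 : H ≠ .nil) :
    (∃ v, wd (app H two) = true :: false :: true :: v) ∨
      ∃ v, wd (app H two) = true :: true :: false :: false :: true :: v := by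
  cases H with
  | nil => exact absurd rfl h0
  | node u A X =>
    rw [bl, Bool.and_eq_true] at h
    obtain ⟨v, hv⟩ := G_t X
    rcases light_cases h.1 with rfl | rfl
    · left
      exact ⟨v, by rw [app, wd_node, hv]; rfl⟩
    · right
      exact ⟨v, by rw [app, wd_node, hv]; rfl⟩

theorem bl_cases {H : BinaryTree Unit} (h : bl H = true) : H = .nil ∨
    (∃ H1, bl H1 = true ∧ H = .nil △ H1) ∨ ∃ H1, bl H1 = true ∧ H = (.nil △ .nil) △ H1 := by
  cases H with
  | nil => exact Or.inl rfl
  | node u A X =>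
    rw [bl, Bool.and_eq_true] at h
    rcases light_cases h.1 with rfl | rfl
    · exact Or.inr (Or.inl ⟨X, h.2, rfl⟩)
    · exact Or.inr (Or.inr ⟨X, h.2, rfl⟩)

/-- the end of the lists `Yl` -/
def El (b : ℕ) (H : BinaryTree Unit) : List Bool :=
  co (wd (lv3' b .nil)) ++ false :: (co (wd H) ++ [false, false])

theorem El_ff {b : ℕ} {H : BinaryTree Unit} (h : bl H = true) (h0 : H ≠ .nil) :
    ∃ v, El b H = false :: false :: v := by
  rcases b with _ | b
  · rcases bl_cases h with rfl | ⟨H1, _, rfl⟩ | ⟨H1, _, rfl⟩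
    · exact absurd rfl h0
    · exact ⟨true :: (co (wd H1) ++ [false, false]), by simp [El, co, lv3', wd, wd_node]⟩
    · exact ⟨false :: true :: true :: (co (wd H1) ++ [false, false]),
        by simp [El, co, lv3', wd, wd_node]⟩
  · exact ⟨false :: true :: true :: true :: (co (wd (lv3' b .nil)) ++
      false :: (co (wd H) ++ [false, false])), by unfold El; rw [wd_three]; simp [co]⟩

/-- the list `ff + (left part)` -/
theorem El_no {b b' : ℕ} {H H' : BinaryTree Unit} (h : bl H = true) (h0 : H ≠ .nil) (r : List Bool) :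
    El b H ≠ false :: false :: (wd (lv3' b' .nil) ++ true :: (wd (app H' two) ++ r)) := by
  intro e
  obtain ⟨g, hg⟩ := G_t H'
  rcases b with _ | b
  · rcases bl_cases h with rfl | ⟨H1, h1, rfl⟩ | ⟨H1, _, rfl⟩
    · exact absurd rfl h0
    · rcases b' with _ | b'
      · rw [hg] at e
        rcases bl_cases h1 with rfl | ⟨H2, _, rfl⟩ | ⟨H2, _, rfl⟩ <;>
          simp [El, co, lv3', wd, wd_node] at e
      · rw [wd_three] at e
        rcases bl_cases h1 with rfl | ⟨H2, _, rfl⟩ | ⟨H2, _, rfl⟩ <;>
          simp [El, co, lv3', wd, wd_node] at e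
    · rcases b' with _ | b'
      · simp [El, co, lv3', wd, wd_node] at e
      · rw [wd_three] at e
        simp [El, co, lv3', wd, wd_node] at e
  · unfold El at e
    rw [wd_three] at e
    rcases b' with _ | b'
    · simp [co, lv3', wd] at e
    · rw [wd_three] at e
      simp [co] at e

theorem Yl_eq (q b : ℕ) (H : BinaryTree Unit) :
    Yl q b H 0 = false :: false :: (co (wd (ch (q + 1))) ++ true :: true :: false :: El b H) ∧
    Yl q b H 1 = false :: true :: (co (wd (ch (q + 1))) ++ false :: true :: false :: El b H) ∧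
    Yl q b H 3 = false :: true :: (co (wd (ch (q + 1))) ++ true :: false :: false :: El b H) ∧
    Yl q b H 6 = true :: false :: (co (wd (ch (q + 1))) ++ true :: false :: false :: El b H) ∧
    Yl q b H 8 = true :: false :: (co (wd (ch (q + 1))) ++ false :: true :: false :: El b H) ∧
    Yl q b H 9 = true :: true :: (co (wd (ch (q + 1))) ++ false :: false :: false :: El b H) :=
  ⟨rfl, rfl, rfl, rfl, rfl, rfl⟩

theorem coQ (q : ℕ) (h : q ≤ 1) : (q = 0 ∧ co (wd (ch (q + 1))) = [false, true]) ∨
    (q = 1 ∧ co (wd (ch (q + 1))) = [false, false, true, true]) := by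
  rcases q with _ | _ | q
  · left; exact ⟨rfl, by simp [co, ch, wd]⟩
  · right; exact ⟨rfl, by simp [co, ch, wd]⟩
  · omega

theorem Y1 {q b : ℕ} {H : BinaryTree Unit} (hq : q ≤ 1) {i : ℕ} (hi : i ∈ [0, 1, 3, 6, 8, 9])
    (v : List Bool) : Yl q b H i ≠ false :: false :: true :: v := by
  obtain ⟨e0, e1, e3, e6, e8, e9⟩ := Yl_eq q b H
  simp only [List.mem_cons, List.not_mem_nil, or_false] at hi
  rcases hi with rfl | rfl | rfl | rfl | rfl | rfl
  · rw [e0]
    rcases coQ q hq with ⟨_, h⟩ | ⟨_, h⟩ <;> (rw [h]; simp)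
  · rw [e1]; simp
  · rw [e3]; simp
  · rw [e6]; simp
  · rw [e8]; simp
  · rw [e9]; simp

theorem Y2 {q b b' : ℕ} {H H' : BinaryTree Unit} (h : bl H = true) (h0 : H ≠ .nil)
    (h' : bl H' = true) (h0' : H' ≠ .nil) (hq : q ≤ 1) {i : ℕ}
    (hi : i ∈ [0, 1, 3, 6, 8, 9]) (r : List Bool) :
    Yl q b H i ≠ false :: false :: false :: (wd (lv3' b' .nil) ++ true :: (wd (app H' two) ++ r)) := by
  obtain ⟨e0, e1, e3, e6, e8, e9⟩ := Yl_eq q b H
  obtain ⟨g, hg⟩ := G_t H'
  obtain ⟨v, hE⟩ := El_ff (b := b) h h0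
  simp only [List.mem_cons, List.not_mem_nil, or_false] at hi
  rcases hi with rfl | rfl | rfl | rfl | rfl | rfl
  · rw [e0]
    rcases coQ q hq with ⟨_, h1⟩ | ⟨_, h1⟩
    · rw [h1]
      intro e
      simp only [List.cons_append, List.nil_append, List.cons.injEq, true_and] at e
      rcases b' with _ | b'
      · rcases G_form h' h0' with ⟨w, hw⟩ | ⟨w, hw⟩
        · rw [hw] at e
          simp [lv3', wd] at e
        · rw [hw, hE] at e
          simp [lv3', wd] at e
      · rw [wd_three] at e
        simp only [List.cons_append, List.cons.injEq, true_and] at e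
        exact El_no h h0 r e
    · rw [h1]
      intro e
      rcases b' with _ | b'
      · simp [lv3', wd] at e
      · rw [wd_three] at e
        simp at e
  · rw [e1]; simp
  · rw [e3]; simp
  · rw [e6]; simp
  · rw [e8]; simp
  · rw [e9]; simp

/-- words 13 and 16 -/
theorem pelA {q b : ℕ} {H H' : BinaryTree Unit} (h : bl H = true) (h0 : H ≠ .nil)
    (h' : bl H' = true) (h0' : H' ≠ .nil) (hq : q ≤ 1) {i : ℕ}
    (hi : i ∈ [0, 1, 3, 6, 8, 9]) (r : List Bool) : ∀ (b' : ℕ) (B : BinaryTree Unit), hv B →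
    wd (lv3' b' .nil) ++ true :: (wd (app H' two) ++ r) ≠
      true :: true :: true :: (co (wd B) ++ Yl q b H i) := by
  intro b'
  induction b' with
  | zero =>
    intro B hB e
    rcases G_form h' h0' with ⟨w, hw⟩ | ⟨w, hw⟩
    · rw [hw] at e
      simp [lv3', wd] at e
    · rw [hw] at e
      have e' : co (wd B) ++ Yl q b H i = false :: false :: true :: (w ++ r) := by
        simpa [lv3', wd] using e.symm
      rcases co_hv hB with rfl | ⟨B2, _, _, h2⟩ | ⟨v, h2⟩
      · exact Y1 hq hi _ e'
      · rw [h2] at e'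
        simp at e'
      · rw [h2] at e'
        simp at e'
  | succ b' ih =>
    intro B hB e
    rw [wd_three] at e
    have e' : co (wd B) ++ Yl q b H i = false :: false :: false ::
        (wd (lv3' b' .nil) ++ true :: (wd (app H' two) ++ r)) := by
      simpa using e.symm
    rcases co_hv hB with rfl | ⟨B2, hB2, _, h2⟩ | ⟨v, h2⟩
    · exact Y2 h h0 h' h0' hq hi r e'
    · rw [h2] at e'
      simp only [List.cons_append, List.cons.injEq, true_and] at e'
      exact ih B2 hB2 e'.symm
    · rw [h2] at e'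
      rcases b' with _ | b'
      · simp [lv3', wd] at e'
      · rw [wd_three] at e'
        simp at e'

/-- one step in a list of `()`, `(())` -/
theorem Gs {H' : BinaryTree Unit} (h : bl H' = true) (r l : List Bool)
    (e : wd (app H' two) ++ r = l) : (H' = .nil ∧ l = true :: true :: false :: false :: r) ∨
    (∃ H1 l1, bl H1 = true ∧ H' = .nil △ H1 ∧ l = true :: false :: l1 ∧ wd (app H1 two) ++ r = l1) ∨
    (∃ H1 l1, bl H1 = true ∧ H' = (.nil △ .nil) △ H1 ∧ l = true :: true :: false :: false :: l1 ∧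
      wd (app H1 two) ++ r = l1) := by
  rcases bl_cases h with rfl | ⟨H1, h1, rfl⟩ | ⟨H1, h1, rfl⟩
  · left
    exact ⟨rfl, by rw [← e]; simp [app, wd]⟩
  · right; left
    exact ⟨H1, _, h1, rfl, by rw [← e, app, wd_node]; simp [wd], rfl⟩
  · right; right
    exact ⟨H1, _, h1, rfl, by rw [← e, app, wd_node]; simp [wd], rfl⟩

theorem Gf {H' : BinaryTree Unit} (r l : List Bool) (e : wd (app H' two) ++ r = false :: l) :
    False := by
  obtain ⟨v, hv⟩ := G_t H'
  rw [hv] at e
  simp at e

/-- word 19, `b' ≥ 1` -/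
theorem Y3 {q b b' : ℕ} {H H' : BinaryTree Unit} (h : bl H = true) (h0 : H ≠ .nil)
    (h' : bl H' = true) (h0' : H' ≠ .nil) (hq : q ≤ 1) {i : ℕ}
    (hi : i ∈ [0, 1, 3, 6, 8, 9]) (r : List Bool) : Yl q b H i ≠ true :: false :: false :: false ::
      (wd (lv3' b' .nil) ++ true :: (wd (app H' two) ++ r)) := by
  obtain ⟨e0, e1, e3, e6, e8, e9⟩ := Yl_eq q b H
  obtain ⟨v, hE⟩ := El_ff (b := b) h h0
  simp only [List.mem_cons, List.not_mem_nil, or_false] at hi
  rcases hi with rfl | rfl | rfl | rfl | rfl | rfl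
  · rw [e0]; simp
  · rw [e1]; simp
  · rw [e3]; simp
  · rw [e6]
    rcases coQ q hq with ⟨_, h1⟩ | ⟨_, h1⟩
    · rw [h1]; simp
    · rw [h1, hE]
      intro e
      simp only [List.cons_append, List.nil_append, List.cons.injEq, true_and] at e
      rcases b' with _ | b'
      · have e' : wd (app H' two) ++ r = true :: true :: false :: false :: false :: false :: v := by
          simpa [lv3', wd] using e.symm
        rcases Gs h' r _ e' with ⟨h1, _⟩ | ⟨H1, l1, _, _, h2, _⟩ | ⟨H1, l1, _, _, h2, h3⟩
        · exact h0' h1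
        · simp at h2
        · simp only [List.cons.injEq, true_and] at h2
          rw [← h2] at h3
          exact Gf _ _ h3
      · rw [wd_three] at e
        rcases b' with _ | b'
        · simp [lv3', wd] at e
        · rw [wd_three] at e
          simp at e
  · rw [e8]
    rcases coQ q hq with ⟨_, h1⟩ | ⟨_, h1⟩
    · rw [h1]; simp
    · rw [h1, hE]
      intro e
      simp only [List.cons_append, List.nil_append, List.cons.injEq, true_and] at e
      rcases b' with _ | b'
      · have e' : wd (app H' two) ++ r = true :: false :: true :: false :: false :: false :: v := by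
          simpa [lv3', wd] using e.symm
        rcases Gs h' r _ e' with ⟨h1, _⟩ | ⟨H1, l1, g1, _, h2, h3⟩ | ⟨H1, l1, _, _, h2, h3⟩
        · exact h0' h1
        · simp only [List.cons.injEq, true_and] at h2
          rw [← h2] at h3
          rcases Gs g1 r _ h3 with ⟨_, h4⟩ | ⟨H2, l2, g2, _, h4, h5⟩ | ⟨H2, l2, _, _, h4, _⟩
          · simp at h4
          · simp only [List.cons.injEq, true_and] at h4
            rw [← h4] at h5
            exact Gf _ _ h5
          · simp at h4
        · simp at h2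
      · rw [wd_three] at e
        simp at e
  · rw [e9]; simp

/-- word 19, `b' = 0`: two cases remain -/
theorem Y4 {q b : ℕ} {H H' : BinaryTree Unit} (h : bl H = true) (h0 : H ≠ .nil)
    (h' : bl H' = true) (h0' : H' ≠ .nil) (hq : q ≤ 1) {i : ℕ}
    (hi : i ∈ [0, 1, 3, 6, 8, 9]) (r : List Bool)
    (e : wd (app H' two) ++ r = true :: Yl q b H i) : q = 0 ∧ r = El b H := by
  obtain ⟨e0, e1, e3, e6, e8, e9⟩ := Yl_eq q b H
  obtain ⟨v, hE⟩ := El_ff (b := b) h h0
  simp only [List.mem_cons, List.not_mem_nil, or_false] at hi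
  rcases hi with rfl | rfl | rfl | rfl | rfl | rfl
  · rw [e0] at e
    rcases Gs h' r _ e with ⟨h1, _⟩ | ⟨H1, l1, _, _, h2, h3⟩ | ⟨H1, l1, _, _, h2, h3⟩
    · exact absurd h1 h0'
    · simp only [List.cons.injEq, true_and] at h2
      rw [← h2] at h3
      exact (Gf _ _ h3).elim
    · simp at h2
  · rw [e1] at e
    rcases Gs h' r _ e with ⟨h1, _⟩ | ⟨H1, l1, g1, _, h2, h3⟩ | ⟨H1, l1, _, _, h2, h3⟩
    · exact absurd h1 h0'
    · simp only [List.cons.injEq, true_and] at h2
      rw [← h2] at h3
      rcases coQ q hq with ⟨_, hc⟩ | ⟨_, hc⟩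
      · rw [hc] at h3
        simp only [List.cons_append, List.nil_append] at h3
        rcases Gs g1 r _ h3 with ⟨_, h4⟩ | ⟨H2, l2, g2, _, h4, h5⟩ | ⟨H2, l2, _, _, h4, _⟩
        · simp at h4
        · simp only [List.cons.injEq, true_and] at h4
          rw [← h4] at h5
          rcases Gs g2 r _ h5 with ⟨_, h6⟩ | ⟨H3, l3, g3, _, h6, h7⟩ | ⟨H3, l3, _, _, h6, _⟩
          · simp at h6
          · simp only [List.cons.injEq, true_and] at h6
            rw [← h6] at h7
            rcases Gs g3 r _ h7 with ⟨_, h8⟩ | ⟨H4, l4, g4, _, h8, h9⟩ | ⟨H4, l4, _, _, h8, _⟩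
            · simp at h8
            · simp only [List.cons.injEq, true_and] at h8
              rw [← h8, hE] at h9
              exact (Gf _ _ h9).elim
            · simp at h8
          · simp at h6
        · simp at h4
      · rw [hc] at h3
        simp only [List.cons_append, List.nil_append] at h3
        rcases Gs g1 r _ h3 with ⟨_, h4⟩ | ⟨H2, l2, g2, _, h4, h5⟩ | ⟨H2, l2, _, _, h4, _⟩
        · simp at h4
        · simp only [List.cons.injEq, true_and] at h4
          rw [← h4] at h5
          exact (Gf _ _ h5).elim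
        · simp at h4
    · simp at h2
  · rw [e3] at e
    rcases Gs h' r _ e with ⟨h1, _⟩ | ⟨H1, l1, g1, _, h2, h3⟩ | ⟨H1, l1, _, _, h2, h3⟩
    · exact absurd h1 h0'
    · simp only [List.cons.injEq, true_and] at h2
      rw [← h2] at h3
      rcases coQ q hq with ⟨hq0, hc⟩ | ⟨_, hc⟩
      · rw [hc] at h3
        simp only [List.cons_append, List.nil_append] at h3
        rcases Gs g1 r _ h3 with ⟨_, h4⟩ | ⟨H2, l2, g2, _, h4, h5⟩ | ⟨H2, l2, _, _, h4, _⟩
        · simp at h4
        · simp only [List.cons.injEq, true_and] at h4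
          rw [← h4] at h5
          rcases Gs g2 r _ h5 with ⟨_, h6⟩ | ⟨H3, l3, g3, _, h6, h7⟩ | ⟨H3, l3, g3, _, h6, h7⟩
          · simp only [List.cons.injEq, true_and] at h6
            exact ⟨hq0, h6.symm⟩
          · simp at h6
          · simp only [List.cons.injEq, true_and] at h6
            rw [← h6, hE] at h7
            exact (Gf _ _ h7).elim
        · simp at h4
      · rw [hc] at h3
        simp only [List.cons_append, List.nil_append] at h3
        rcases Gs g1 r _ h3 with ⟨_, h4⟩ | ⟨H2, l2, g2, _, h4, h5⟩ | ⟨H2, l2, _, _, h4, _⟩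
        · simp at h4
        · simp only [List.cons.injEq, true_and] at h4
          rw [← h4] at h5
          exact (Gf _ _ h5).elim
        · simp at h4
    · simp at h2
  · rw [e6] at e
    rcases Gs h' r _ e with ⟨h1, _⟩ | ⟨H1, l1, g1, _, h2, h3⟩ | ⟨H1, l1, g1, _, h2, h3⟩
    · exact absurd h1 h0'
    · simp at h2
    · rcases coQ q hq with ⟨hq0, hc⟩ | ⟨_, hc⟩
      · rw [hc] at h2
        simp only [List.cons_append, List.nil_append, List.cons.injEq, true_and] at h2
        rw [← h2] at h3
        rcases Gs g1 r _ h3 with ⟨_, h4⟩ | ⟨H2, l2, g2, _, h4, h5⟩ | ⟨H2, l2, g2, _, h4, h5⟩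
        · simp only [List.cons.injEq, true_and] at h4
          exact ⟨hq0, h4.symm⟩
        · simp at h4
        · simp only [List.cons.injEq, true_and] at h4
          rw [← h4, hE] at h5
          exact (Gf _ _ h5).elim
      · rw [hc] at h2
        simp only [List.cons_append, List.nil_append, List.cons.injEq, true_and] at h2
        rw [← h2] at h3
        exact (Gf _ _ h3).elim
  · rw [e8] at e
    rcases Gs h' r _ e with ⟨h1, _⟩ | ⟨H1, l1, g1, _, h2, h3⟩ | ⟨H1, l1, g1, _, h2, h3⟩
    · exact absurd h1 h0'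
    · simp at h2
    · rcases coQ q hq with ⟨hq0, hc⟩ | ⟨_, hc⟩
      · rw [hc] at h2
        simp only [List.cons_append, List.nil_append, List.cons.injEq, true_and] at h2
        rw [← h2] at h3
        rcases Gs g1 r _ h3 with ⟨_, h4⟩ | ⟨H2, l2, g2, _, h4, h5⟩ | ⟨H2, l2, g2, _, h4, h5⟩
        · simp at h4
        · simp only [List.cons.injEq, true_and] at h4
          rw [← h4] at h5
          rcases Gs g2 r _ h5 with ⟨_, h6⟩ | ⟨H3, l3, g3, _, h6, h7⟩ | ⟨H3, l3, _, _, h6, _⟩
          · simp at h6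
          · simp only [List.cons.injEq, true_and] at h6
            rw [← h6, hE] at h7
            exact (Gf _ _ h7).elim
          · simp at h6
        · simp at h4
      · rw [hc] at h2
        simp only [List.cons_append, List.nil_append, List.cons.injEq, true_and] at h2
        rw [← h2] at h3
        exact (Gf _ _ h3).elim
  · rw [e9] at e
    rcases Gs h' r _ e with ⟨h1, _⟩ | ⟨H1, l1, g1, _, h2, h3⟩ | ⟨H1, l1, g1, _, h2, h3⟩
    · exact absurd h1 h0'
    · simp at h2
    · simp at h2

/-- the last step: `H = ()(())`, `b = 0` -/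
theorem El_end {b p' q' : ℕ} {H B' : BinaryTree Unit} (h : bl H = true) (h0 : H ≠ .nil)
    (hq : q' ≤ 1) (hB : hv B')
    (e : false :: false :: (wd (lv3' p' .nil) ++ true :: (wd B' ++ false :: false ::
      wd (ch (q' + 1)))) = El b H) : b = 0 ∧ H = .nil △ ((.nil △ .nil) △ .nil) := by
  rcases b with _ | b
  · rcases bl_cases h with rfl | ⟨H1, h1, rfl⟩ | ⟨H1, h1, rfl⟩
    · exact absurd rfl h0
    · rcases p' with _ | p'
      · cases B' with
        | nil =>
          rcases bl_cases h1 with rfl | ⟨H2, h2, rfl⟩ | ⟨H2, h2, rfl⟩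
          · exfalso
            rcases q' with _ | _ | q'
            · simp [El, co, lv3', wd, wd_node, ch] at e
            · simp [El, co, lv3', wd, wd_node, ch] at e
            · omega
          · exfalso
            simp [El, co, lv3', wd, wd_node] at e
          · rcases q' with _ | _ | q'
            · exfalso
              simp [El, co, lv3', wd, wd_node, ch] at e
            · have e' : co (wd H2) ++ [false, false] = [false, false] := by
                simpa [El, co, lv3', wd, wd_node, ch] using e.symm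
              have e'' := congrArg List.length e'
              simp only [List.length_append, co, List.length_map, List.length_cons,
                List.length_nil] at e''
              cases H2 with
              | nil => exact ⟨rfl, rfl⟩
              | node u A C =>
                exfalso
                change (wd (A △ C)).length + _ = _ at e''
                rw [wd_node] at e''
                simp at e''
            · omega
        | node u A C =>
          exfalso
          have e2 : wd (BinaryTree.node u A C) = true :: (wd A ++ false :: wd C) := rfl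
          rw [e2] at e
          rcases bl_cases h1 with rfl | ⟨H2, h2, rfl⟩ | ⟨H2, h2, rfl⟩ <;>
            simp [El, co, lv3', wd, wd_node] at e
      · exfalso
        rw [wd_three] at e
        rcases bl_cases h1 with rfl | ⟨H2, h2, rfl⟩ | ⟨H2, h2, rfl⟩ <;>
          simp [El, co, lv3', wd, wd_node] at e
    · exfalso
      rcases p' with _ | p'
      · simp [El, co, lv3', wd, wd_node] at e
      · rw [wd_three] at e
        simp [El, co, lv3', wd, wd_node] at e
  · exfalso
    unfold El at e
    rw [wd_three] at e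
    rcases p' with _ | p'
    · simp [co, lv3', wd] at e
    · rw [wd_three] at e
      simp [co] at e

/-- **the corner**: inner words against the words 13, 16, 18, 19 of windows of height 4 -/
theorem NodeG.low4 {q : ℕ} {B1 H s B : BinaryTree Unit} (h : NodeG k q B1 H s B) {q' : ℕ}
    {B1' H' s' B' : BinaryTree Unit} (h' : NodeG k q' B1' H' s' B') (w0 : X k) (hk : 11 ≤ k)
    (h3 : OddHC.ht s ≤ 3) (h3' : OddHC.ht s' ≤ 3) {i j : ℕ} (hi : i ∈ [0, 1, 3, 6, 8, 9])
    (hj : j ∈ [13, 16, 18, 19]) : TT (gX q B1 H s B w0 i) ≠ gX q' B1' H' s' B' w0 j := by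
  intro e0
  obtain ⟨b, p, rfl, rfl, -⟩ := h.four h3
  obtain ⟨b', p', rfl, rfl, hS⟩ := h'.four h3'
  have e : wd (TT (gX q (lv3' b .nil) H (lv3' (p + 1) .nil) B w0 i)).1 =
      wd (gX q' (lv3' b' .nil) H' (lv3' (p' + 1) .nil) B' w0 j).1 := congrArg (fun x : X k => wd x.1) e0
  have hj' : j < 20 := by
    simp only [List.mem_cons, List.not_mem_nil, or_false] at hj
    omega
  rw [h.TW w0 hi, h'.word w0 hj', hS] at e
  have hq := h.big
  have hq' := h'.big
  have hq1 : q ≤ 1 := by omega
  have hq1' : q' ≤ 1 := by omega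
  have hwS : wd (S4 b' H' p') = true :: (wd (lv3' b' .nil) ++ true :: (wd (app H' two) ++
      false :: false :: wd (lv3' p' .nil))) := by
    rw [S4, wd_node, wd_app, wd_node]
    simp [wd]
  have A1 : ∀ r : List Bool, true :: true :: true :: (co (wd (lv3' p .nil)) ++
      true :: (co (wd B) ++ Yl q b H i)) ≠
      true :: (wd (lv3' b' .nil) ++ true :: (wd (app H' two) ++ r)) := by
    intro r e1
    simp only [List.cons.injEq, true_and] at e1
    rcases p with _ | p
    · exact pelA h.light h.H0 h'.light h'.H0 hq1 hi r b' B h.hB (by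
        simpa [lv3', wd, co] using e1.symm)
    · rw [wd_three] at e1
      rcases b' with _ | b'
      · rcases G_form h'.light h'.H0 with ⟨w, hw⟩ | ⟨w, hw⟩
        · rw [hw] at e1
          simp [lv3', wd, co] at e1
        · rw [hw] at e1
          simp [lv3', wd, co] at e1
      · rw [wd_three] at e1
        simp [co] at e1
  simp only [List.mem_cons, List.not_mem_nil, or_false] at hj
  rcases hj with rfl | rfl | rfl | rfl
  · have e1 : W (gR (lv3' b' .nil) H' (lv3' (p' + 1) .nil) B') (ch (q' + 1)) B' (S4 b' H' p') 13 =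
        app (S4 b' H' p') (app B' (.nil △ ch (q' + 1)) △ .nil) := rfl
    rw [e1, wd_app, hwS] at e
    exact A1 _ (e.trans (by simp only [List.cons_append, List.append_assoc]; rfl))
  · have e1 : W (gR (lv3' b' .nil) H' (lv3' (p' + 1) .nil) B') (ch (q' + 1)) B' (S4 b' H' p') 16 =
        app (S4 b' H' p') (B' △ (ch (q' + 1) △ .nil)) := rfl
    rw [e1, wd_app, hwS] at e
    exact A1 _ (e.trans (by simp only [List.cons_append, List.append_assoc]; rfl))
  · have e1 : W (gR (lv3' b' .nil) H' (lv3' (p' + 1) .nil) B') (ch (q' + 1)) B' (S4 b' H' p') 18 =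
        app (ch (q' + 1)) (.nil △ app (S4 b' H' p') (B' △ .nil)) := rfl
    rw [e1, wd_app] at e
    rcases q' with _ | _ | q'
    · simp [ch, wd] at e
    · simp [ch, wd] at e
    · omega
  · have e1 : W (gR (lv3' b' .nil) H' (lv3' (p' + 1) .nil) B') (ch (q' + 1)) B' (S4 b' H' p') 19 =
        app (S4 b' H' p') (B' △ .nil) △ ch (q' + 1) := rfl
    rw [e1, wd_node, wd_app, hwS, wd_node] at e
    have e2 : true :: (co (wd (lv3' p .nil)) ++ true :: (co (wd B) ++ Yl q b H i)) =
        wd (lv3' b' .nil) ++ true :: (wd (app H' two) ++ false :: false :: (wd (lv3' p' .nil) ++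
          true :: (wd B' ++ false :: false :: wd (ch (q' + 1))))) := by
      simpa [wd] using e
    rcases p with _ | p
    · rcases b' with _ | b'
      · have e3 : wd (app H' two) ++ false :: false :: (wd (lv3' p' .nil) ++
          true :: (wd B' ++ false :: false :: wd (ch (q' + 1)))) =
            true :: (co (wd B) ++ Yl q b H i) := by
          simpa [lv3', wd, co] using e2.symm
        rcases co_hv h.hB with rfl | ⟨B2, _, _, h2⟩ | ⟨v, h2⟩
        · obtain ⟨rfl, h4⟩ := Y4 h.light h.H0 h'.light h'.H0 hq1 hi _ e3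
          obtain ⟨rfl, rfl⟩ := El_end h.light h.H0 hq1' h'.hB h4
          have h5 := h.size
          simp [gR, app, lv3', BinaryTree.numNodes] at h5
          omega
        · rw [h2] at e3
          rcases G_form h'.light h'.H0 with ⟨w, hw⟩ | ⟨w, hw⟩
          · rw [hw] at e3
            simp at e3
          · rw [hw] at e3
            simp at e3
        · rw [h2] at e3
          rcases G_form h'.light h'.H0 with ⟨w, hw⟩ | ⟨w, hw⟩
          · rw [hw] at e3
            simp at e3
          · rw [hw] at e3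
            simp at e3
      · rw [wd_three] at e2
        have e3 : co (wd B) ++ Yl q b H i = true :: false :: false :: false ::
            (wd (lv3' b' .nil) ++ true :: (wd (app H' two) ++ false :: false ::
              (wd (lv3' p' .nil) ++ true :: (wd B' ++ false :: false :: wd (ch (q' + 1)))))) := by
          simpa [lv3', wd, co] using e2
        rcases co_hv h.hB with rfl | ⟨B2, _, _, h2⟩ | ⟨v, h2⟩
        · exact Y3 h.light h.H0 h'.light h'.H0 hq1 hi _ e3
        · rw [h2] at e3
          simp at e3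
        · rw [h2] at e3
          simp at e3
    · rw [wd_three] at e2
      rcases b' with _ | b'
      · obtain ⟨v, hv⟩ := G_t H'
        rw [hv] at e2
        simp [lv3', wd, co] at e2
      · rw [wd_three] at e2
        simp [co] at e2

/-- **the inner words of the links of a node are not words of nodes of the same or a larger height** (`k ≥ 11`) -/
theorem NodeG.inner_all {q : ℕ} {B1 H s B : BinaryTree Unit} (h : NodeG k q B1 H s B) {q' : ℕ}
    {B1' H' s' B' : BinaryTree Unit} (h' : NodeG k q' B1' H' s' B') (w0 : X k) (hk : 11 ≤ k)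
    (hh : 4 ≤ OddHC.ht s' ∨ OddHC.ht s ≤ OddHC.ht s') {i j : ℕ} (hi : i ∈ [0, 1, 3, 6, 8, 9])
    (hj : j < 20) : TT (gX q B1 H s B w0 i) ≠ gX q' B1' H' s' B' w0 j := by
  rcases le_or_gt 4 (OddHC.ht s') with h4 | h4
  · exact h.inner h' w0 hi hj (Or.inl h4)
  · by_cases h5 : j ∈ [13, 16, 18, 19]
    · exact h.low4 h' w0 hk (by omega) (by omega) hi h5
    · exact h.inner h' w0 hi hj (Or.inr h5)

end H1

end Pool.OddHC
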