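import Pool.Agent.Work.MP_8f87b2_h71.H1Gad

/-!
MP_8f87b2_co, rule H1: the inner words `T (w i)`, `i = 0, 1, 3, 6, 8, 9`, of the links are not words of nodes.
A FLAG is a factor `1 0 111` or `11 00 111`. `T (w i)` has no flag; the words with `R` (`i < 10`) have a flag;
`10, 11, 12, 14, 15, 17` are `T²` of words with a flag; the other words have a flag if the height is at least 5.
-/

namespace Pool.OddHC

namespace H1

open BinaryTree Equiv

variable {k : ℕ}

/-! ### The automaton -/

/-- states: the longest suffix which begins a forbidden factor `0 1 000` or `00 11 000` -/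
inductive St
  | e | z | zz | zu | zzu | zuz | zuzz | zzuu | zzuuz | zzuuzz | dead
  deriving DecidableEq

open St in
def stp : St → Bool → St
  | e, false => z
  | e, true => e
  | z, false => zz
  | z, true => zu
  | zz, false => zz
  | zz, true => zzu
  | zu, false => zuz
  | zu, true => e
  | zzu, false => zuz
  | zzu, true => zzuu
  | zuz, false => zuzz
  | zuz, true => zu
  | zuzz, false => dead
  | zuzz, true => zzu
  | zzuu, false => zzuuz
  | zzuu, true => e
  | zzuuz, false => zzuuzz
  | zzuuz, true => zu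
  | zzuuzz, false => dead
  | zzuuzz, true => zzu
  | dead, _ => dead

def run (s : St) (l : List Bool) : St := l.foldl stp s

theorem run_nil (s : St) : run s [] = s := rfl

theorem run_cons (s : St) (b : Bool) (l : List Bool) : run s (b :: l) = run (stp s b) l := rfl

theorem run_append (s : St) (l l' : List Bool) : run s (l ++ l') = run (run s l) l' := by
  unfold run
  rw [List.foldl_append]

theorem run_dead (l : List Bool) : run .dead l = .dead := by
  induction l with
  | nil => rfl
  | cons b l ih => rw [run_cons]; exact ih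

theorem stp_true {s : St} (h : s ≠ .dead) : stp s true ≠ .dead := by
  cases s <;> first | (exact absurd rfl h) | (intro h2; cases h2)

/-- forbidden factors -/
def bad (l : List Bool) : Prop :=
  [false, true, false, false, false] <:+: l ∨ [false, false, true, true, false, false, false] <:+: l

theorem bad_dead {l : List Bool} (h : bad l) (s : St) : run s l = .dead := by
  rcases h with ⟨u, v, rfl⟩ | ⟨u, v, rfl⟩
  · rw [run_append, run_append]
    have : run (run s u) [false, true, false, false, false] = .dead := by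
      cases run s u <;> rfl
    rw [this, run_dead]
  · rw [run_append, run_append]
    have : run (run s u) [false, false, true, true, false, false, false] = .dead := by
      cases run s u <;> rfl
    rw [this, run_dead]

theorem run_node (s : St) (A C : BinaryTree Unit) :
    run s (wd (A △ C)) = run (stp (run (stp s true) (wd A)) false) (wd C) := by
  rw [wd_node, run_cons, run_append, run_cons]

/-- heavy trees -/
theorem run_hv {t : BinaryTree Unit} : hv t → t ≠ .nil → ∀ s : St, s ≠ .dead → run s (wd t) = .zz := by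
  induction t with
  | nil => intro _ h; exact absurd rfl h
  | node _ A C ihA ihC =>
    intro h _ s hs
    have e1 : stp (run (stp s true) (wd A)) false = .zz := by
      rcases h.1 with rfl | ⟨h1, h2⟩
      · cases s <;> first | (exact absurd rfl hs) | rfl
      · rw [ihA h2 h1 _ (stp_true hs)]
        rfl
    change run s (wd (A △ C)) = _
    rw [run_node, e1]
    by_cases hC : C = .nil
    · subst hC; rfl
    · exact ihC h.2 hC .zz (by intro h; cases h)

theorem run_hv_zz {t : BinaryTree Unit} (h : hv t) : run .zz (wd t) = .zz := by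
  by_cases h0 : t = .nil
  · subst h0; rfl
  · exact run_hv h h0 _ (by intro h; cases h)

theorem run_hv_nd {t : BinaryTree Unit} (h : hv t) {s : St} (hs : s ≠ .dead) :
    run s (wd t) ≠ .dead := by
  by_cases h0 : t = .nil
  · subst h0; exact hs
  · rw [run_hv h h0 s hs]; intro h; cases h

/-- light lists -/
theorem run_bl {H : BinaryTree Unit} : bl H = true → ∀ s : St, s ≠ .dead → run s (wd H) ≠ .dead := by
  induction H with
  | nil => intro _ s hs; exact hs
  | node _ A X _ ih =>
    intro h s hs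
    rw [bl, Bool.and_eq_true] at h
    change run s (wd (A △ X)) ≠ _
    rw [run_node]
    apply ih h.2
    rcases light_cases h.1 with rfl | rfl
    · cases s <;> first | (exact absurd rfl hs) | (intro h2; cases h2)
    · cases s <;> first | (exact absurd rfl hs) | (intro h2; cases h2)

/-! ### The words -/

theorem hv_ch (n : ℕ) : hv (ch (n + 3)) := by
  induction n with
  | zero => exact ⟨Or.inl rfl, trivial⟩
  | succ n ih => exact ⟨Or.inr ⟨by rw [ch]; simp, ih⟩, trivial⟩

theorem ch_ne (n : ℕ) : ch (n + 1) ≠ .nil := by rw [ch]; simp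

theorem run_ch_nd (n : ℕ) {s : St} (hs : s ≠ .dead) : run s (wd (ch n)) ≠ .dead := by
  rcases n with _ | _ | _ | n
  · exact hs
  · exact run_bl (H := ch 1) rfl s hs
  · exact run_bl (H := ch 2) rfl s hs
  · exact run_hv_nd (hv_ch n) hs

/-- `R` -/
theorem run_R {B1 H s B : BinaryTree Unit} (h1 : hv B1) (hH : bl H = true) (hs : hv s)
    (hs0 : s ≠ .nil) (hB : hv B) {σ : St} (hσ : σ ≠ .dead) :
    run σ (wd (app B1 (app H s △ B))) = .zz := by
  rw [wd_app, run_append, run_node, wd_app, run_append,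
    run_hv hs hs0 _ (run_bl hH _ (stp_true (run_hv_nd h1 hσ)))]
  exact run_hv_zz hB

theorem run_W {R B S : BinaryTree Unit} (hR : ∀ σ : St, σ ≠ .dead → run σ (wd R) = .zz) (q : ℕ) :
    ∀ i ∈ [0, 1, 3, 6, 8, 9], ∀ σ : St, σ ≠ .dead → run σ (wd (W R (ch (q + 1)) B S i)) ≠ .dead := by
  intro i hi σ hσ
  have nd1 : St.zz ≠ .dead := by intro h; cases h
  have nd2 : St.zuz ≠ .dead := by intro h; cases h
  have bd : ∀ σ : St, σ ≠ .dead → ∀ t : BinaryTree Unit,
      run σ (wd (.nil △ t)) = run (run σ [true, false]) (wd t) := by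
    intro σ _ t
    rw [run_node]; rfl
  have bd1 : ∀ σ : St, σ ≠ .dead → run σ [true, false] ≠ .dead := by
    intro σ hσ
    cases σ <;> first | (exact absurd rfl hσ) | (intro h2; cases h2)
  simp only [List.mem_cons, List.not_mem_nil, or_false] at hi
  rcases hi with rfl | rfl | rfl | rfl | rfl | rfl
  · have e : W R (ch (q + 1)) B S 0 = app R (ch (q + 3)) := rfl
    rw [e, wd_app, run_append, hR σ hσ]
    exact run_ch_nd _ nd1
  · have e : W R (ch (q + 1)) B S 1 = app R (.nil △ app (ch (q + 1)) (.nil △ .nil)) := rfl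
    rw [e, wd_app, run_append, hR σ hσ, bd _ nd1, wd_app, run_append]
    exact run_bl (H := .nil △ .nil) rfl _ (run_ch_nd _ (bd1 _ nd1))
  · have e : W R (ch (q + 1)) B S 3 = app R (.nil △ ch (q + 1)) △ .nil := rfl
    rw [e, run_node, wd_app, run_append, hR _ (stp_true hσ), bd _ nd1]
    change stp (run St.zuz (wd (ch (q + 1)))) false ≠ _
    rcases q with _ | _ | q
    · intro h; cases h
    · intro h; cases h
    · rw [run_hv (hv_ch q) (ch_ne _) _ nd2]
      intro h; cases h
  · have e : W R (ch (q + 1)) B S 6 = R △ ch (q + 2) := rfl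
    rw [e, run_node, hR _ (stp_true hσ)]
    exact run_ch_nd _ nd1
  · have e : W R (ch (q + 1)) B S 8 = app (ch (q + 1)) (.nil △ (R △ .nil)) := rfl
    rw [e, wd_app, run_append, bd _ (run_ch_nd _ hσ), run_node,
      hR _ (stp_true (bd1 _ (run_ch_nd _ hσ)))]
    intro h; cases h
  · have e : W R (ch (q + 1)) B S 9 = (R △ .nil) △ ch (q + 1) := rfl
    rw [e, run_node, run_node, hR _ (stp_true (stp_true hσ))]
    exact run_ch_nd _ nd1

/-! ### Flags -/

/-- `1 0 111` or `11 00 111` -/
def flag (l : List Bool) : Prop :=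
  [true, false, true, true, true] <:+: l ∨ [true, true, false, false, true, true, true] <:+: l

/-- a flag of `T w` is a forbidden factor of `w 1 w` -/
theorem flag_TT (x : X k) (hx : x.1 ≠ .nil) (h : flag (wd (TT x).1)) :
    bad (wd x.1 ++ true :: wd x.1) := by
  obtain ⟨a, b, h1, h2⟩ := Tsq.TT_dec x hx
  have e1 : wd (TT x).1 = (b ++ true :: a).map not := by rw [h2]; simp
  have e2 : (b ++ true :: a) <:+: (wd x.1 ++ true :: wd x.1) := by
    rw [h1]
    exact ⟨a ++ [true], true :: b, by simp⟩
  have key : ∀ l : List Bool, l <:+: wd (TT x).1 → l.map not <:+: (wd x.1 ++ true :: wd x.1) := by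
    intro l hl
    rw [e1] at hl
    have h3 := hl.map not
    rw [List.map_map] at h3
    have h4 : ((not ∘ not) : Bool → Bool) = id := by
      funext b; simp
    rw [h4, List.map_id] at h3
    exact h3.trans e2
  rcases h with h | h
  · exact Or.inl (key _ h)
  · exact Or.inr (key _ h)

/-- `T (w i)` has no flag -/
theorem noflag {R B S : BinaryTree Unit} (hR : ∀ σ : St, σ ≠ .dead → run σ (wd R) = .zz) {q : ℕ}
    {i : ℕ} (hi : i ∈ [0, 1, 3, 6, 8, 9]) (x : X k) (hx : x.1 = W R (ch (q + 1)) B S i) :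
    ¬ flag (wd (TT x).1) := by
  intro h
  have hn : x.1 ≠ .nil := by
    rw [hx]
    simp only [List.mem_cons, List.not_mem_nil, or_false] at hi
    rcases hi with rfl | rfl | rfl | rfl | rfl | rfl
    · exact app_ne (by simp)
    · exact app_ne (by simp)
    · simp [W]
    · simp [W]
    · exact app_ne (by simp)
    · simp [W]
  have h1 := bad_dead (flag_TT x hn h) .e
  rw [run_append, run_cons, hx] at h1
  have nd : St.e ≠ .dead := by intro h; cases h
  exact run_W hR q i hi _ (stp_true (run_W hR q i hi _ nd)) h1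

/-- flags of trees -/
def pf (t : BinaryTree Unit) : Prop := flag (wd t)

theorem flag_mono {l l' : List Bool} (h : l <:+: l') (hl : flag l) : flag l' := by
  rcases hl with hl | hl
  · exact Or.inl (hl.trans h)
  · exact Or.inr (hl.trans h)

theorem pf_l {A C : BinaryTree Unit} (h : pf A) : pf (A △ C) := by
  refine flag_mono ?_ h
  rw [wd_node]
  exact ⟨[true], false :: wd C, by simp⟩

theorem pf_r {A C : BinaryTree Unit} (h : pf C) : pf (A △ C) := by
  refine flag_mono ?_ h
  rw [wd_node]
  exact ⟨true :: (wd A ++ [false]), [], by simp⟩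

theorem pf_al {A C : BinaryTree Unit} (h : pf A) : pf (app A C) := by
  refine flag_mono ?_ h
  rw [wd_app]
  exact ⟨[], wd C, by simp⟩

theorem pf_ar {A C : BinaryTree Unit} (h : pf C) : pf (app A C) := by
  refine flag_mono ?_ h
  rw [wd_app]
  exact ⟨wd A, [], by simp⟩

theorem pf_light {A X : BinaryTree Unit} (h : light A = true)
    (hX : ∃ v, wd X = true :: true :: true :: v) : pf (A △ X) := by
  obtain ⟨v, hv⟩ := hX
  rcases light_cases h with rfl | rfl
  · left
    rw [wd_node, hv]
    exact ⟨[], v, by simp [wd]⟩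
  · right
    rw [wd_node, hv]
    exact ⟨[], v, by simp [wd]⟩

theorem pf_H {H X : BinaryTree Unit} (h : bl H = true) (h0 : H ≠ .nil)
    (hX : ∃ v, wd X = true :: true :: true :: v) : pf (app H X) := by
  induction H with
  | nil => exact absurd rfl h0
  | node _ A H' _ ih =>
    rw [bl, Bool.and_eq_true] at h
    rw [app]
    by_cases hn : H' = .nil
    · subst hn
      exact pf_light h.1 hX
    · exact pf_r (ih h.2 hn)

/-- the words with `R` -/
theorem pf_lo {R B S Q : BinaryTree Unit} (h : pf R) : ∀ i < 10, pf (W R Q B S i) := by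
  intro i hi
  interval_cases i
  · exact pf_al h
  · exact pf_al h
  · exact pf_r (pf_al h)
  · exact pf_l (pf_al h)
  · exact pf_r h
  · exact pf_r (pf_r h)
  · exact pf_l h
  · exact pf_ar (pf_l (pf_r h))
  · exact pf_ar (pf_r (pf_l h))
  · exact pf_l (pf_l h)

/-- the words with `S` -/
theorem pf_hi {R B S Q : BinaryTree Unit} (h : pf S) : ∀ i, 10 ≤ i → i < 20 → pf (W R Q B S i) := by
  intro i h1 h2
  interval_cases i
  · exact pf_ar (pf_r h)
  · exact pf_ar (pf_r (pf_ar (pf_r h)))
  · exact pf_l h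
  · exact pf_al h
  · exact pf_l (pf_ar (pf_r h))
  · exact pf_r (pf_l h)
  · exact pf_al h
  · exact pf_ar (pf_l (pf_l h))
  · exact pf_ar (pf_r (pf_al h))
  · exact pf_l (pf_al h)

theorem hv_ttt {t : BinaryTree Unit} : hv t → t ≠ .nil → ∃ v, wd t = true :: true :: true :: v := by
  induction t with
  | nil => intro _ h; exact absurd rfl h
  | node _ A C ihA _ =>
    intro h _
    change ∃ v, wd (A △ C) = _
    rw [wd_node]
    rcases h.1 with rfl | ⟨h1, h2⟩
    · exact ⟨_, by simp [wd]; rfl⟩
    · obtain ⟨v, hv⟩ := ihA h2 h1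
      rw [hv]
      exact ⟨_, rfl⟩

theorem gd_tt {A : BinaryTree Unit} (h : gd A) : ∃ v, wd A = true :: true :: v := by
  rcases h with rfl | ⟨h1, h2⟩
  · exact ⟨_, by simp [wd]; rfl⟩
  · obtain ⟨v, hv⟩ := hv_ttt h2 h1
    exact ⟨_, hv⟩

theorem sq_ttt : ∀ {s : BinaryTree Unit}, hv s → s ≠ .nil →
    ∃ X Y, (Tsq.sq s).1 = X △ Y ∧ (∃ v, wd X = true :: true :: v) ∧
      (4 ≤ Tsq.ht s → ∃ v, wd X = true :: true :: true :: v) := by
  intro s
  induction s with
  | nil => intro _ h; exact absurd rfl h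
  | node u A C ihA ihC =>
    intro h _
    obtain ⟨hA, hC⟩ := h
    have hA0 := gd_ne hA
    by_cases hlt : Tsq.ht A + 1 < Tsq.ht C
    · have hC0 : C ≠ .nil := by
        rintro rfl
        rw [Tsq.ht] at hlt
        omega
      obtain ⟨X, Y, g, _, _⟩ := ihC hC hC0
      have e := Tsq.sq_lt hlt g
      obtain ⟨v, hv⟩ := gd_tt hA
      refine ⟨A △ X, Y, ?_, ?_, ?_⟩
      · change (Tsq.sq (A △ C)).1 = _
        rw [e]
      · rw [wd_node, hv]; exact ⟨_, rfl⟩
      · intro _
        rw [wd_node, hv]; exact ⟨_, rfl⟩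
    · push Not at hlt
      have e := Tsq.sq_ge hA0 hlt
      rcases hA with rfl | ⟨h1, h2⟩
      · refine ⟨(.nil △ .nil) △ .nil, .nil, ?_, ⟨_, by simp [wd]; rfl⟩, ?_⟩
        · change (Tsq.sq (((.nil △ .nil) △ .nil) △ C)).1 = _
          rw [e, sq_two]
        · intro h4
          exfalso
          have e1 : Tsq.ht (BinaryTree.node u ((.nil △ .nil) △ .nil) C) =
              max (Tsq.ht ((.nil △ .nil) △ .nil) + 1) (Tsq.ht C) := rfl
          have e2 : Tsq.ht (((.nil : BinaryTree Unit) △ .nil) △ .nil) = 2 := rfl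
          rw [e1, e2] at h4
          rw [e2] at hlt
          omega
      · obtain ⟨X, Y, g, ⟨v, hv⟩, _⟩ := ihA h2 h1
        refine ⟨(Tsq.sq A).1, (Tsq.sq A).2, ?_, ?_, ?_⟩
        · change (Tsq.sq (A △ C)).1 = _
          rw [e]
        · rw [g, wd_node, hv]; exact ⟨_, rfl⟩
        · intro _
          rw [g, wd_node, hv]; exact ⟨_, rfl⟩

/-! ### Nodes -/

variable {q a m : ℕ} {R0 B1 s B : BinaryTree Unit}

theorem NodeA.parts (h : NodeA k q a m R0 B1 s B) : hv B1 ∧ hv s ∧ s ≠ .nil ∧ hv B := by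
  have g := hv_of_cont h.part3
  rw [h.tall.eq, hv_app, hv_node] at g
  obtain ⟨g1, g2, g3⟩ := g
  have t1 := h.tall.top
  have h4 := h.four
  rcases g2 with rfl | g2
  · exfalso
    have e : OddHC.ht (((.nil : BinaryTree Unit) △ .nil) △ .nil) = 2 := rfl
    omega
  · exact ⟨g1, g2.2, g2.1, g3⟩

theorem NodeA.run (h : NodeA k q a m R0 B1 s B) : ∀ σ : St, σ ≠ .dead →
    run σ (wd (nR B1 s B a m)) = .zz := by
  intro σ hσ
  obtain ⟨h1, h2, h3, h4⟩ := h.parts
  rw [nR_eq]
  exact run_R h1 (bl_H a m) h2 h3 h4 hσ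

theorem NodeA.pfR (h : NodeA k q a m R0 B1 s B) : pf (nR B1 s B a m) := by
  obtain ⟨h1, h2, h3, h4⟩ := h.parts
  rw [nR_eq]
  exact pf_ar (pf_l (pf_H (bl_H a m) (H_ne h.pos) (hv_ttt h2 h3)))

theorem NodeA.pfS (h : NodeA k q a m R0 B1 s B) (h5 : 5 ≤ OddHC.ht R0) :
    pf (Tsq.sq (nR B1 s B a m)).1 := by
  obtain ⟨h1, h2, h3, h4⟩ := h.parts
  have t1 := h.tall.top
  have t2 := h.tall.low
  have t3 : OddHC.ht B ≤ OddHC.ht R0 := by
    rw [h.tall.eq, ht_app, ht_node]
    omega
  have hs3 := hv_ht h2 h3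
  have es : Tsq.ht s = OddHC.ht s := ht_eq s
  have eB : Tsq.ht B = OddHC.ht B := ht_eq B
  have eB1 : Tsq.ht B1 = OddHC.ht B1 := ht_eq B1
  have hH2 := bl_ht (bl_H a m)
  obtain ⟨X, Y, g, _, g2⟩ := sq_ttt h2 h3
  have e1 : Tsq.ht (app (lv m (lv2 a .nil)) s) = Tsq.ht s := by rw [Tsq.ht_app]; omega
  have e2 : Tsq.sq (app (lv m (lv2 a .nil)) s) = (app (lv m (lv2 a .nil)) X △ Y, (Tsq.sq s).2) := by
    rw [Tsq.sq_pre _ s (by omega), g]
    rfl
  have e3 : Tsq.sq (app (lv m (lv2 a .nil)) s △ B) =
      ((app (lv m (lv2 a .nil)) X △ Y) △ (Tsq.sq s).2, B) := by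
    rw [Tsq.sq_ge (app_ne h3) (by omega), e2]
  have e4 : Tsq.sq (app B1 (app (lv m (lv2 a .nil)) s △ B)) =
      (app B1 (app (lv m (lv2 a .nil)) X △ Y) △ (Tsq.sq s).2, B) := by
    rw [Tsq.sq_pre B1 _ (by rw [Tsq.ht_node]; omega), e3]
    rfl
  rw [nR_eq, e4]
  exact pf_l (pf_ar (pf_l (pf_H (bl_H a m) (H_ne h.pos) (g2 (by omega)))))

theorem NodeA.noflag (h : NodeA k q a m R0 B1 s B) (w0 : X k) {i : ℕ}
    (hi : i ∈ [0, 1, 3, 6, 8, 9]) : ¬ flag (wd (TT (nX q a m B1 s B w0 i)).1) := by
  apply H1.noflag h.run hi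
  apply h.word w0
  simp only [List.mem_cons, List.not_mem_nil, or_false] at hi
  rcases hi with rfl | rfl | rfl | rfl | rfl | rfl <;> norm_num

theorem NodeA.flag_lo (h : NodeA k q a m R0 B1 s B) (w0 : X k) {i : ℕ} (hi : i < 10) :
    flag (wd (nX q a m B1 s B w0 i).1) := by
  rw [h.word w0 (by omega)]
  exact pf_lo h.pfR i hi

theorem NodeA.flag_all (h : NodeA k q a m R0 B1 s B) (h5 : 5 ≤ OddHC.ht R0) (w0 : X k) {i : ℕ}
    (hi : i < 20) : flag (wd (nX q a m B1 s B w0 i).1) := by
  rcases lt_or_ge i 10 with h1 | h1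
  · exact h.flag_lo w0 h1
  · rw [h.word w0 hi]
    exact pf_hi (h.pfS h5) i h1 hi

/-- **the inner words of the links are not words of nodes**, except perhaps the words 13, 16, 18, 19 of height 4 -/
theorem NodeA.inner (h : NodeA k q a m R0 B1 s B) {q' a' m' : ℕ} {R0' B1' s' B' : BinaryTree Unit}
    (h' : NodeA k q' a' m' R0' B1' s' B') (w0 : X k) {i j : ℕ} (hi : i ∈ [0, 1, 3, 6, 8, 9])
    (hj : j < 20) (hx : 5 ≤ OddHC.ht R0' ∨ j ∉ [13, 16, 18, 19]) :
    TT (nX q a m B1 s B w0 i) ≠ nX q' a' m' B1' s' B' w0 j := by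
  intro e
  have h1 := h.noflag w0 hi
  rw [e] at h1
  rcases hx with hx | hx
  · exact h1 (h'.flag_all hx w0 hj)
  · rcases lt_or_ge j 10 with h2 | h2
    · exact h1 (h'.flag_lo w0 h2)
    · have h3 : ∃ i' ∈ [0, 1, 3, 6, 8, 9],
          (i', j) ∈ [(0, 10), (1, 11), (3, 12), (6, 15), (8, 14), (9, 17)] := by
        simp only [List.mem_cons, List.not_mem_nil, or_false, not_or] at hx
        obtain ⟨x1, x2, x3, x4⟩ := hx
        interval_cases j
        · exact ⟨0, by simp, by simp⟩
        · exact ⟨1, by simp, by simp⟩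
        · exact ⟨3, by simp, by simp⟩
        · exact absurd rfl x1
        · exact ⟨8, by simp, by simp⟩
        · exact ⟨6, by simp, by simp⟩
        · exact absurd rfl x2
        · exact ⟨9, by simp, by simp⟩
        · exact absurd rfl x3
        · exact absurd rfl x4
      obtain ⟨i', h4, h5⟩ := h3
      rw [← h'.link w0 h5] at e
      have h6 := TT.injective e
      apply h'.noflag w0 h4
      rw [← h6]
      apply h.flag_lo w0
      simp only [List.mem_cons, List.not_mem_nil, or_false] at hi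
      rcases hi with rfl | rfl | rfl | rfl | rfl | rfl <;> norm_num

end H1

end Pool.OddHC
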