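import Pool.Agent.Work.MP_8f87b2_h71.H1Inner

/-!
MP_8f87b2_co, rule H1, general form: `R = B1 (H s) B`, `H` a nonempty list of `()` and `(())`, all solitons of `B1`, `s`,
`B` at least 3, `(s)` first tallest component, no part of `B` smaller than `q + 3`, `Q = [q + 1]`.
Two levels: `H = ()^m (())^a`. Three levels with `a = 0`, `m ≥ 1`: `H = ()^m`, `s = ((()))^t s'`.
-/

namespace Pool.OddHC

namespace H1

open BinaryTree Equiv

variable {k : ℕ}

/-- `R` -/
def gR (B1 H s B : BinaryTree Unit) : BinaryTree Unit := app B1 (app H s △ B)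

/-- the general node -/
structure NodeG (k q : ℕ) (B1 H s B : BinaryTree Unit) : Prop where
  h1 : hv B1
  hs : hv s
  s0 : s ≠ .nil
  hB : hv B
  light : bl H = true
  H0 : H ≠ .nil
  low : OddHC.ht B1 < OddHC.ht s + 1
  top : OddHC.ht B ≤ OddHC.ht s + 1
  big : q + 3 ≤ OddHC.ht s + 1
  bare : ∀ x ∈ cont B, q + 3 ≤ x
  size : (gR B1 H s B).numNodes + q + 3 = k

variable {q : ℕ} {B1 H s B : BinaryTree Unit}

theorem NodeG.sq (h : NodeG k q B1 H s B) : (Tsq.sq (gR B1 H s B)).2 = B ∧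
    Adm q (gR B1 H s B) B (Tsq.sq (gR B1 H s B)).1 :=
  adm_of h.h1 h.hB h.hs h.s0 h.light h.H0 (by rw [ht_eq, ht_eq]; exact h.low)
    (by rw [ht_eq, ht_eq]; exact h.top)

theorem NodeG.adm (h : NodeG k q B1 H s B) : Adm (q + 1) (gR B1 H s B) B (Tsq.sq (gR B1 H s B)).1 :=
  (adm_of h.h1 h.hB h.hs h.s0 h.light h.H0 (by rw [ht_eq, ht_eq]; exact h.low)
    (by rw [ht_eq, ht_eq]; exact h.top)).2

theorem NodeG.hs3 (h : NodeG k q B1 H s B) : 3 ≤ OddHC.ht s := by
  rw [← ht_eq]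
  exact hv_ht h.hs h.s0

theorem NodeG.ht (h : NodeG k q B1 H s B) : OddHC.ht (gR B1 H s B) = OddHC.ht s + 1 := by
  have h1 : OddHC.ht H ≤ 2 := by rw [← ht_eq]; exact bl_ht h.light
  have h2 := h.hs3
  have h3 := h.low
  have h4 := h.top
  unfold gR
  rw [ht_app, ht_node, ht_app]
  omega

theorem NodeG.dat (h : NodeG k q B1 H s B) : Dat q (gR B1 H s B) B (Tsq.sq (gR B1 H s B)).1 :=
  ⟨Prod.ext rfl h.sq.1, by rw [h.ht]; exact h.big, h.bare⟩

/-- the words -/
noncomputable def gX (q : ℕ) (B1 H s B : BinaryTree Unit) (w0 : X k) (i : ℕ) : X k :=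
  wX (gR B1 H s B) B (Tsq.sq (gR B1 H s B)).1 q w0 i

theorem NodeG.word (h : NodeG k q B1 H s B) (w0 : X k) {i : ℕ} (hi : i < 20) :
    (gX q B1 H s B w0 i).1 = W (gR B1 H s B) (ch (q + 1)) B (Tsq.sq (gR B1 H s B)).1 i :=
  wX_eq h.dat h.size w0 hi

/-- **the words of different nodes are different** -/
theorem NodeG.disj (h : NodeG k q B1 H s B) {q' : ℕ} {B1' H' s' B' : BinaryTree Unit}
    (h' : NodeG k q' B1' H' s' B') (w0 : X k) {i j : ℕ} (hi : i < 20) (hj : j < 20)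
    (e : gX q B1 H s B w0 i = gX q' B1' H' s' B' w0 j) :
    i = j ∧ q = q' ∧ gR B1 H s B = gR B1' H' s' B' := by
  have e1 := congrArg Subtype.val e
  rw [h.word w0 hi, h'.word w0 hj] at e1
  obtain ⟨l1, l2, l3, l4⟩ := W_disj h.adm h'.adm hi hj e1
  refine ⟨l1, l2, ?_⟩
  rcases lt_or_ge i 10 with h5 | h5
  · exact l3 h5
  · obtain ⟨l5, l6⟩ := l4 h5
    apply sq_inj (by unfold gR; exact app_ne (by simp)) (by unfold gR; exact app_ne (by simp))
    exact Prod.ext l6 (by rw [h.sq.1, h'.sq.1, l5])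

/-- different T-cycles: different words -/
theorem NodeG.disj' (h : NodeG k q B1 H s B) {q' : ℕ} {B1' H' s' B' : BinaryTree Unit}
    (h' : NodeG k q' B1' H' s' B') (w0 : X k) {i j : ℕ} (hi : i < 20) (hj : j < 20)
    (e : gX q B1 H s B w0 i = gX q' B1' H' s' B' w0 j) :
    gX q B1 H s B w0 0 = gX q' B1' H' s' B' w0 0 := by
  obtain ⟨_, l2, l3⟩ := h.disj h' w0 hi hj e
  apply Subtype.ext
  rw [h.word w0 (by norm_num), h'.word w0 (by norm_num), l2, l3]
  rfl

theorem NodeG.inj (h : NodeG k q B1 H s B) (w0 : X k) : ∀ i < 20, ∀ j < 20,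
    gX q B1 H s B w0 i = gX q B1 H s B w0 j → i = j :=
  fun _ hi _ hj e => (h.disj h w0 hi hj e).1

/-- **the absorber of a node** -/
theorem NodeG.abs (h : NodeG k q B1 H s B) (w0 : X k) : (gad20 (gX q B1 H s B w0)).Abs := by
  apply wX_abs h.dat h.size w0
  intro i hi j hj e
  apply h.inj w0 i hi j hj
  apply Subtype.ext
  rw [h.word w0 hi, h.word w0 hj]
  exact e

/-- the content of the new T-cycle -/
theorem NodeG.cont0 (h : NodeG k q B1 H s B) (w0 : X k) :
    cont (gX q B1 H s B w0 0).1 = cont (gR B1 H s B) + {q + 3} := wX_cont0 h.dat h.size w0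

/-- the old words are older: height, then 1-parts, then squares -/
theorem NodeG.rank (h : NodeG k q B1 H s B) (w0 : X k) : ∀ i < 20, i ≠ 0 → i ≠ 10 →
    Lower (cont (gX q B1 H s B w0 i).1) (cont (gX q B1 H s B w0 0).1) := by
  intro i hi h0 h10
  rw [h.cont0, h.word w0 hi]
  exact rank_W h.dat i hi h0 h10

theorem NodeG.hold (h : NodeG k q B1 H s B) (w0 : X k) : ∀ i < 20, i ≠ 0 → i ≠ 10 →
    ¬ TT.SameCycle (gX q B1 H s B w0 0) (gX q B1 H s B w0 i) := wX_hold h.dat h.size w0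

/-- the links of a node -/
theorem NodeG.link (h : NodeG k q B1 H s B) (w0 : X k) {i j : ℕ}
    (hij : (i, j) ∈ [(0, 10), (1, 11), (3, 12), (6, 15), (8, 14), (9, 17)]) :
    TT (TT (gX q B1 H s B w0 i)) = gX q B1 H s B w0 j := wX_link h.dat h.size w0 hij

/-! ### Flags -/

theorem NodeG.run (h : NodeG k q B1 H s B) : ∀ σ : St, σ ≠ .dead → run σ (wd (gR B1 H s B)) = .zz :=
  fun _ hσ => run_R h.h1 h.light h.hs h.s0 h.hB hσ

theorem NodeG.pfR (h : NodeG k q B1 H s B) : pf (gR B1 H s B) :=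
  pf_ar (pf_l (pf_H h.light h.H0 (hv_ttt h.hs h.s0)))

theorem NodeG.pfS (h : NodeG k q B1 H s B) (h5 : 4 ≤ OddHC.ht s) :
    pf (Tsq.sq (gR B1 H s B)).1 := by
  have es : Tsq.ht s = OddHC.ht s := ht_eq s
  have eB : Tsq.ht B = OddHC.ht B := ht_eq B
  have eB1 : Tsq.ht B1 = OddHC.ht B1 := ht_eq B1
  have hH2 := bl_ht h.light
  have h2 := h.low
  have h3 := h.top
  obtain ⟨X, Y, g, _, g2⟩ := sq_ttt h.hs h.s0
  have e1 : Tsq.ht (app H s) = Tsq.ht s := by rw [Tsq.ht_app]; omega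
  have e2 : Tsq.sq (app H s) = (app H X △ Y, (Tsq.sq s).2) := by
    rw [Tsq.sq_pre H s (by omega), g]
    rfl
  have e3 : Tsq.sq (app H s △ B) = ((app H X △ Y) △ (Tsq.sq s).2, B) := by
    rw [Tsq.sq_ge (app_ne h.s0) (by omega), e2]
  have e4 : Tsq.sq (gR B1 H s B) = (app B1 (app H X △ Y) △ (Tsq.sq s).2, B) := by
    unfold gR
    rw [Tsq.sq_pre B1 _ (by rw [Tsq.ht_node]; omega), e3]
    rfl
  rw [e4]
  exact pf_l (pf_ar (pf_l (pf_H h.light h.H0 (g2 (by omega)))))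

theorem NodeG.noflag (h : NodeG k q B1 H s B) (w0 : X k) {i : ℕ}
    (hi : i ∈ [0, 1, 3, 6, 8, 9]) : ¬ flag (wd (TT (gX q B1 H s B w0 i)).1) := by
  apply H1.noflag h.run hi
  apply h.word w0
  simp only [List.mem_cons, List.not_mem_nil, or_false] at hi
  rcases hi with rfl | rfl | rfl | rfl | rfl | rfl <;> norm_num

theorem NodeG.flag_lo (h : NodeG k q B1 H s B) (w0 : X k) {i : ℕ} (hi : i < 10) :
    flag (wd (gX q B1 H s B w0 i).1) := by
  rw [h.word w0 (by omega)]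
  exact pf_lo h.pfR i hi

theorem NodeG.flag_all (h : NodeG k q B1 H s B) (h5 : 4 ≤ OddHC.ht s) (w0 : X k) {i : ℕ}
    (hi : i < 20) : flag (wd (gX q B1 H s B w0 i).1) := by
  rcases lt_or_ge i 10 with h1 | h1
  · exact h.flag_lo w0 h1
  · rw [h.word w0 hi]
    exact pf_hi (h.pfS h5) i h1 hi

/-- **the inner words of the links are not words of nodes** (words 13, 16, 18, 19 of height 4 excepted) -/
theorem NodeG.inner (h : NodeG k q B1 H s B) {q' : ℕ} {B1' H' s' B' : BinaryTree Unit}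
    (h' : NodeG k q' B1' H' s' B') (w0 : X k) {i j : ℕ} (hi : i ∈ [0, 1, 3, 6, 8, 9])
    (hj : j < 20) (hx : 4 ≤ OddHC.ht s' ∨ j ∉ [13, 16, 18, 19]) :
    TT (gX q B1 H s B w0 i) ≠ gX q' B1' H' s' B' w0 j := by
  intro e
  have h1 := h.noflag w0 hi
  rw [e] at h1
  rcases hx with hx | hx
  · exact h1 (h'.flag_all hx w0 hj)
  · rcases lt_or_ge j 10 with h2 | h2
    · exact h1 (h'.flag_lo w0 h2)
    · have h3 : ∃ i' ∈ [0, 1, 3, 6, 8, 9],
          (i', j) ∈ [(0, 10), (1, 11), (3, 12), (6, 15), (8, 14), (9, 17)] := by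
        simp only [List.mem_cons, List.not_mem_nil, or_false, not_or] at hx
        obtain ⟨x1, x2, x3, x4⟩ := hx
        interval_cases j
        · exact ⟨0, by simp, by simp⟩
        · exact ⟨1, by simp, by simp⟩
        · exact ⟨3, by simp, by simp⟩
        · exact absurd rfl x1
        · exact ⟨8, by simp, by simp⟩
        · exact ⟨6, by simp, by simp⟩
        · exact absurd rfl x2
        · exact ⟨9, by simp, by simp⟩
        · exact absurd rfl x3
        · exact absurd rfl x4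
      obtain ⟨i', h4, h5⟩ := h3
      rw [← h'.link w0 h5] at e
      have h6 := TT.injective e
      apply h'.noflag w0 h4
      rw [← h6]
      apply h.flag_lo w0
      simp only [List.mem_cons, List.not_mem_nil, or_false] at hi
      rcases hi with rfl | rfl | rfl | rfl | rfl | rfl <;> norm_num

/-! ### The nodes -/

/-- two levels -/
theorem NodeA.toG {a m : ℕ} {R0 : BinaryTree Unit} (h : NodeA k q a m R0 B1 s B) :
    NodeG k q B1 (lv m (lv2 a .nil)) s B := by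
  obtain ⟨h1, h2, h3, h4⟩ := h.parts
  have t1 := h.tall.top
  have t2 := h.tall.low
  have t3 : OddHC.ht R0 = max (OddHC.ht B1) (max (OddHC.ht s + 1) (OddHC.ht B)) := by
    rw [h.tall.eq, ht_app, ht_node]
  have h0 : cont R0 ≠ 0 := fun e => h.ne0 (cont_eq_zero.1 e)
  have h5 := h.part _ (sup_mem h0)
  rw [← OddHC.ht_eq] at h5
  refine ⟨h1, h2, h3, h4, bl_H a m, H_ne h.pos, by omega, by omega, by omega, ?_, ?_⟩
  · intro x hx
    apply h.part
    rw [h.tall.eq, cont_app, cont_node]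
    exact Multiset.mem_add.2 (Or.inr (Multiset.mem_add.2 (Or.inr hx)))
  · have := h.size
    rwa [nR_eq] at this

/-- a list of `[3]` in front of a heavy tree -/
def lv3' : ℕ → BinaryTree Unit → BinaryTree Unit
  | 0, t => t
  | n + 1, t => ((.nil △ .nil) △ .nil) △ lv3' n t

theorem hv_lv3 (n : ℕ) {t : BinaryTree Unit} (h : hv t) : hv (lv3' n t) := by
  induction n with
  | zero => exact h
  | succ n ih => exact ⟨Or.inl rfl, ih⟩

theorem lv3_ne (n : ℕ) {t : BinaryTree Unit} (h : t ≠ .nil) : lv3' n t ≠ .nil := by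
  cases n with
  | zero => exact h
  | succ n => rw [lv3']; simp

theorem ht_lv3' (n : ℕ) {t : BinaryTree Unit} (h : 3 ≤ OddHC.ht t) :
    OddHC.ht (lv3' n t) = OddHC.ht t := by
  induction n with
  | zero => rfl
  | succ n ih =>
    rw [lv3', ht_node, ih]
    have : OddHC.ht (((.nil : BinaryTree Unit) △ .nil) △ .nil) = 2 := rfl
    omega

/-- three levels, `a = 0`, `m ≥ 1`: `R = B1 (()^m ((()))^t s) B` -/
theorem nodeG3 {m t : ℕ} {R0 : BinaryTree Unit} (hT : Tall R0 B1 s B) (hc : ∀ x ∈ cont R0, 3 ≤ x)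
    (h4 : 4 ≤ OddHC.ht R0) (hq : q + 3 ≤ OddHC.ht R0) (hB : ∀ x ∈ cont B, q + 3 ≤ x) (hm : 0 < m)
    (hk : (gR B1 (lv m .nil) (lv3' t s) B).numNodes + q + 3 = k) :
    NodeG k q B1 (lv m .nil) (lv3' t s) B := by
  have g := hv_of_cont hc
  rw [hT.eq, hv_app, hv_node] at g
  obtain ⟨g1, g2, g3⟩ := g
  have t1 := hT.top
  have t2 := hT.low
  have t3 : OddHC.ht R0 = max (OddHC.ht B1) (max (OddHC.ht s + 1) (OddHC.ht B)) := by
    rw [hT.eq, ht_app, ht_node]
  have hs : s ≠ .nil ∧ hv s := by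
    rcases g2 with rfl | g2
    · exfalso
      have e : OddHC.ht (((.nil : BinaryTree Unit) △ .nil) △ .nil) = 2 := rfl
      omega
    · exact g2
  have e3 := ht_lv3' t (t := s) (by omega)
  exact ⟨g1, hv_lv3 t hs.2, lv3_ne t hs.1, g3, bl_H 0 m, H_ne (a := 0) (by omega), by omega,
    by omega, by omega, hB, hk⟩

end H1

end Pool.OddHC
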