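import Pool.Agent.Work.MP_8f87b2_h58.InA0

/-!
MP_8f87b2_co: the inner words of the bare windows are not hosts of natural phases (helper71), both orientations.

`c = q + 3`, all parts of `R` at least `c`, the top larger; `W = T (w i)` or its mirror image, `i = 0, 1, 3, 6, 8, 9`:
`W` starts with `1^m 0^c` or `1^(c+2)` or `1^m 0 1`, and ends with `1^c 0^m` or `0^(c+2)` or `0 1 0^m`.
Hence `W` is not `(aV)`, `(Va)`, `((aV)V')`, `(V'(Va))` with `a = [p]`, `2 ≤ p < c`, `V` not empty.
-/

set_option autoImplicit false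

namespace Pool.OddHC

open Finset Equiv BinaryTree Pool.Agent.Work.MP_8f87b2_co

namespace H1

variable {k : ℕ}

/-! ### Runs -/

/-- ascending runs after a valley have length at least `g` -/
theorem hg_up {g : ℕ} (hg1 : 1 ≤ g) {t : BinaryTree Unit} : ∀ {u v : List Bool}, hg g t →
    wd t = u ++ false :: true :: v → ∃ r, true :: v = List.replicate g true ++ r := by
  induction t with
  | nil => intro u v _ e; have := congrArg List.length e; simp [wd] at this
  | node _ A C ihA ihC =>
    intro u v h e
    change wd (A △ C) = _ at e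
    rcases valley_node e with h1 | ⟨c, h1, h2⟩ | ⟨u', v', h1, h2⟩
    · have hC : wd C = true :: v := by
        rw [wd_node, h1] at e
        have e' : (true :: wd A) ++ (false :: wd C) = (true :: wd A) ++ (false :: true :: v) := by
          simpa using e
        have := List.append_cancel_left e'
        simpa using this
      have hC0 : C ≠ .nil := by
        rintro rfl
        simp [wd] at hC
      obtain ⟨r, hr⟩ := hg_start hg1 h.2 hC0
      exact ⟨r, by rw [← hC, hr]⟩
    · exact ihC h.2 h2
    · have hv : v = v' ++ false :: wd C := by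
        rw [wd_node, h2, h1] at e
        have e' : (true :: u' ++ [false, true]) ++ (v' ++ false :: wd C) =
            (true :: u' ++ [false, true]) ++ v := by simpa using e
        exact (List.append_cancel_left e').symm
      rcases h.1 with rfl | ⟨_, h3⟩
      · exact absurd h2 (nv_ch _ _ _)
      · obtain ⟨r, hr⟩ := ihA h3 h2
        exact ⟨r ++ false :: wd C, by rw [hv, ← List.cons_append, hr, List.append_assoc]⟩

/-- descending runs before a valley have length at least `g` -/
theorem hg_down {g : ℕ} (hg1 : 1 ≤ g) {t : BinaryTree Unit} : ∀ {u v : List Bool}, hg g t →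
    wd t = u ++ false :: true :: v → ∃ r, u ++ [false] = r ++ List.replicate g false := by
  induction t with
  | nil => intro u v _ e; have := congrArg List.length e; simp [wd] at this
  | node _ A C ihA ihC =>
    intro u v h e
    change wd (A △ C) = _ at e
    rcases valley_node e with h1 | ⟨c, h1, h2⟩ | ⟨u', v', h1, h2⟩
    · obtain ⟨r, hr⟩ := hg_end hg1 (t := A △ .nil) ⟨h.1, trivial⟩ (by simp)
      refine ⟨r, ?_⟩
      rw [h1, ← hr, wd_node]
      simp [wd]
    · obtain ⟨r, hr⟩ := ihC h.2 h2
      exact ⟨true :: (wd A ++ false :: r), by rw [h1]; simp [hr]⟩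
    · rcases h.1 with rfl | ⟨_, h3⟩
      · exact absurd h2 (nv_ch _ _ _)
      · obtain ⟨r, hr⟩ := ihA h3 h2
        exact ⟨true :: r, by rw [h1]; simp [hr]⟩

/-- a list is `x^n` or `x^n y r` -/
theorem run_split (x : Bool) (l : List Bool) : (∃ n, l = List.replicate n x) ∨
    ∃ n r, l = List.replicate n x ++ (!x) :: r := by
  induction l with
  | nil => exact Or.inl ⟨0, rfl⟩
  | cons y l ih =>
    by_cases h : y = x
    · subst h
      rcases ih with ⟨n, rfl⟩ | ⟨n, r, rfl⟩
      · exact Or.inl ⟨n + 1, by rw [List.replicate_succ]⟩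
      · exact Or.inr ⟨n + 1, r, by rw [List.replicate_succ]; rfl⟩
    · refine Or.inr ⟨0, l, ?_⟩
      have : y = !x := by cases x <;> cases y <;> simp_all
      rw [this]; rfl

theorem run_split' (x : Bool) (l : List Bool) : (∃ n, l = List.replicate n x) ∨
    ∃ n r, l = r ++ (!x) :: List.replicate n x := by
  rcases run_split x l.reverse with ⟨n, h⟩ | ⟨n, r, h⟩
  · left
    refine ⟨n, ?_⟩
    have := congrArg List.reverse h
    rwa [List.reverse_reverse, List.reverse_replicate] at this
  · right
    refine ⟨n, r.reverse, ?_⟩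
    have := congrArg List.reverse h
    rw [List.reverse_reverse] at this
    rw [this]
    simp

/-- what follows the first maximum: `0^h`, or `0^(n+1) 1^g ..` -/
theorem hg_aft {g : ℕ} (hg1 : 1 ≤ g) {t : BinaryTree Unit} (h : hg g t) {a b : List Bool} (hf : FM t a b) :
    b = List.replicate (Tsq.ht t) false ∨ ∃ n r, b = List.replicate (n + 1) false ++ (List.replicate g true ++ r) := by
  have h0 : t ≠ .nil := by
    rintro rfl
    have := hf.eq
    simp [wd] at this
  obtain ⟨h1, a', b', h2, _, ⟨v, h3, _⟩⟩ := hg_FM hg1 h h0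
  obtain ⟨rfl, rfl⟩ := hf.uniq h2
  rcases run_split false b with ⟨n, rfl⟩ | ⟨n, r, rfl⟩
  · left
    have := hf.bal
    rw [List.count_replicate_self, List.count_replicate] at this
    simp at this
    rw [this]
  · right
    cases n with
    | zero =>
      obtain ⟨m, rfl⟩ : ∃ m, g = m + 1 := ⟨g - 1, by omega⟩
      rw [List.replicate_succ (n := m)] at h3
      simp at h3
    | succ n =>
      have e := hf.eq
      have e' : wd t = (a ++ true :: List.replicate n false) ++ false :: true :: r := by
        rw [e, List.replicate_succ']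
        simp
      obtain ⟨r', hr⟩ := hg_up hg1 h e'
      exact ⟨n, r', by rw [← hr]; rfl⟩

/-- what precedes the first maximum: `1^(h-1)`, or `.. 0^g 1^n` -/
theorem hg_bef {g : ℕ} (hg2 : 2 ≤ g) {t : BinaryTree Unit} (h : hg g t) {a b : List Bool} (hf : FM t a b) :
    a = List.replicate (Tsq.ht t - 1) true ∨ ∃ n r, a = r ++ (List.replicate g false ++ List.replicate (n + 1) true) := by
  rcases run_split' true a with ⟨n, rfl⟩ | ⟨n, r, rfl⟩
  · left
    have := hf.top
    rw [List.count_replicate_self, List.count_replicate] at this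
    simp at this
    rw [show n = Tsq.ht t - 1 by omega]
  · right
    have e := hf.eq
    have e' : wd t = r ++ false :: true :: (List.replicate n true ++ b) := by
      rw [e]
      change r ++ false :: List.replicate n true ++ true :: b = _
      have : List.replicate n true ++ true :: b = true :: (List.replicate n true ++ b) := by
        rw [show true :: b = [true] ++ b from rfl, ← List.append_assoc, ← List.replicate_succ',
          List.replicate_succ]
        rfl
      rw [List.append_assoc, List.cons_append, this]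
    obtain ⟨r', hr⟩ := hg_down (by omega) h e'
    have hn : n ≠ 0 := by
      rintro rfl
      obtain ⟨v, hv⟩ := hg_up (by omega) h e'
      obtain ⟨m, rfl⟩ : ∃ m, g = m + 2 := ⟨g - 2, by omega⟩
      rw [List.replicate_succ, List.replicate_succ] at hv
      simp only [List.replicate_zero, List.nil_append, List.cons_append, List.cons.injEq, true_and] at hv
      obtain ⟨-, a', b', h2, _, ⟨w, h3, _⟩⟩ := hg_FM (by omega) h (by rintro rfl; simp [wd] at e)
      obtain ⟨rfl, rfl⟩ := hf.uniq h2
      rw [hv, List.replicate_succ] at h3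
      simp at h3
    obtain ⟨m, rfl⟩ : ∃ m, n = m + 1 := ⟨n - 1, by omega⟩
    refine ⟨m, r', ?_⟩
    change r ++ false :: List.replicate (m + 1) true = _
    rw [← List.append_assoc, ← hr]
    simp

/-! ### The shapes -/

/-- start: `1^m 0^c`, `1^(c+2)` or `1^m 0 1` -/
def SN (c : ℕ) (l : List Bool) : Prop :=
  (∃ m r, l = List.replicate m true ++ (List.replicate c false ++ r)) ∨
    (∃ r, l = List.replicate (c + 2) true ++ r) ∨ ∃ m r, l = List.replicate m true ++ (false :: true :: r)

/-- end: `1^c 0^m`, `0^(c+2)` or `0 1 0^m` -/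
def EN (c : ℕ) (l : List Bool) : Prop :=
  (∃ m r, l = r ++ (List.replicate c true ++ List.replicate m false)) ∨
    (∃ r, l = r ++ List.replicate (c + 2) false) ∨ ∃ m r, l = r ++ (false :: true :: List.replicate m false)

theorem SN.mir {c : ℕ} {t : BinaryTree Unit} (h : SN c (wd t)) : EN c (wd (Tsq.mir t)) := by
  rw [Tsq.wd_mir]
  rcases h with ⟨m, r, h⟩ | ⟨r, h⟩ | ⟨m, r, h⟩
  · left
    exact ⟨m, (r.map not).reverse, by rw [h]; simp⟩
  · right; left
    exact ⟨(r.map not).reverse, by rw [h]; simp⟩
  · right; right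
    exact ⟨m, (r.map not).reverse, by rw [h]; simp⟩

theorem EN.mir {c : ℕ} {t : BinaryTree Unit} (h : EN c (wd t)) : SN c (wd (Tsq.mir t)) := by
  rw [Tsq.wd_mir]
  rcases h with ⟨m, r, h⟩ | ⟨r, h⟩ | ⟨m, r, h⟩
  · left
    exact ⟨m, (r.map not).reverse, by rw [h]; simp⟩
  · right; left
    exact ⟨(r.map not).reverse, by rw [h]; simp⟩
  · right; right
    exact ⟨m, (r.map not).reverse, by rw [h]; simp⟩

/-- `1^n 0^p 1 ..` with `n` at most `c + 1` and `2 ≤ p < c` is not of this form -/
theorem SN.not_start {c : ℕ} {l : List Bool} (h : SN c l) {n p : ℕ} (hn : n ≤ c + 1) (hp : 2 ≤ p) (hpc : p < c)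
    {r : List Bool} (e : l = List.replicate n true ++ (List.replicate p false ++ true :: r)) : False := by
  have key : ∀ {m : ℕ} {s s' : List Bool}, List.replicate n true ++ false :: s = List.replicate m true ++ false :: s' →
      n = m ∧ s = s' := by
    intro m s s' h
    have h1 := congrArg (List.takeWhile (· = true)) h
    have h2 : ∀ n (s : List Bool), List.takeWhile (fun x => decide (x = true)) (List.replicate n true ++ false :: s) =
        List.replicate n true := by
      intro n s
      rw [List.takeWhile_append_of_pos (by simp)]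
      simp
    rw [h2, h2] at h1
    have h3 := congrArg List.length h1
    rw [List.length_replicate, List.length_replicate] at h3
    subst h3
    have := List.append_cancel_left h
    exact ⟨rfl, by simpa using this⟩
  obtain ⟨p', rfl⟩ : ∃ p', p = p' + 2 := ⟨p - 2, by omega⟩
  obtain ⟨d, rfl⟩ : ∃ d, c = d + 1 := ⟨c - 1, by omega⟩
  have e2 : l = List.replicate n true ++ false :: (List.replicate (p' + 1) false ++ true :: r) := by
    rw [e, List.replicate_succ (n := p' + 1)]; rfl
  rcases h with ⟨m, s, h⟩ | ⟨s, h⟩ | ⟨m, s, h⟩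
  · rw [List.replicate_succ] at h
    obtain ⟨-, h2⟩ := key (e2.symm.trans h)
    obtain ⟨x, hx⟩ : ∃ x, d = (p' + 1) + (x + 1) := ⟨d - p' - 2, by omega⟩
    have e3 : List.replicate d false = List.replicate (p' + 1) false ++ List.replicate (x + 1) false := by
      rw [hx, List.replicate_add]
    have h2' : List.replicate (p' + 1) false ++ true :: r =
        List.replicate (p' + 1) false ++ (List.replicate (x + 1) false ++ s) := by
      rw [← List.append_assoc, ← e3]
      exact h2
    have h3 := List.append_cancel_left h2'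
    rw [List.replicate_succ (n := x)] at h3
    simp at h3
  · obtain ⟨x, hx⟩ : ∃ x, d + 1 + 2 = n + (x + 1) := ⟨d + 3 - n - 1, by omega⟩
    rw [hx, List.replicate_add, List.append_assoc] at h
    have h3 := List.append_cancel_left (e2.symm.trans h)
    rw [List.replicate_succ (n := x)] at h3
    simp at h3
  · obtain ⟨-, h2⟩ := key (e2.symm.trans h)
    rw [List.replicate_succ] at h2
    simp at h2

theorem EN.not_stop {c : ℕ} {t : BinaryTree Unit} (h : EN c (wd t)) {n p : ℕ} (hn : n ≤ c + 1) (hp : 2 ≤ p)
    (hpc : p < c) {r : List Bool}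
    (e : wd t = r ++ (false :: List.replicate p true ++ List.replicate n false)) : False := by
  refine h.mir.not_start hn hp hpc (r := (r.map not).reverse) ?_
  rw [Tsq.wd_mir, e]
  simp

/-! ### The windows -/

/-- start of an inner word -/
theorem SN_inner {c h : ℕ} {b suf X : List Bool} (hh : c + 1 ≤ h)
    (hb : b = List.replicate h false ∨ ∃ n r, b = List.replicate (n + 1) false ++ (List.replicate c true ++ r))
    (hs : (∃ s, suf = false :: s) ∨ (∃ s, suf = true :: false :: s) ∨ ∃ s, suf = List.replicate c true ++ s) :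
    SN c ((b ++ suf).map not ++ false :: X) := by
  rcases hb with rfl | ⟨n, r, rfl⟩
  · rcases hs with ⟨s, rfl⟩ | ⟨s, rfl⟩ | ⟨s, rfl⟩
    · right; left
      obtain ⟨m, rfl⟩ : ∃ m, h = (c + 1) + m := ⟨h - c - 1, by omega⟩
      refine ⟨List.replicate m true ++ (s.map not ++ false :: X), ?_⟩
      have e : List.replicate (c + 1 + m) true ++ [true] = List.replicate (c + 2) true ++ List.replicate m true := by
        rw [← List.replicate_succ', ← List.replicate_add]
        congr 1
        omega
      rw [← List.append_assoc, ← e]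
      simp
    · right; right
      exact ⟨h, s.map not ++ false :: X, by simp⟩
    · left
      exact ⟨h, s.map not ++ false :: X, by simp⟩
  · left
    exact ⟨n + 1, r.map not ++ (suf.map not ++ false :: X), by simp⟩

/-- end of an inner word -/
theorem EN_inner {c h : ℕ} {a P Y : List Bool} (hh : c + 1 ≤ h)
    (ha : a = List.replicate (h - 1) true ∨ ∃ n r, a = r ++ (List.replicate c false ++ List.replicate (n + 1) true))
    (hs : (∃ s, P = s ++ [true]) ∧ (∃ s, P = s ++ [true, false, true]) ∨ P = [true] ∨ P = [true, true] ∨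
      (P = [] ∧ ∃ s, Y = s ++ [false, true]) ∨ (P = [] ∧ ∃ s, Y = s ++ List.replicate c true)) :
    EN c (Y ++ false :: (P ++ a).map not) := by
  obtain ⟨m, rfl⟩ : ∃ m, h = (c + 1) + m := ⟨h - c - 1, by omega⟩
  rcases ha with rfl | ⟨n, r, rfl⟩
  · rcases hs with ⟨_, s, rfl⟩ | rfl | rfl | ⟨rfl, s, rfl⟩ | ⟨rfl, s, rfl⟩
    · right; right
      refine ⟨c + 1 + m, Y ++ false :: s.map not, ?_⟩
      rw [show c + 1 + m = (c + 1 + m - 1) + 1 by omega, List.replicate_succ]
      simp
    · right; left
      refine ⟨Y ++ List.replicate m false, ?_⟩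
      have e : List.replicate m false ++ List.replicate (c + 2) false =
          false :: false :: List.replicate (c + 1 + m - 1) false := by
        rw [← List.replicate_succ, ← List.replicate_succ, ← List.replicate_add]
        congr 1
        omega
      rw [List.append_assoc, e]
      simp
    · right; left
      refine ⟨Y ++ List.replicate (m + 1) false, ?_⟩
      have e : List.replicate (m + 1) false ++ List.replicate (c + 2) false =
          false :: false :: false :: List.replicate (c + 1 + m - 1) false := by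
        rw [← List.replicate_succ, ← List.replicate_succ, ← List.replicate_succ, ← List.replicate_add]
        congr 1
        omega
      rw [List.append_assoc, e]
      simp
    · right; right
      refine ⟨c + 1 + m, s, ?_⟩
      rw [show c + 1 + m = (c + 1 + m - 1) + 1 by omega, List.replicate_succ]
      simp
    · left
      refine ⟨c + 1 + m, s, ?_⟩
      rw [show c + 1 + m = (c + 1 + m - 1) + 1 by omega, List.replicate_succ]
      simp
  · left
    exact ⟨n + 1, Y ++ false :: (P.map not ++ r.map not), by simp⟩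

/-- **the inner words** -/
theorem nat_W {q : ℕ} {R B S : BinaryTree Unit} (hg' : hg (q + 3) R) (hq : q + 3 < Tsq.ht R) {x : X k} :
    ∀ i ∈ [0, 1, 3, 6, 8, 9], x.1 = W R (ch (q + 1)) B S i →
    SN (q + 3) (wd (TT x).1) ∧ EN (q + 3) (wd (TT x).1) := by
  have h0 : R ≠ .nil := by
    rintro rfl
    simp [Tsq.ht] at hq
  obtain ⟨-, a, b, h, -, -⟩ := hg_FM (by omega) hg' h0
  have hb := hg_aft (by omega) hg' h
  have ha := hg_bef (by omega) hg' h
  have hn : Tsq.ht (.nil : BinaryTree Unit) = 0 := rfl
  have hc : ∀ n, Tsq.ht (ch n) = n := fun n => by rw [ht_eq, ch_ht]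
  intro i hi e
  simp only [List.mem_cons, List.not_mem_nil, or_false] at hi
  rcases hi with rfl | rfl | rfl | rfl | rfl | rfl
  · have k1 := h.app_right (Z := ch (q + 3)) (by rw [hc]; exact hq.le)
    have e' : x.1 = app R (ch (q + 3)) := e
    rw [← e'] at k1
    rw [k1.wdT]
    refine ⟨SN_inner hq hb (Or.inr (Or.inr ⟨_, wd_ch _⟩)), ?_⟩
    refine EN_inner (P := []) hq ha (Or.inr (Or.inr (Or.inr (Or.inr ⟨rfl, ?_⟩))))
    exact ⟨b.map not ++ List.replicate (q + 3) false, by rw [wd_ch]; simp⟩
  · have k1 := h.app_right (Z := .nil △ app (ch (q + 1)) (.nil △ .nil)) (by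
      rw [Tsq.ht_node, Tsq.ht_app, Tsq.ht_node, hc, hn]; omega)
    have e' : x.1 = app R (.nil △ app (ch (q + 1)) (.nil △ .nil)) := e
    rw [← e'] at k1
    rw [k1.wdT]
    refine ⟨SN_inner hq hb (Or.inr (Or.inl ⟨_, rfl⟩)), ?_⟩
    refine EN_inner (P := []) hq ha (Or.inr (Or.inr (Or.inr (Or.inl ⟨rfl, ?_⟩))))
    exact ⟨b.map not ++ (false :: true :: (wd (ch (q + 1))).map not), by
      rw [wd_node, wd_app, wd_node]; simp [wd]⟩
  · have k1 := (h.app_right (Z := .nil △ ch (q + 1)) (by
      rw [Tsq.ht_node, hc, hn]; omega)).node (Z := .nil) (by rw [hn]; omega)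
    have e' : x.1 = (app R (.nil △ ch (q + 1)) △ .nil) := e
    rw [← e'] at k1
    rw [k1.wdT, List.append_assoc]
    refine ⟨SN_inner hq hb (Or.inr (Or.inl ⟨_, rfl⟩)), ?_⟩
    exact EN_inner (P := [true]) hq ha (Or.inr (Or.inl rfl))
  · have k1 := h.node (Z := ch (q + 2)) (by rw [hc]; omega)
    have e' : x.1 = (R △ ch (q + 2)) := e
    rw [← e'] at k1
    rw [k1.wdT]
    refine ⟨SN_inner hq hb (Or.inl ⟨_, rfl⟩), ?_⟩
    exact EN_inner (P := [true]) hq ha (Or.inr (Or.inl rfl))
  · have k1 := (h.node (Z := .nil) (by rw [hn]; omega)).app_left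
      (P := app (ch (q + 1)) (.nil △ .nil)) (by
        rw [Tsq.ht_node, Tsq.ht_app, Tsq.ht_node, hc, hn]; omega)
    have e' : x.1 = app (app (ch (q + 1)) (.nil △ .nil)) (R △ .nil) := by
      rw [app_assoc]; exact e
    rw [← e'] at k1
    rw [k1.wdT]
    refine ⟨SN_inner hq hb (Or.inl ⟨_, rfl⟩), ?_⟩
    have e2 : wd (app (ch (q + 1)) (.nil △ .nil)) ++ true :: a =
        (wd (app (ch (q + 1)) (.nil △ .nil)) ++ [true]) ++ a := by simp
    rw [e2]
    refine EN_inner hq ha (Or.inl ⟨⟨_, rfl⟩, wd (ch (q + 1)), ?_⟩)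
    rw [wd_app, wd_node]
    simp [wd]
  · have k1 := (h.node (Z := .nil) (by rw [hn]; omega)).node (Z := ch (q + 1)) (by
      rw [Tsq.ht_node, hc, hn]; omega)
    have e' : x.1 = ((R △ .nil) △ ch (q + 1)) := e
    rw [← e'] at k1
    rw [k1.wdT, List.append_assoc]
    refine ⟨SN_inner hq hb (Or.inl ⟨_, rfl⟩), ?_⟩
    exact EN_inner (P := [true, true]) hq ha (Or.inr (Or.inr (Or.inl rfl)))

variable {q : ℕ} {R B S : BinaryTree Unit}

/-- **the shapes, both orientations** -/
theorem _root_.Pool.OddHC.HM.NodeM.nat (h : HM.NodeM k q R B S) (w0 : X k) {i : ℕ}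
    (hi : i ∈ [0, 1, 3, 6, 8, 9]) {w : X k}
    (hw : w = TT (wX R B S q w0 i) ∨ w = Tsq.mirX (TT (wX R B S q w0 i))) :
    SN (q + 3) (wd w.1) ∧ EN (q + 3) (wd w.1) := by
  have hi' : i < 20 := by
    simp only [List.mem_cons, List.not_mem_nil, or_false] at hi
    omega
  have h2 := nat_W (x := wX R B S q w0 i) (hg_of_cont (by omega) h.part) (by rw [ht_eq]; exact h.top) i hi
    (wX_eq h.dat h.size w0 hi')
  rcases hw with rfl | rfl
  · exact h2
  · exact ⟨h2.2.mir, h2.1.mir⟩

/-! ### Natural hosts -/

/-- `aV`, `Va`, `(aV)V'`, `V'(Va)`, `a = [p]`, `V` not empty; the hosts are `(X)` -/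
inductive NatX (p : ℕ) : BinaryTree Unit → Prop
  | fst {V : BinaryTree Unit} (hV : V ≠ .nil) : NatX p (app (ch p) V)
  | lst {V : BinaryTree Unit} (hV : V ≠ .nil) : NatX p (app V (ch p))
  | fst' {V V' : BinaryTree Unit} (hV : V ≠ .nil) : NatX p (app (ch p) V △ V')
  | lst' {V V' : BinaryTree Unit} (hV : V ≠ .nil) : NatX p (app V' (app V (ch p) △ .nil))

theorem wd_first {V : BinaryTree Unit} (hV : V ≠ .nil) : ∃ r, wd V = true :: r := by
  cases V with
  | nil => exact absurd rfl hV
  | node _ A C => exact ⟨_, rfl⟩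

theorem NatX.not_nat {c p : ℕ} (hp : 2 ≤ p) (hpc : p < c) {Y : BinaryTree Unit} (hY : NatX p Y)
    {t : BinaryTree Unit} (h1 : SN c (wd t)) (h2 : EN c (wd t)) : t ≠ Y △ .nil := by
  obtain ⟨d, rfl⟩ : ∃ d, p = d + 2 := ⟨p - 2, by omega⟩
  rintro rfl
  cases hY with
  | fst hV =>
    obtain ⟨r, hr⟩ := wd_first hV
    refine h1.not_start (n := d + 3) (p := d + 2) (by omega) (by omega) (by omega) (r := r ++ [false]) ?_
    rw [wd_node, wd_app, hr, wd_ch, List.replicate_succ (n := d + 2) (a := true)]
    simp [wd]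
  | lst hV =>
    obtain ⟨r, hr⟩ := wd_last hV
    refine h2.not_stop (n := d + 3) (p := d + 2) (by omega) (by omega) (by omega) (r := true :: r) ?_
    rw [wd_node, wd_app, hr, wd_ch, List.replicate_succ' (n := d + 2) (a := false)]
    simp [wd]
  | @fst' V V' hV =>
    obtain ⟨r, hr⟩ := wd_first hV
    refine h1.not_start (n := d + 4) (p := d + 2) (by omega) (by omega) (by omega)
      (r := r ++ false :: (wd V' ++ [false])) ?_
    rw [wd_node, wd_node, wd_app, hr, wd_ch,
      List.replicate_succ (n := d + 3) (a := true), List.replicate_succ (n := d + 2) (a := true)]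
    simp [wd]
  | @lst' V V' hV =>
    obtain ⟨r, hr⟩ := wd_last hV
    refine h2.not_stop (n := d + 4) (p := d + 2) (by omega) (by omega) (by omega)
      (r := true :: (wd V' ++ true :: r)) ?_
    rw [wd_node, wd_app, wd_node, wd_app, hr, wd_ch,
      List.replicate_succ' (n := d + 3) (a := false), List.replicate_succ' (n := d + 2) (a := false)]
    simp [wd]

/-- **no inner word of a bare window is a natural host**, `a = [p]`, `2 ≤ p < c` -/
theorem _root_.Pool.OddHC.HM.NodeM.not_nat (h : HM.NodeM k q R B S) (w0 : X k) {i : ℕ}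
    (hi : i ∈ [0, 1, 3, 6, 8, 9]) {w : X k}
    (hw : w = TT (wX R B S q w0 i) ∨ w = Tsq.mirX (TT (wX R B S q w0 i))) {p : ℕ} (hp : 2 ≤ p)
    (hpc : p < q + 3) {Y : BinaryTree Unit} (hY : NatX p Y) : w.1 ≠ Y △ .nil := by
  obtain ⟨h1, h2⟩ := h.nat w0 hi hw
  exact hY.not_nat hp hpc h1 h2

/-- `([n]V)`, `(V[n])`, `1 ≤ n`, `n + 1 < c`: no inner word (word 18) -/
theorem _root_.Pool.OddHC.HM.NodeM.not_small (h : HM.NodeM k q R B S) (w0 : X k) {i : ℕ}
    (hi : i ∈ [0, 1, 3, 6, 8, 9]) {w : X k}
    (hw : w = TT (wX R B S q w0 i) ∨ w = Tsq.mirX (TT (wX R B S q w0 i))) {V : BinaryTree Unit} {n : ℕ}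
    (hn1 : 1 ≤ n) (hn : n + 1 < q + 3) : w.1 ≠ app (ch n) V △ .nil ∧ w.1 ≠ app V (ch n) △ .nil := by
  have hin : InnP (q + 3) w.1 := by
    rcases hw with rfl | rfl
    · exact (h.inn w0 hi).1
    · exact (h.inn w0 hi).2
  obtain ⟨n, rfl⟩ : ∃ m, n = m + 1 := ⟨n - 1, by omega⟩
  constructor
  · intro e
    have h1 := hin.start (n := n + 2) (v := List.replicate n false ++ (wd V ++ [false])) (by
      rw [e, wd_node, wd_app, wd_ch, List.replicate_succ (n := n) (a := false),
        List.replicate_succ (n := n + 1) (a := true)]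
      simp [wd])
    omega
  · intro e
    have h1 := hin.stop (n := n + 2) (v := true :: (wd V ++ List.replicate n true)) (by
      rw [e, wd_node, wd_app, wd_ch, List.replicate_succ' (n := n) (a := true),
        List.replicate_succ' (n := n + 1) (a := false)]
      simp [wd])
    omega

end H1

end Pool.OddHC
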