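import Pool.Agent.Work.MP_8f87b2_base.Frame

/-!
MP_8f87b2_co, rule H1: the twenty words of the absorbers `R[c]`, `R = B1 (H s) B`, `H` = light beads directly behind the
first letter of the first tallest component: the words of different absorbers are different.

A component `(X)` is MARKED if its inside starts with a light component (`()` or `(())`), has more components and does not
end with `()`, or if one of its components is marked. `split` = decomposition at the first marked component; `idx` reads
the number of the pattern off the path to the marker.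
-/

namespace Pool.OddHC

namespace H1

open BinaryTree

/-! ### Functions on trees -/

def isNil : BinaryTree Unit → Bool
  | .nil => true
  | .node _ _ _ => false

/-- the last component is `()` -/
def lastB : BinaryTree Unit → Bool
  | .nil => false
  | .node _ A .nil => isNil A
  | .node _ _ (.node u A B) => lastB (.node u A B)

/-- the inside of a light component: `()` or `(())` -/
def light : BinaryTree Unit → Bool
  | .nil => true
  | .node _ A B => isNil A && isNil B

/-- the inside of a marker -/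
def PB : BinaryTree Unit → Bool
  | .nil => false
  | .node _ A X => light A && (!isNil X && !lastB X)

/-- some component is marked -/
def am : BinaryTree Unit → Bool
  | .nil => false
  | .node _ A X => (PB A || am A) || am X

/-- the inside of a marked component -/
def mk (A : BinaryTree Unit) : Bool := PB A || am A

/-- the decomposition at the first marked component -/
def split : BinaryTree Unit → BinaryTree Unit × BinaryTree Unit × BinaryTree Unit
  | .nil => (.nil, .nil, .nil)
  | .node _ A X => if mk A = true then (.nil, A, X) else (A △ (split X).1, (split X).2.1, (split X).2.2)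

/-- number of components -/
def len : BinaryTree Unit → ℕ
  | .nil => 0
  | .node _ _ X => len X + 1

/-- the first component is `()` -/
def fb : BinaryTree Unit → Bool
  | .nil => false
  | .node _ A _ => isNil A

/-- the second component is `()` -/
def sb : BinaryTree Unit → Bool
  | .nil => false
  | .node _ _ X => fb X

/-- the inside of the last component -/
def lastI : BinaryTree Unit → BinaryTree Unit
  | .nil => .nil
  | .node _ A .nil => A
  | .node _ _ (.node u A B) => lastI (.node u A B)

/-- the first component has at least two components, the last of them `()` -/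
def x4 : BinaryTree Unit → Bool
  | .nil => false
  | .node _ A _ => lastB A && decide (2 ≤ len A)

/-- depth 0 -/
def idx0 (p s : BinaryTree Unit) : ℕ :=
  if fb p = true then 2 else if x4 p = true then 4 else if sb p = true then 5
  else if lastB s = true then 1 else 0

/-- depth 1 -/
def idx1 (p s p1 : BinaryTree Unit) : ℕ :=
  if isNil p = true then
    (if isNil s = true then 3 else if 2 ≤ len (lastI s) then 13 else if len s = 1 then 6 else 16)
  else if fb p1 = true then 7 else if lastB p = false then 10 else if 3 ≤ len p then 11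
  else if isNil s = true then 8 else 18

/-- depth 2 -/
def idx2 (p s p1 s1 : BinaryTree Unit) : ℕ :=
  if isNil p = false then 15 else if isNil p1 = false then 14 else if 2 ≤ len s then 12
  else if isNil s1 = true then 9 else 19

/-- the number of the pattern -/
def idx (w : BinaryTree Unit) : ℕ :=
  if am (split w).2.1 = true then
    (if am (split (split w).2.1).2.1 = true then
      (if am (split (split (split w).2.1).2.1).2.1 = true then 17
        else idx2 (split w).1 (split w).2.2 (split (split w).2.1).1 (split (split w).2.1).2.2)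
      else idx1 (split w).1 (split w).2.2 (split (split w).2.1).1)
  else idx0 (split w).1 (split w).2.2

/-- `[q]`: `q` nested pairs -/
def ch : ℕ → BinaryTree Unit
  | 0 => .nil
  | q + 1 => ch q △ .nil

/-- the twenty words -/
def W (R Q B S : BinaryTree Unit) : ℕ → BinaryTree Unit
  | 0 => app R ((Q △ .nil) △ .nil)
  | 1 => app R (.nil △ app Q (.nil △ .nil))
  | 2 => .nil △ app R (.nil △ Q)
  | 3 => app R (.nil △ Q) △ .nil
  | 4 => app Q (.nil △ .nil) △ R
  | 5 => Q △ (.nil △ R)
  | 6 => R △ (Q △ .nil)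
  | 7 => app Q ((.nil △ R) △ .nil)
  | 8 => app Q (.nil △ (R △ .nil))
  | 9 => (R △ .nil) △ Q
  | 10 => app B ((Q △ .nil) △ S)
  | 11 => app B (.nil △ app Q (.nil △ S))
  | 12 => S △ app B (.nil △ Q)
  | 13 => app S (app B (.nil △ Q) △ .nil)
  | 14 => app Q (.nil △ S) △ B
  | 15 => Q △ (S △ B)
  | 16 => app S (B △ (Q △ .nil))
  | 17 => app Q ((S △ B) △ .nil)
  | 18 => app Q (.nil △ app S (B △ .nil))
  | _ => app S (B △ .nil) △ Q

/-! ### Lemmas on the functions -/

theorem app_nil (P : BinaryTree Unit) : app P .nil = P := by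
  induction P with
  | nil => rfl
  | node _ A B _ ih => rw [app, ih]

theorem app_assoc (P Q R : BinaryTree Unit) : app (app P Q) R = app P (app Q R) := by
  induction P with
  | nil => rfl
  | node _ A B _ ih => rw [app, app, app, ih]

theorem am_node (A X : BinaryTree Unit) : am (A △ X) = (mk A || am X) := rfl

theorem mk_eq (A : BinaryTree Unit) : mk A = (PB A || am A) := rfl

theorem am_app (P Q : BinaryTree Unit) : am (app P Q) = (am P || am Q) := by
  induction P with
  | nil => simp [app, am]
  | node _ A B _ ih => rw [app, am_node, ih, am_node, Bool.or_assoc]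

theorem split_node_t {A X : BinaryTree Unit} (h : mk A = true) : split (A △ X) = (.nil, A, X) := by
  rw [split, if_pos h]

theorem split_app {p M s : BinaryTree Unit} (hp : am p = false) (hM : mk M = true) :
    split (app p (M △ s)) = (p, M, s) := by
  induction p with
  | nil => exact split_node_t hM
  | node _ A X _ ih =>
    rw [am_node, Bool.or_eq_false_iff] at hp
    rw [app, split, if_neg (by rw [hp.1]; simp), ih hp.2]

theorem len_app (P Q : BinaryTree Unit) : len (app P Q) = len P + len Q := by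
  induction P with
  | nil => simp [app, len]
  | node _ A B _ ih => rw [app, len, ih, len]; omega

theorem len_pos {P : BinaryTree Unit} (h : P ≠ .nil) : 1 ≤ len P := by
  cases P with
  | nil => exact absurd rfl h
  | node _ A B => rw [len]; omega

theorem isNil_iff {P : BinaryTree Unit} : isNil P = true ↔ P = .nil := by
  cases P <;> simp [isNil]

theorem isNil_f {P : BinaryTree Unit} : isNil P = false ↔ P ≠ .nil := by
  cases P <;> simp [isNil]

theorem app_ne {P Q : BinaryTree Unit} (h : Q ≠ .nil) : app P Q ≠ .nil := by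
  cases P with
  | nil => exact h
  | node _ A B => rw [app]; simp

theorem app_ne' {P Q : BinaryTree Unit} (h : P ≠ .nil) : app P Q ≠ .nil := by
  cases P with
  | nil => exact absurd rfl h
  | node _ A B => rw [app]; simp

theorem lastB_cons {A X : BinaryTree Unit} (h : X ≠ .nil) : lastB (A △ X) = lastB X := by
  cases X with
  | nil => exact absurd rfl h
  | node _ C D => rfl

theorem lastB_one (A : BinaryTree Unit) : lastB (A △ .nil) = isNil A := rfl

theorem lastB_app {P Q : BinaryTree Unit} (h : Q ≠ .nil) : lastB (app P Q) = lastB Q := by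
  induction P with
  | nil => rfl
  | node _ A B _ ih => rw [app, lastB_cons (app_ne h), ih]

theorem lastI_cons {A X : BinaryTree Unit} (h : X ≠ .nil) : lastI (A △ X) = lastI X := by
  cases X with
  | nil => exact absurd rfl h
  | node _ C D => rfl

theorem lastI_one (A : BinaryTree Unit) : lastI (A △ .nil) = A := rfl

theorem lastI_app {P Q : BinaryTree Unit} (h : Q ≠ .nil) : lastI (app P Q) = lastI Q := by
  induction P with
  | nil => rfl
  | node _ A B _ ih => rw [app, lastI_cons (app_ne h), ih]

/-- cancellation at the end -/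
theorem app_snoc {P P' A A' : BinaryTree Unit} (h : app P (A △ .nil) = app P' (A' △ .nil)) :
    P = P' ∧ A = A' := by
  induction P generalizing P' with
  | nil =>
    cases P' with
    | nil =>
      change A △ .nil = A' △ .nil at h
      simp only [BinaryTree.node.injEq] at h
      exact ⟨rfl, h.2.1⟩
    | node _ C D =>
      change A △ .nil = C △ app D (A' △ .nil) at h
      simp only [BinaryTree.node.injEq] at h
      exact absurd h.2.2.symm (app_ne (by simp))
  | node _ C D _ ih =>
    cases P' with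
    | nil =>
      change C △ app D (A △ .nil) = A' △ .nil at h
      simp only [BinaryTree.node.injEq] at h
      exact absurd h.2.2 (app_ne (by simp))
    | node _ C' D' =>
      change C △ app D (A △ .nil) = C' △ app D' (A' △ .nil) at h
      simp only [BinaryTree.node.injEq] at h
      obtain ⟨h1, h2⟩ := ih h.2.2
      rw [h.2.1, h1]
      exact ⟨rfl, h2⟩

theorem node_inj {A B A' B' : BinaryTree Unit} (h : A △ B = A' △ B') : A = A' ∧ B = B' := by
  simp only [BinaryTree.node.injEq, true_and] at h
  exact h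

/-! ### `[q]` -/

theorem ch_succ (q : ℕ) : ch (q + 1) = ch q △ .nil := rfl

theorem PB_ch (q : ℕ) : PB (ch q) = false := by
  cases q with
  | zero => rfl
  | succ q => rw [ch, PB]; simp [isNil]

theorem am_ch (q : ℕ) : am (ch q) = false := by
  induction q with
  | zero => rfl
  | succ q ih => rw [ch, am_node, mk, PB_ch, ih]; rfl

theorem mk_ch (q : ℕ) : mk (ch q) = false := by rw [mk, PB_ch, am_ch]; rfl

theorem ch_inj {q q' : ℕ} (h : ch q = ch q') : q = q' := by
  induction q generalizing q' with
  | zero =>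
    cases q' with
    | zero => rfl
    | succ q' => cases h
  | succ q ih =>
    cases q' with
    | zero => cases h
    | succ q' =>
      rw [ch, ch] at h
      rw [ih (node_inj h).1]

theorem mk_nil : mk .nil = false := rfl

/-- `([q]())` is not marked -/
theorem mk_chb (q : ℕ) : mk (ch q △ (.nil △ .nil)) = false := by
  rw [mk, am_node, mk_ch, am_node, mk_nil]
  simp [PB, am, lastB, isNil]

/-! ### Heavy trees -/

/-- all solitons `≥ 3` -/
def hv : BinaryTree Unit → Prop
  | .nil => True
  | .node _ A X => (A = (.nil △ .nil) △ .nil ∨ (A ≠ .nil ∧ hv A)) ∧ hv X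

theorem hv_node {A X : BinaryTree Unit} :
    hv (A △ X) ↔ (A = (.nil △ .nil) △ .nil ∨ (A ≠ .nil ∧ hv A)) ∧ hv X := Iff.rfl

theorem hv_app {P Q : BinaryTree Unit} : hv (app P Q) ↔ hv P ∧ hv Q := by
  induction P with
  | nil => simp [app, hv]
  | node _ A B _ ih => rw [app, hv_node, ih, hv_node, and_assoc]

/-- the inside of a heavy component -/
def gd (A : BinaryTree Unit) : Prop := A = (.nil △ .nil) △ .nil ∨ (A ≠ .nil ∧ hv A)

theorem gd_ne {A : BinaryTree Unit} (h : gd A) : A ≠ .nil := by
  rcases h with rfl | h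
  · simp
  · exact h.1

theorem gd_light {A : BinaryTree Unit} (h : gd A) : light A = false := by
  rcases h with rfl | ⟨h0, h⟩
  · rfl
  · cases A with
    | nil => exact absurd rfl h0
    | node _ A X =>
      have h1 : A ≠ .nil := gd_ne h.1
      rw [light, isNil_f.2 h1]
      rfl

theorem hv_PB {A : BinaryTree Unit} (h : hv A) : PB A = false := by
  cases A with
  | nil => rfl
  | node _ A X => rw [PB, gd_light h.1]; rfl

theorem gd_PB {A : BinaryTree Unit} (h : gd A) : PB A = false := by
  rcases h with rfl | ⟨_, h⟩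
  · rfl
  · exact hv_PB h

theorem hv_am : ∀ {A : BinaryTree Unit}, hv A → am A = false := by
  intro A
  induction A with
  | nil => intro _; rfl
  | node _ A X ihA ihX =>
    intro h
    rw [am_node, ihX h.2, mk, gd_PB h.1]
    rcases h.1 with rfl | ⟨_, h1⟩
    · rfl
    · rw [ihA h1]; rfl

theorem gd_am {A : BinaryTree Unit} (h : gd A) : am A = false := by
  rcases h with rfl | ⟨_, h⟩
  · rfl
  · exact hv_am h

theorem gd_mk {A : BinaryTree Unit} (h : gd A) : mk A = false := by
  rw [mk, gd_PB h, gd_am h]; rfl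

theorem hv_last {A : BinaryTree Unit} (h : hv A) : lastB A = false := by
  induction A with
  | nil => rfl
  | node _ A X _ ihX =>
    cases X with
    | nil =>
      rw [lastB_one, isNil_f]
      exact gd_ne h.1
    | node _ C D =>
      rw [lastB_cons (by simp)]
      exact ihX h.2

theorem hv_fb {A : BinaryTree Unit} (h : hv A) : fb A = false := by
  cases A with
  | nil => rfl
  | node _ A X =>
    rw [fb, isNil_f]
    exact gd_ne h.1

theorem hv_sb {A : BinaryTree Unit} (h : hv A) : sb A = false := by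
  cases A with
  | nil => rfl
  | node _ A X => exact hv_fb h.2

theorem hv_x4 {A : BinaryTree Unit} (h : hv A) : x4 A = false := by
  cases A with
  | nil => rfl
  | node _ A X =>
    rw [x4]
    rcases h.1 with rfl | ⟨_, h1⟩
    · rfl
    · rw [hv_last h1]; rfl

/-! ### Admissible data -/

/-- `R = B1 (P) B`, `S = (B1 (F) Y) β`, `P`, `F` insides of markers -/
structure Adm (q : ℕ) (R B S : BinaryTree Unit) : Prop where
  hR : ∃ B1 P, hv B1 ∧ PB P = true ∧ am P = false ∧ R = app B1 (P △ B)
  hB : hv B
  hS : ∃ B1 F Y β, hv B1 ∧ PB F = true ∧ am F = false ∧ S = app B1 (F △ Y) △ β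

theorem mk_of_PB {A : BinaryTree Unit} (h : PB A = true) : mk A = true := by rw [mk, h]; rfl

theorem mk_of_am {A : BinaryTree Unit} (h : am A = true) : mk A = true := by rw [mk, h, Bool.or_true]

theorem am_mid {p M s : BinaryTree Unit} (hM : mk M = true) : am (app p (M △ s)) = true := by
  rw [am_app, am_node, hM]; simp

/-- the first block -/
theorem idx_lo {q : ℕ} {R B S : BinaryTree Unit} (h : Adm (q + 1) R B S) :
    ∀ i < 10, idx (W R (ch (q + 1)) B S i) = i := by
  obtain ⟨B1, P, h1, h2, h3, rfl⟩ := h.hR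
  have hB := h.hB
  have mP := mk_of_PB h2
  have aB1 := hv_am h1
  have aR : am (app B1 (P △ B)) = true := am_mid mP
  have mR := mk_of_am aR
  have sR : split (app B1 (P △ B)) = (B1, P, B) := split_app aB1 mP
  intro i hi
  interval_cases i
  · -- 0 : R((Q))
    have e : W (app B1 (P △ B)) (ch (q + 1)) B S 0 = app B1 (P △ app B ((ch (q + 1) △ .nil) △ .nil)) := by
      change app (app B1 (P △ B)) _ = _
      rw [app_assoc]; rfl
    rw [e, idx, split_app aB1 mP, h3]
    simp only [Bool.false_eq_true, if_false, idx0]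
    rw [hv_fb h1, hv_x4 h1, hv_sb h1, lastB_app (by simp), lastB_one]
    simp [isNil]
  · -- 1 : R()Q()
    have e : W (app B1 (P △ B)) (ch (q + 1)) B S 1 =
        app B1 (P △ app B (.nil △ app (ch (q + 1)) (.nil △ .nil))) := by
      change app (app B1 (P △ B)) _ = _
      rw [app_assoc]; rfl
    rw [e, idx, split_app aB1 mP, h3]
    simp only [Bool.false_eq_true, if_false, idx0]
    rw [hv_fb h1, hv_x4 h1, hv_sb h1, lastB_app (by simp), lastB_cons (app_ne (by simp)),
      lastB_app (by simp), lastB_one]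
    simp [isNil]
  · -- 2 : ()R()Q
    have e : W (app B1 (P △ B)) (ch (q + 1)) B S 2 =
        app (.nil △ B1) (P △ app B (.nil △ ch (q + 1))) := by
      change .nil △ app (app B1 (P △ B)) _ = _
      rw [app_assoc]; rfl
    rw [e, idx, split_app (by rw [am_node, aB1]; rfl) mP, h3]
    simp [idx0, fb, isNil]
  · -- 3 : (R()Q)
    have e : W (app B1 (P △ B)) (ch (q + 1)) B S 3 =
        app B1 (P △ app B (.nil △ ch (q + 1))) △ .nil := by
      change app (app B1 (P △ B)) _ △ .nil = _
      rw [app_assoc]; rfl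
    rw [e, idx, split_node_t (mk_of_am (am_mid mP)), am_mid mP, split_app aB1 mP, h3]
    simp [idx1, isNil]
  · -- 4 : (Q())R
    have e : W (app B1 (P △ B)) (ch (q + 1)) B S 4 =
        app ((ch q △ (.nil △ .nil)) △ B1) (P △ B) := rfl
    rw [e, idx, split_app (by rw [am_node, aB1, mk_chb]; rfl) mP, h3]
    simp [idx0, fb, isNil, x4, lastB, len]
  · -- 5 : (Q)()R
    have e : W (app B1 (P △ B)) (ch (q + 1)) B S 5 = app (ch (q + 1) △ (.nil △ B1)) (P △ B) := rfl
    rw [e, idx, split_app (by rw [am_node, am_node, aB1, mk_ch]; rfl) mP, h3]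
    simp [idx0, fb, isNil, x4, len, ch, sb]
  · -- 6 : (R)(Q)
    have e : W (app B1 (P △ B)) (ch (q + 1)) B S 6 = app B1 (P △ B) △ (ch (q + 1) △ .nil) := rfl
    rw [e, idx, split_node_t mR, aR, sR, h3]
    simp [idx1, isNil, lastI, len, ch]
  · -- 7 : Q(()R)
    have e : W (app B1 (P △ B)) (ch (q + 1)) B S 7 = app (ch (q + 1)) (app (.nil △ B1) (P △ B) △ .nil) := rfl
    have a1 : am (app (.nil △ B1) (P △ B)) = true := am_mid mP
    rw [e, idx, split_app (am_ch _) (mk_of_am a1), a1,
      split_app (by rw [am_node, aB1]; rfl) mP, h3]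
    simp [idx1, isNil, ch, fb]
  · -- 8 : Q()(R)
    have e : W (app B1 (P △ B)) (ch (q + 1)) B S 8 = app (ch q △ (.nil △ .nil)) (app B1 (P △ B) △ .nil) := rfl
    rw [e, idx, split_app (by rw [am_node, am_node, mk_ch]; rfl) mR, aR, sR, h3]
    simp only [Bool.false_eq_true, if_false, if_true, idx1]
    rw [hv_fb h1]
    simp [isNil, lastB, len]
  · -- 9 : ((R))Q
    have e : W (app B1 (P △ B)) (ch (q + 1)) B S 9 = (app B1 (P △ B) △ .nil) △ ch (q + 1) := rfl
    have a1 : am (app B1 (P △ B) △ .nil) = true := by rw [am_node, mR]; rfl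
    rw [e, idx, split_node_t (mk_of_am a1), a1, split_node_t mR, aR, sR, h3]
    simp [idx2, isNil, len, ch]

/-- the second block -/
theorem idx_hi {q : ℕ} {R B S : BinaryTree Unit} (h : Adm (q + 1) R B S) :
    ∀ i, 10 ≤ i → i < 20 → idx (W R (ch (q + 1)) B S i) = i := by
  obtain ⟨B1, F, Y, β, h1, h2, h3, rfl⟩ := h.hS
  have hB := h.hB
  have mF := mk_of_PB h2
  have aB1 := hv_am h1
  have aB := hv_am hB
  have aD : am (app B1 (F △ Y)) = true := am_mid mF
  have mD := mk_of_am aD
  have sD : split (app B1 (F △ Y)) = (B1, F, Y) := split_app aB1 mF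
  have aS : am (app B1 (F △ Y) △ β) = true := by rw [am_node, mD]; rfl
  have mS := mk_of_am aS
  have sS : split (app B1 (F △ Y) △ β) = (.nil, app B1 (F △ Y), β) := split_node_t mD
  generalize app B1 (F △ Y) = D at *
  intro i hi hi'
  interval_cases i
  · -- 10 : B((Q))S
    have e : W R (ch (q + 1)) B (D △ β) 10 = app (app B ((ch (q + 1) △ .nil) △ .nil)) (D △ β) := by
      rw [app_assoc]; rfl
    have e2 : mk (ch (q + 1) △ .nil) = false := mk_ch (q + 2)
    rw [e, idx, split_app (by rw [am_app, aB, am_node, e2]; rfl) mD, aD, sD, h3]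
    simp only [Bool.false_eq_true, if_false, if_true, idx1]
    rw [hv_fb h1, lastB_app (by simp), isNil_f.2 (app_ne (by simp)), lastB_one]
    simp [isNil]
  · -- 11 : B()Q()S
    have e : W R (ch (q + 1)) B (D △ β) 11 =
        app (app B (.nil △ app (ch (q + 1)) (.nil △ .nil))) (D △ β) := by
      rw [app_assoc]; rfl
    rw [e, idx, split_app (by rw [am_app, aB, am_node, am_app, am_ch]; rfl) mD, aD, sD, h3]
    simp only [Bool.false_eq_true, if_false, if_true, idx1]
    rw [hv_fb h1, lastB_app (by simp), lastB_cons (app_ne (by simp)), lastB_app (by simp),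
      isNil_f.2 (app_ne (by simp)), lastB_one, len_app]
    simp [isNil, len, len_app, ch]
  · -- 12 : (S)B()Q
    have e : W R (ch (q + 1)) B (D △ β) 12 = (D △ β) △ app B (.nil △ ch (q + 1)) := rfl
    rw [e, idx, split_node_t mS, aS, sS, aD, sD, h3]
    simp [idx2, isNil, len, len_app, ch]
  · -- 13 : S(B()Q)
    have e : W R (ch (q + 1)) B (D △ β) 13 = D △ app β (app B (.nil △ ch (q + 1)) △ .nil) := rfl
    rw [e, idx, split_node_t mD, aD, sD, h3]
    simp only [Bool.false_eq_true, if_false, if_true, idx1]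
    rw [lastI_app (by simp), lastI_one, isNil_f.2 (app_ne (by simp)), len_app]
    simp [isNil, len, ch]
  · -- 14 : (Q()S)B
    have e : W R (ch (q + 1)) B (D △ β) 14 = app (ch q △ (.nil △ .nil)) (D △ β) △ B := rfl
    have a1 : am (app (ch q △ (.nil △ .nil)) (D △ β)) = true := am_mid mD
    rw [e, idx, split_node_t (mk_of_am a1), a1, split_app (by rw [am_node, am_node, mk_ch]; rfl) mD,
      aD, sD, h3]
    simp [idx2, isNil]
  · -- 15 : (Q)(S)B
    have e : W R (ch (q + 1)) B (D △ β) 15 = app (ch (q + 1) △ .nil) ((D △ β) △ B) := rfl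
    rw [e, idx, split_app (by rw [am_node, mk_ch]; rfl) mS, aS, sS, aD, sD, h3]
    simp [idx2, isNil]
  · -- 16 : S(B)(Q)
    have e : W R (ch (q + 1)) B (D △ β) 16 = D △ app β (B △ (ch (q + 1) △ .nil)) := rfl
    rw [e, idx, split_node_t mD, aD, sD, h3]
    simp only [Bool.false_eq_true, if_false, if_true, idx1]
    rw [lastI_app (by simp), lastI_cons (by simp), lastI_one, isNil_f.2 (app_ne (by simp)), len_app]
    simp [isNil, len, ch]
  · -- 17 : Q((S)B)
    have e : W R (ch (q + 1)) B (D △ β) 17 = app (ch (q + 1)) (((D △ β) △ B) △ .nil) := rfl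
    have a1 : am ((D △ β) △ B) = true := by rw [am_node, mS]; rfl
    rw [e, idx, split_app (am_ch _) (mk_of_am a1), a1, split_node_t mS, aS, sS, aD]
    simp
  · -- 18 : Q()S(B)
    have e : W R (ch (q + 1)) B (D △ β) 18 = app (ch q △ (.nil △ .nil)) (D △ app β (B △ .nil)) := rfl
    rw [e, idx, split_app (by rw [am_node, am_node, mk_ch]; rfl) mD, aD, sD, h3]
    simp only [Bool.false_eq_true, if_false, if_true, idx1]
    rw [hv_fb h1, isNil_f.2 (app_ne (P := β) (Q := B △ .nil) (by simp))]
    simp [isNil, len, lastB]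
  · -- 19 : (S(B))Q
    have e : W R (ch (q + 1)) B (D △ β) 19 = (D △ app β (B △ .nil)) △ ch (q + 1) := rfl
    have a1 : am (D △ app β (B △ .nil)) = true := by rw [am_node, mD]; rfl
    rw [e, idx, split_node_t (mk_of_am a1), a1, split_node_t mD, aD, sD, h3]
    simp only [Bool.false_eq_true, if_false, if_true, idx2]
    rw [isNil_f.2 (app_ne (P := β) (Q := B △ .nil) (by simp))]
    simp [isNil, len, ch]

/-! ### Injectivity -/

theorem ch_node_inj {q q' : ℕ} {X X' : BinaryTree Unit} (h : ch q △ X = ch q' △ X') : q = q' ∧ X = X' :=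
  ⟨ch_inj (node_inj h).1, (node_inj h).2⟩

/-- `A()Q = A'()Q'` -/
theorem tail_inj {A A' : BinaryTree Unit} {q q' : ℕ}
    (h : app A (.nil △ ch (q + 1)) = app A' (.nil △ ch (q' + 1))) : A = A' ∧ q = q' := by
  have e : ∀ (A : BinaryTree Unit) (q : ℕ),
      app A (.nil △ ch (q + 1)) = app (app A (.nil △ .nil)) (ch q △ .nil) := by
    intro A q
    rw [app_assoc]; rfl
  rw [e, e] at h
  obtain ⟨h1, h2⟩ := app_snoc h
  exact ⟨(app_snoc h1).1, ch_inj h2⟩

/-- `A()Q() = A'()Q'()` -/
theorem tail_inj2 {A A' : BinaryTree Unit} {q q' : ℕ}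
    (h : app A (.nil △ app (ch (q + 1)) (.nil △ .nil)) = app A' (.nil △ app (ch (q' + 1)) (.nil △ .nil))) :
    A = A' ∧ q = q' := by
  have e : ∀ (A : BinaryTree Unit) (q : ℕ),
      app A (.nil △ app (ch (q + 1)) (.nil △ .nil)) = app (app A (.nil △ ch (q + 1))) (.nil △ .nil) := by
    intro A q
    rw [app_assoc]; rfl
  rw [e, e] at h
  exact tail_inj (app_snoc h).1

/-- equal patterns of the same number -/
theorem W_inj {q q' : ℕ} {R B S R' B' S' : BinaryTree Unit} (h : Adm (q + 1) R B S)
    (h' : Adm (q' + 1) R' B' S') {i : ℕ} (hi : i < 20)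
    (e : W R (ch (q + 1)) B S i = W R' (ch (q' + 1)) B' S' i) :
    q = q' ∧ (i < 10 → R = R') ∧ (10 ≤ i → B = B' ∧ S = S') := by
  have lo : ∀ {i : ℕ}, i < 10 → q = q' ∧ R = R' →
      q = q' ∧ (i < 10 → R = R') ∧ (10 ≤ i → B = B' ∧ S = S') :=
    fun h1 h2 => ⟨h2.1, fun _ => h2.2, fun h3 => absurd h3 (by omega)⟩
  have hi' : ∀ {i : ℕ}, 10 ≤ i → q = q' ∧ B = B' ∧ S = S' →
      q = q' ∧ (i < 10 → R = R') ∧ (10 ≤ i → B = B' ∧ S = S') :=
    fun h1 h2 => ⟨h2.1, fun h3 => absurd h3 (by omega), fun _ => h2.2⟩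
  interval_cases i
  · apply lo (by norm_num)
    have e1 : app R (ch (q + 1 + 1) △ .nil) = app R' (ch (q' + 1 + 1) △ .nil) := e
    obtain ⟨h1, h2⟩ := app_snoc e1
    exact ⟨by have := ch_inj h2; omega, h1⟩
  · apply lo (by norm_num)
    obtain ⟨h1, h2⟩ := tail_inj2 (show app R (.nil △ app (ch (q + 1)) (.nil △ .nil)) =
      app R' (.nil △ app (ch (q' + 1)) (.nil △ .nil)) from e)
    exact ⟨h2, h1⟩
  · apply lo (by norm_num)
    obtain ⟨h1, h2⟩ := tail_inj (node_inj e).2
    exact ⟨h2, h1⟩
  · apply lo (by norm_num)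
    obtain ⟨h1, h2⟩ := tail_inj (node_inj e).1
    exact ⟨h2, h1⟩
  · apply lo (by norm_num)
    have e1 : (ch q △ (.nil △ .nil)) △ R = (ch q' △ (.nil △ .nil)) △ R' := e
    exact ⟨(ch_node_inj (node_inj e1).1).1, (node_inj e1).2⟩
  · apply lo (by norm_num)
    have e1 : ch (q + 1) △ (.nil △ R) = ch (q' + 1) △ (.nil △ R') := e
    obtain ⟨h1, h2⟩ := ch_node_inj e1
    exact ⟨by omega, (node_inj h2).2⟩
  · apply lo (by norm_num)
    have e1 : R △ (ch (q + 1) △ .nil) = R' △ (ch (q' + 1) △ .nil) := e
    obtain ⟨h1, h2⟩ := ch_node_inj (node_inj e1).2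
    exact ⟨by omega, (node_inj e1).1⟩
  · apply lo (by norm_num)
    have e1 : ch q △ ((.nil △ R) △ .nil) = ch q' △ ((.nil △ R') △ .nil) := e
    obtain ⟨h1, h2⟩ := ch_node_inj e1
    exact ⟨h1, (node_inj (node_inj h2).1).2⟩
  · apply lo (by norm_num)
    have e1 : ch q △ (.nil △ (R △ .nil)) = ch q' △ (.nil △ (R' △ .nil)) := e
    obtain ⟨h1, h2⟩ := ch_node_inj e1
    exact ⟨h1, (node_inj (node_inj h2).2).1⟩
  · apply lo (by norm_num)
    have e1 : (R △ .nil) △ ch (q + 1) = (R' △ .nil) △ ch (q' + 1) := e
    obtain ⟨h1, h2⟩ := node_inj e1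
    exact ⟨by have := ch_inj h2; omega, (node_inj h1).1⟩
  · apply hi' (by norm_num)
    obtain ⟨B1, F, Y, β, h1, h2, h3, rfl⟩ := h.hS
    obtain ⟨B1', F', Y', β', h1', h2', h3', rfl⟩ := h'.hS
    have aB := hv_am h.hB
    have aB' := hv_am h'.hB
    have mD : mk (app B1 (F △ Y)) = true := mk_of_am (am_mid (mk_of_PB h2))
    have mD' : mk (app B1' (F' △ Y')) = true := mk_of_am (am_mid (mk_of_PB h2'))
    have e2 : mk (ch (q + 1) △ .nil) = false := mk_ch (q + 2)
    have e2' : mk (ch (q' + 1) △ .nil) = false := mk_ch (q' + 2)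
    have e1 : app (app B ((ch (q + 1) △ .nil) △ .nil)) (app B1 (F △ Y) △ β) =
        app (app B' ((ch (q' + 1) △ .nil) △ .nil)) (app B1' (F' △ Y') △ β') := by
      rw [app_assoc, app_assoc]; exact e
    have e3 := congrArg split e1
    rw [split_app (by rw [am_app, aB, am_node, e2]; rfl) mD,
      split_app (by rw [am_app, aB', am_node, e2']; rfl) mD'] at e3
    simp only [Prod.mk.injEq] at e3
    obtain ⟨e4, e5, e6⟩ := e3
    obtain ⟨e7, e8⟩ := app_snoc e4
    have e9 : ch (q + 2) = ch (q' + 2) := e8
    exact ⟨by have := ch_inj e9; omega, e7, by rw [e5, e6]⟩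
  · apply hi' (by norm_num)
    obtain ⟨B1, F, Y, β, h1, h2, h3, rfl⟩ := h.hS
    obtain ⟨B1', F', Y', β', h1', h2', h3', rfl⟩ := h'.hS
    have aB := hv_am h.hB
    have aB' := hv_am h'.hB
    have mD : mk (app B1 (F △ Y)) = true := mk_of_am (am_mid (mk_of_PB h2))
    have mD' : mk (app B1' (F' △ Y')) = true := mk_of_am (am_mid (mk_of_PB h2'))
    have e1 : app (app B (.nil △ app (ch (q + 1)) (.nil △ .nil))) (app B1 (F △ Y) △ β) =
        app (app B' (.nil △ app (ch (q' + 1)) (.nil △ .nil))) (app B1' (F' △ Y') △ β') := by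
      rw [app_assoc, app_assoc]; exact e
    have e3 := congrArg split e1
    rw [split_app (by rw [am_app, aB, am_node, am_app, am_ch]; rfl) mD,
      split_app (by rw [am_app, aB', am_node, am_app, am_ch]; rfl) mD'] at e3
    simp only [Prod.mk.injEq] at e3
    obtain ⟨e4, e5, e6⟩ := e3
    obtain ⟨e7, e8⟩ := tail_inj2 e4
    exact ⟨e8, e7, by rw [e5, e6]⟩
  · apply hi' (by norm_num)
    have e1 : S △ app B (.nil △ ch (q + 1)) = S' △ app B' (.nil △ ch (q' + 1)) := e
    obtain ⟨h1, h2⟩ := tail_inj (node_inj e1).2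
    exact ⟨h2, h1, (node_inj e1).1⟩
  · apply hi' (by norm_num)
    have e1 : app S (app B (.nil △ ch (q + 1)) △ .nil) = app S' (app B' (.nil △ ch (q' + 1)) △ .nil) := e
    obtain ⟨h0, h1⟩ := app_snoc e1
    obtain ⟨h1, h2⟩ := tail_inj h1
    exact ⟨h2, h1, h0⟩
  · apply hi' (by norm_num)
    have e1 : (ch q △ (.nil △ S)) △ B = (ch q' △ (.nil △ S')) △ B' := e
    obtain ⟨h0, h1⟩ := node_inj e1
    obtain ⟨h2, h3⟩ := ch_node_inj h0
    exact ⟨h2, h1, (node_inj h3).2⟩
  · apply hi' (by norm_num)
    have e1 : ch (q + 1) △ (S △ B) = ch (q' + 1) △ (S' △ B') := e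
    obtain ⟨h2, h3⟩ := ch_node_inj e1
    exact ⟨by omega, (node_inj h3).2, (node_inj h3).1⟩
  · apply hi' (by norm_num)
    have e0 : ∀ (S B : BinaryTree Unit) (q : ℕ),
        app S (B △ (ch (q + 1) △ .nil)) = app (app S (B △ .nil)) (ch (q + 1) △ .nil) := by
      intro S B q
      rw [app_assoc]; rfl
    have e1 : app S (B △ (ch (q + 1) △ .nil)) = app S' (B' △ (ch (q' + 1) △ .nil)) := e
    rw [e0, e0] at e1
    obtain ⟨h0, h1⟩ := app_snoc e1
    obtain ⟨h2, h3⟩ := app_snoc h0
    exact ⟨by have := ch_inj h1; omega, h3, h2⟩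
  · apply hi' (by norm_num)
    have e1 : ch q △ ((S △ B) △ .nil) = ch q' △ ((S' △ B') △ .nil) := e
    obtain ⟨h2, h3⟩ := ch_node_inj e1
    obtain ⟨h4, h5⟩ := node_inj (node_inj h3).1
    exact ⟨h2, h5, h4⟩
  · apply hi' (by norm_num)
    have e1 : ch q △ (.nil △ app S (B △ .nil)) = ch q' △ (.nil △ app S' (B' △ .nil)) := e
    obtain ⟨h2, h3⟩ := ch_node_inj e1
    obtain ⟨h4, h5⟩ := app_snoc (node_inj h3).2
    exact ⟨h2, h5, h4⟩
  · apply hi' (by norm_num)
    have e1 : app S (B △ .nil) △ ch (q + 1) = app S' (B' △ .nil) △ ch (q' + 1) := e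
    obtain ⟨h2, h3⟩ := node_inj e1
    obtain ⟨h4, h5⟩ := app_snoc h2
    exact ⟨by have := ch_inj h3; omega, h5, h4⟩

/-- DISJOINTNESS: the words of two admissible data are different, except the same word of data with the same block -/
theorem W_disj {q q' : ℕ} {R B S R' B' S' : BinaryTree Unit} (h : Adm (q + 1) R B S)
    (h' : Adm (q' + 1) R' B' S') {i j : ℕ} (hi : i < 20) (hj : j < 20)
    (e : W R (ch (q + 1)) B S i = W R' (ch (q' + 1)) B' S' j) :
    i = j ∧ q = q' ∧ (i < 10 → R = R') ∧ (10 ≤ i → B = B' ∧ S = S') := by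
  have id1 : ∀ {q : ℕ} {R B S : BinaryTree Unit}, Adm (q + 1) R B S → ∀ i < 20,
      idx (W R (ch (q + 1)) B S i) = i := by
    intro q R B S h i hi
    rcases lt_or_ge i 10 with h1 | h1
    · exact idx_lo h i h1
    · exact idx_hi h i h1 hi
  have e1 := congrArg idx e
  rw [id1 h i hi, id1 h' j hj] at e1
  subst e1
  exact ⟨rfl, W_inj h h' hi e⟩

end H1

end Pool.OddHC
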