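import Pool.Agent.Work.MP_8f87b2_h71.H1
import Pool.Agent.Work.MP_8f87b2_h35.Tsq
import Pool.Agent.Work.MP_8f87b2_end.End

/-!
MP_8f87b2_co, rule H1 for the nodes: `R = B1 (()^m (())^a s) B`, `(s)` = first tallest component of `R0 = B1 (s) B`, all
solitons of `R0` at least 3, height of `R0` at least 4, `(a, m) ≠ (0, 0)`, `Q = [c + 1]`, `(S, B) = sq R`. The data are
admissible, and the twenty words of different nodes are different.
-/

namespace Pool.OddHC

namespace H1

open BinaryTree

/-! ### Light lists -/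

/-- a list of light components -/
def bl : BinaryTree Unit → Bool
  | .nil => true
  | .node _ A X => light A && bl X

theorem light_cases {A : BinaryTree Unit} (h : light A = true) : A = .nil ∨ A = .nil △ .nil := by
  cases A with
  | nil => exact Or.inl rfl
  | node _ A B =>
    rw [light, Bool.and_eq_true, isNil_iff, isNil_iff] at h
    right
    rw [h.1, h.2]

theorem light_mk {A : BinaryTree Unit} (h : light A = true) : mk A = false := by
  rcases light_cases h with rfl | rfl <;> rfl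

theorem bl_am {H : BinaryTree Unit} (h : bl H = true) : am H = false := by
  induction H with
  | nil => rfl
  | node _ A X _ ih =>
    rw [bl, Bool.and_eq_true] at h
    rw [am_node, light_mk h.1, ih h.2]
    rfl

theorem bl_ht {H : BinaryTree Unit} (h : bl H = true) : Tsq.ht H ≤ 2 := by
  induction H with
  | nil => rw [Tsq.ht]; omega
  | node _ A X _ ih =>
    rw [bl, Bool.and_eq_true] at h
    rw [Tsq.ht_node]
    have h1 := ih h.2
    rcases light_cases h.1 with rfl | rfl
    · rw [Tsq.ht]; omega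
    · rw [Tsq.ht, Tsq.ht]; omega

/-- a marker -/
theorem bl_PB {H X : BinaryTree Unit} (h : bl H = true) (h0 : H ≠ .nil) (hX : X ≠ .nil)
    (hl : lastB X = false) : PB (app H X) = true := by
  cases H with
  | nil => exact absurd rfl h0
  | node _ A H' =>
    rw [bl, Bool.and_eq_true] at h
    rw [app, PB, h.1, isNil_f.2 (app_ne hX), lastB_app hX, hl]
    rfl

theorem bl_app_am {H X : BinaryTree Unit} (h : bl H = true) (hX : am X = false) :
    am (app H X) = false := by
  rw [am_app, bl_am h, hX]; rfl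

/-! ### `sq` of heavy trees -/

/-- the facts on `sq s` -/
structure Sg (s X Y : BinaryTree Unit) : Prop where
  e : (Tsq.sq s).1 = X △ Y
  X0 : X ≠ .nil
  PB0 : PB (X △ Y) = false
  am0 : am (X △ Y) = false
  l0 : lastB (X △ Y) = false
  am2 : am (Tsq.sq s).2 = false
  l2 : lastB (Tsq.sq s).2 = false

theorem sq_two : Tsq.sq ((.nil △ .nil) △ .nil) = ((.nil △ .nil) △ .nil, .nil) := by
  have h1 : Tsq.sq ((.nil : BinaryTree Unit) △ .nil) = (.nil △ .nil, .nil) :=
    Tsq.sq_nil (by rw [Tsq.ht]; omega)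
  rw [Tsq.sq_ge (by simp) (by rw [Tsq.ht]; omega), h1]

theorem Sg_two : Sg ((.nil △ .nil) △ .nil) (.nil △ .nil) .nil where
  e := by rw [sq_two]
  X0 := by simp
  PB0 := rfl
  am0 := rfl
  l0 := rfl
  am2 := by rw [sq_two]; rfl
  l2 := by rw [sq_two]; rfl

/-- heavy: the inside of the first component of `S` -/
theorem sq_hv : ∀ {s : BinaryTree Unit}, hv s → s ≠ .nil →
    ∃ X Y, Sg s X Y ∧ lastB X = false ∧ am X = false ∧ light X = false := by
  intro s
  induction s with
  | nil => intro _ h; exact absurd rfl h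
  | node u A C ihA ihC =>
    intro h _
    obtain ⟨hA, hC⟩ := h
    have hA0 := gd_ne hA
    by_cases hlt : Tsq.ht A + 1 < Tsq.ht C
    · have hC0 : C ≠ .nil := by
        rintro rfl
        rw [Tsq.ht] at hlt
        omega
      obtain ⟨X, Y, g, g1, g2, g3⟩ := ihC hC hC0
      have e := Tsq.sq_lt hlt g.e
      have hn : A △ X ≠ .nil := by simp
      have ham : am (A △ X) = false := by rw [am_node, gd_mk hA, g2]; rfl
      have hY : am Y = false := by
        have := g.am0
        rw [am_node, Bool.or_eq_false_iff] at this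
        exact this.2
      have hPB : PB (A △ X) = false := by rw [PB, gd_light hA]; rfl
      refine ⟨A △ X, Y, ⟨?_, hn, ?_, ?_, ?_, ?_, ?_⟩, ?_, ham, ?_⟩
      · show (Tsq.sq (A △ C)).1 = _
        rw [e]
      · rw [PB, light, isNil_f.2 hA0]; rfl
      · rw [am_node, mk, hPB, ham, hY]; rfl
      · cases hY' : Y with
        | nil => rw [lastB_one, isNil_f]; exact hn
        | node _ D E =>
          rw [lastB_cons (by simp)]
          have := g.l0
          rw [hY', lastB_cons (by simp)] at this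
          exact this
      · show am (Tsq.sq (A △ C)).2 = _
        rw [e]; exact g.am2
      · show lastB (Tsq.sq (A △ C)).2 = _
        rw [e]; exact g.l2
      · rw [lastB_cons g.X0]; exact g1
      · rw [light, isNil_f.2 hA0]; rfl
    · push Not at hlt
      obtain ⟨X1, Y1, g⟩ : ∃ X Y, Sg A X Y := by
        rcases hA with rfl | ⟨h1, h2⟩
        · exact ⟨_, _, Sg_two⟩
        · obtain ⟨X, Y, g, _⟩ := ihA h2 h1
          exact ⟨X, Y, g⟩
      have e := Tsq.sq_ge hA0 hlt
      have hn : X1 △ Y1 ≠ .nil := by simp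
      refine ⟨X1 △ Y1, (Tsq.sq A).2, ⟨?_, hn, ?_, ?_, ?_, ?_, ?_⟩, g.l0, g.am0, ?_⟩
      · show (Tsq.sq (A △ C)).1 = _
        rw [e, ← g.e]
      · rw [PB, light, isNil_f.2 g.X0]; rfl
      · rw [am_node, mk, g.PB0, g.am0, g.am2]; rfl
      · cases hY' : (Tsq.sq A).2 with
        | nil => rfl
        | node _ D E =>
          rw [lastB_cons (by simp), ← hY']
          exact g.l2
      · show am (Tsq.sq (A △ C)).2 = _
        rw [e]; exact hv_am hC
      · show lastB (Tsq.sq (A △ C)).2 = _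
        rw [e]; exact hv_last hC
      · rw [light, isNil_f.2 g.X0]; rfl

theorem hv_ht {s : BinaryTree Unit} (h : hv s) (h0 : s ≠ .nil) : 3 ≤ Tsq.ht s := by
  induction s with
  | nil => exact absurd rfl h0
  | node u A C ihA ihC =>
    rw [Tsq.ht]
    rcases h.1 with rfl | ⟨h1, h2⟩
    · rw [Tsq.ht, Tsq.ht, Tsq.ht]; omega
    · have := ihA h2 h1
      omega

/-! ### The data of a node -/

/-- the data are admissible -/
theorem adm_of {q : ℕ} {B1 H s B : BinaryTree Unit} (h1 : hv B1) (hB : hv B) (hs : hv s)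
    (hs0 : s ≠ .nil) (hH : bl H = true) (hH0 : H ≠ .nil) (ht1 : Tsq.ht B1 < Tsq.ht s + 1)
    (ht2 : Tsq.ht B ≤ Tsq.ht s + 1) :
    (Tsq.sq (app B1 (app H s △ B))).2 = B ∧
      Adm q (app B1 (app H s △ B)) B (Tsq.sq (app B1 (app H s △ B))).1 := by
  have hH2 := bl_ht hH
  have hs3 := hv_ht hs hs0
  obtain ⟨X, Y, g, g1, g2, g3⟩ := sq_hv hs hs0
  have e1 : Tsq.ht (app H s) = Tsq.ht s := by rw [Tsq.ht_app]; omega
  have e2 : Tsq.sq (app H s) = (app H X △ Y, (Tsq.sq s).2) := by
    rw [Tsq.sq_pre H s (by omega), g.e]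
    rfl
  have e3 : Tsq.sq (app H s △ B) = ((app H X △ Y) △ (Tsq.sq s).2, B) := by
    rw [Tsq.sq_ge (app_ne hs0) (by omega), e2]
  have e4 : Tsq.sq (app B1 (app H s △ B)) = (app B1 (app H X △ Y) △ (Tsq.sq s).2, B) := by
    rw [Tsq.sq_pre B1 _ (by rw [Tsq.ht_node]; omega), e3]
    rfl
  rw [e4]
  exact ⟨rfl, ⟨⟨B1, app H s, h1, bl_PB hH hH0 hs0 (hv_last hs), bl_app_am hH (hv_am hs), rfl⟩, hB,
    ⟨B1, app H X, Y, (Tsq.sq s).2, h1, bl_PB hH hH0 g.X0 g1, bl_app_am hH g2, rfl⟩⟩⟩

/-- `sq` is injective -/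
theorem sq_inj {R R' : BinaryTree Unit} (h : R ≠ .nil) (h' : R' ≠ .nil) (e : Tsq.sq R = Tsq.sq R') :
    R = R' := by
  have h1 := Tsq.sq_num h
  have h2 := Tsq.sq_num h'
  have h3 : R'.numNodes = R.numNodes := by rw [← h1, ← h2, e]
  let x : X R.numNodes := ⟨R, mem_treesOfNumNodesEq.2 rfl⟩
  let x' : X R.numNodes := ⟨R', mem_treesOfNumNodesEq.2 h3⟩
  have e1 : (TT (TT x)).1 = app (Tsq.sq R).2 (Tsq.sq R).1 := Tsq.TT_sq x h
  have e2 : (TT (TT x')).1 = app (Tsq.sq R').2 (Tsq.sq R').1 := Tsq.TT_sq x' h'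
  have e3 : TT (TT x) = TT (TT x') := Subtype.ext (by rw [e1, e2, e])
  have e4 := TT.injective (TT.injective e3)
  exact congrArg Subtype.val e4

/-! ### Heavy from the content -/

theorem ht_eq (t : BinaryTree Unit) : Tsq.ht t = ht t := by
  induction t with
  | nil => rfl
  | node _ A B ihA ihB => rw [Tsq.ht_node, ht_node, ihA, ihB]

theorem cont_two {A : BinaryTree Unit} (h : cont A = {2}) : A = (.nil △ .nil) △ .nil := by
  have hn := cont_sum A
  rw [h, Multiset.sum_singleton] at hn
  cases A with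
  | nil => simp [BinaryTree.numNodes] at hn
  | node _ C D =>
    have hD : D = .nil := by
      by_contra hD
      have h1 : Multiset.card (cont (C △ D)) = 1 := by
        rw [show cont (C △ D) = {2} from h]; rfl
      rw [cont_node, Multiset.card_add] at h1
      have h2 : 0 < Multiset.card (raise (cont C)) := Multiset.card_pos.2 (raise_ne_zero _)
      have h3 : 0 < Multiset.card (cont D) :=
        Multiset.card_pos.2 (fun h4 => hD (cont_eq_zero.1 h4))
      omega
    subst hD
    change 2 = C.numNodes + 0 + 1 at hn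
    cases C with
    | nil => simp [BinaryTree.numNodes] at hn
    | node _ E F =>
      change 2 = (E.numNodes + F.numNodes + 1) + 0 + 1 at hn
      cases E with
      | nil =>
        cases F with
        | nil => rfl
        | node _ _ _ => simp [BinaryTree.numNodes] at hn
      | node _ _ _ => simp [BinaryTree.numNodes] at hn

/-- all parts at least 3 -/
theorem hv_of_cont : ∀ {t : BinaryTree Unit}, (∀ x ∈ cont t, 3 ≤ x) → hv t := by
  intro t
  induction t with
  | nil => intro _; trivial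
  | node u A C ihA ihC =>
    intro h
    have h' : ∀ x ∈ raise (cont A) + cont C, 3 ≤ x := h
    have h1 : ∀ x ∈ raise (cont A), 3 ≤ x := fun x hx => h' x (Multiset.mem_add.2 (Or.inl hx))
    have h2 : ∀ x ∈ cont C, 3 ≤ x := fun x hx => h' x (Multiset.mem_add.2 (Or.inr hx))
    refine ⟨?_, ihC h2⟩
    have h3 : 3 ≤ (cont A).sup + 1 := h1 _ (by unfold raise; exact Multiset.mem_cons_self _ _)
    have hA0 : A ≠ .nil := by
      rintro rfl
      rw [cont_nil, Multiset.sup_zero] at h3
      simp at h3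
    have hc0 : cont A ≠ 0 := fun h4 => hA0 (cont_eq_zero.1 h4)
    have h4 : ∀ x ∈ (cont A).erase (cont A).sup, 3 ≤ x := fun x hx =>
      h1 x (by unfold raise; exact Multiset.mem_cons_of_mem hx)
    rcases Nat.lt_or_ge (cont A).sup 3 with h5 | h5
    · left
      have h6 : (cont A).sup = 2 := by omega
      have h7 : (cont A).erase (cont A).sup = 0 := by
        rw [Multiset.eq_zero_iff_forall_notMem]
        intro x hx
        have h8 := h4 x hx
        have h9 := Multiset.le_sup (Multiset.mem_of_mem_erase hx)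
        omega
      have h8 := Multiset.cons_erase (sup_mem hc0)
      rw [h7, h6] at h8
      exact cont_two h8.symm
    · right
      refine ⟨hA0, ihA ?_⟩
      intro x hx
      by_cases hx1 : x = (cont A).sup
      · omega
      · exact h4 x ((Multiset.mem_erase_of_ne hx1).2 hx)

/-! ### Nodes -/

theorem lv_app' (m : ℕ) (t : BinaryTree Unit) : lv m t = app (lv m .nil) t := by
  induction m with
  | zero => rfl
  | succ m ih => rw [lv, lv, app, ih]

theorem lv2_app (a : ℕ) (t : BinaryTree Unit) : lv2 a t = app (lv2 a .nil) t := by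
  induction a with
  | zero => rfl
  | succ a ih => rw [lv2, lv2, app, ih]

theorem bl_H (a m : ℕ) : bl (lv m (lv2 a .nil)) = true := by
  have h2 : ∀ a : ℕ, bl (lv2 a .nil) = true := by
    intro a
    induction a with
    | zero => rfl
    | succ a ih => rw [lv2, bl, ih]; rfl
  induction m with
  | zero => exact h2 a
  | succ m ih => rw [lv, bl, ih]; rfl

theorem H_ne {a m : ℕ} (h : 0 < a + m) : lv m (lv2 a .nil) ≠ .nil := by
  cases m with
  | zero =>
    cases a with
    | zero => omega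
    | succ a => rw [lv, lv2]; simp
  | succ m => rw [lv]; simp

/-- `R` of a node -/
def nR (B1 s B : BinaryTree Unit) (a m : ℕ) : BinaryTree Unit := app B1 (lv m (lv2 a s) △ B)

theorem nR_eq (B1 s B : BinaryTree Unit) (a m : ℕ) :
    nR B1 s B a m = app B1 (app (lv m (lv2 a .nil)) s △ B) := by
  unfold nR
  rw [lv_app' m (lv2 a s), lv2_app a s, lv_app' m (lv2 a .nil), app_assoc]

/-- **the data of a node are admissible** -/
theorem node_adm {q : ℕ} {R0 B1 s B : BinaryTree Unit} {a m : ℕ} (h : Tall R0 B1 s B)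
    (hc : ∀ x ∈ cont R0, 3 ≤ x) (h4 : 4 ≤ ht R0) (ham : 0 < a + m) :
    (Tsq.sq (nR B1 s B a m)).2 = B ∧ Adm q (nR B1 s B a m) B (Tsq.sq (nR B1 s B a m)).1 := by
  have g := hv_of_cont hc
  rw [h.eq, hv_app, hv_node] at g
  obtain ⟨g1, g2, g3⟩ := g
  have t1 := h.top
  have t2 := h.low
  have t3 : ht B ≤ ht R0 := by
    rw [h.eq, ht_app, ht_node]
    omega
  have hs : s ≠ .nil ∧ hv s := by
    rcases g2 with rfl | g2
    · have e : ht (((.nil : BinaryTree Unit) △ .nil) △ .nil) = 2 := rfl
      omega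
    · exact g2
  rw [nR_eq]
  exact adm_of g1 g3 hs.2 hs.1 (bl_H a m) (H_ne ham) (by rw [ht_eq, ht_eq]; omega)
    (by rw [ht_eq, ht_eq]; omega)

/-- **the words of different nodes are different** -/
theorem node_disj {q q' : ℕ} {R0 B1 s B R0' B1' s' B' : BinaryTree Unit} {a m a' m' : ℕ}
    (h : Tall R0 B1 s B) (hc : ∀ x ∈ cont R0, 3 ≤ x) (h4 : 4 ≤ ht R0) (ham : 0 < a + m)
    (h' : Tall R0' B1' s' B') (hc' : ∀ x ∈ cont R0', 3 ≤ x) (h4' : 4 ≤ ht R0') (ham' : 0 < a' + m')
    {i j : ℕ} (hi : i < 20) (hj : j < 20)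
    (e : W (nR B1 s B a m) (ch (q + 1)) (Tsq.sq (nR B1 s B a m)).2 (Tsq.sq (nR B1 s B a m)).1 i =
      W (nR B1' s' B' a' m') (ch (q' + 1)) (Tsq.sq (nR B1' s' B' a' m')).2
        (Tsq.sq (nR B1' s' B' a' m')).1 j) :
    i = j ∧ q = q' ∧ nR B1 s B a m = nR B1' s' B' a' m' := by
  obtain ⟨k1, k2⟩ := node_adm (q := q + 1) h hc h4 ham
  obtain ⟨k1', k2'⟩ := node_adm (q := q' + 1) h' hc' h4' ham'
  rw [k1, k1'] at e
  obtain ⟨l1, l2, l3, l4⟩ := W_disj k2 k2' hi hj e
  refine ⟨l1, l2, ?_⟩
  rcases lt_or_ge i 10 with h5 | h5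
  · exact l3 h5
  · obtain ⟨l5, l6⟩ := l4 h5
    apply sq_inj (by unfold nR; exact app_ne (by simp)) (by unfold nR; exact app_ne (by simp))
    exact Prod.ext l6 (by rw [k1, k1', l5])

end H1

end Pool.OddHC
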